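import Pool.Agent.H83.Dim.Defs

/-! # `dh_A ℂ_χ ≤ db A` (helper83, for MP_df984a_an)

Standard homological algebra of Banach modules: from a projective bimodule resolution of `A₊` one
obtains a projective resolution of the one-dimensional left module `ℂ_χ` of the same length. -/

namespace Pool.Agent.H83.Dim

open Filter Topology Set

noncomputable section

set_option linter.unusedSectionVars false

universe u

variable {A : Type u} [NonUnitalNormedRing A] [NormedSpace ℂ A]

section restr

variable {X : Type u} [NormedAddCommGroup X] [NormedSpace ℂ X]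

/-- restriction of an action to an invariant subspace -/
def restrAct (α : A →L[ℂ] X →L[ℂ] X) (S : Submodule ℂ X) (h : ∀ a, ∀ x ∈ S, α a x ∈ S) :
    A →L[ℂ] S →L[ℂ] S :=
  LinearMap.mkContinuous₂
    (LinearMap.mk₂ ℂ (fun (a : A) (x : S) => (⟨α a x, h a x x.2⟩ : S))
      (fun a b x => Subtype.ext (by
        change α (a + b) x = α a x + α b x
        rw [map_add]; rfl))
      (fun c a x => Subtype.ext (by
        change α (c • a) x = c • α a x
        rw [map_smul]; rfl))
      (fun a x y => Subtype.ext (map_add (α a) _ _))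
      (fun c a x => Subtype.ext (map_smul (α a) c _))) ‖α‖
    (fun a x => α.le_opNorm₂ a x)

@[simp] theorem coe_restrAct (α : A →L[ℂ] X →L[ℂ] X) (S : Submodule ℂ X)
    (h : ∀ a, ∀ x ∈ S, α a x ∈ S) (a : A) (x : S) : (restrAct α S h a x : X) = α a x := rfl

/-- quotient of an action by an invariant subspace -/
def quoAct (α : A →L[ℂ] X →L[ℂ] X) (S : Submodule ℂ X) [IsClosed (S : Set X)]
    (h : ∀ a, ∀ x ∈ S, α a x ∈ S) : A →L[ℂ] (X ⧸ S) →L[ℂ] (X ⧸ S) :=
  LinearMap.mkContinuous₂
    (LinearMap.mk₂ ℂ (fun (a : A) (x : X ⧸ S) =>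
        S.liftQL (S.mkQL.comp (α a)) (fun x hx => by
          rw [LinearMap.mem_ker]
          exact (Submodule.Quotient.mk_eq_zero S).2 (h a x hx)) x)
      (by
        intro a b x
        obtain ⟨x, rfl⟩ := S.mkQ_surjective x
        change S.mkQL (α (a + b) x) = S.mkQL (α a x) + S.mkQL (α b x)
        rw [← map_add, map_add α]; rfl)
      (by
        intro c a x
        obtain ⟨x, rfl⟩ := S.mkQ_surjective x
        change S.mkQL (α (c • a) x) = c • S.mkQL (α a x)
        rw [← map_smul, map_smul α]; rfl)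
      (by
        intro a x y
        exact map_add _ _ _)
      (by
        intro c a x
        exact map_smul _ _ _)) ‖α‖
    (by
      intro a x
      rw [LinearMap.mk₂_apply]
      apply le_of_forall_pos_le_add
      intro ε hε
      have hC : 0 ≤ ‖α‖ * ‖a‖ :=
        mul_nonneg (ContinuousLinearMap.opNorm_nonneg α) (norm_nonneg _)
      obtain ⟨m, rfl, hm⟩ := Submodule.Quotient.norm_mk_lt x
        (show 0 < ε / (‖α‖ * ‖a‖ + 1) by positivity)
      change ‖(Submodule.Quotient.mk (α a m) : X ⧸ S)‖ ≤ _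
      calc ‖(Submodule.Quotient.mk (α a m) : X ⧸ S)‖ ≤ ‖α a m‖ :=
            Submodule.Quotient.norm_mk_le _ _
        _ ≤ ‖α‖ * ‖a‖ * ‖m‖ := α.le_opNorm₂ a m
        _ ≤ ‖α‖ * ‖a‖ * (‖(Submodule.Quotient.mk m : X ⧸ S)‖ + ε / (‖α‖ * ‖a‖ + 1)) :=
            mul_le_mul_of_nonneg_left hm.le hC
        _ = ‖α‖ * ‖a‖ * ‖(Submodule.Quotient.mk m : X ⧸ S)‖ +
            ‖α‖ * ‖a‖ * (ε / (‖α‖ * ‖a‖ + 1)) := by ring
        _ ≤ _ := by
            gcongr
            rw [← mul_div_assoc, div_le_iff₀ (by positivity)]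
            nlinarith)

theorem quoAct_mk (α : A →L[ℂ] X →L[ℂ] X) (S : Submodule ℂ X) [IsClosed (S : Set X)]
    (h : ∀ a, ∀ x ∈ S, α a x ∈ S) (a : A) (x : X) :
    quoAct α S h a (S.mkQL x) = S.mkQL (α a x) := rfl

end restr

/-! ### General lifting for projective bimodules -/

section pullback

variable {P Y Z : BMod A} (f : BMor Y Z) (g : BMor P Z)

/-- the submodule underlying the pullback -/
def pbS : Submodule ℂ (P × Y) :=
  LinearMap.ker ((g.map.comp (ContinuousLinearMap.fst ℂ P Y) -
    f.map.comp (ContinuousLinearMap.snd ℂ P Y)).toLinearMap)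

theorem mem_pbS (w : P × Y) : w ∈ pbS f g ↔ g.map w.1 = f.map w.2 := by
  rw [pbS, LinearMap.mem_ker]
  change g.map w.1 - f.map w.2 = 0 ↔ _
  rw [sub_eq_zero]

/-- product of actions -/
def prodAct {X Y : Type u} [NormedAddCommGroup X] [NormedSpace ℂ X] [NormedAddCommGroup Y]
    [NormedSpace ℂ Y] (α : A →L[ℂ] X →L[ℂ] X) (β : A →L[ℂ] Y →L[ℂ] Y) :
    A →L[ℂ] (X × Y) →L[ℂ] (X × Y) :=
  (ContinuousLinearMap.prodMapL ℂ X X Y Y).comp (α.prod β)

theorem prodAct_apply {X Y : Type u} [NormedAddCommGroup X] [NormedSpace ℂ X]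
    [NormedAddCommGroup Y] [NormedSpace ℂ Y] (α : A →L[ℂ] X →L[ℂ] X) (β : A →L[ℂ] Y →L[ℂ] Y)
    (a : A) (w : X × Y) : prodAct α β a w = (α a w.1, β a w.2) := rfl

/-- the pullback bimodule -/
def pb : BMod A where
  carrier := pbS f g
  cpl := (ContinuousLinearMap.isClosed_ker _).completeSpace_coe
  lact := restrAct (prodAct P.lact Y.lact) (pbS f g) (by
    intro a w hw
    rw [mem_pbS] at hw ⊢
    rw [prodAct_apply, g.map_lact, f.map_lact, hw])
  ract := restrAct (prodAct P.ract Y.ract) (pbS f g) (by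
    intro a w hw
    rw [mem_pbS] at hw ⊢
    rw [prodAct_apply, g.map_ract, f.map_ract, hw])
  lact_mul := fun a b x => Subtype.ext (Prod.ext (P.lact_mul a b _) (Y.lact_mul a b _))
  ract_mul := fun a b x => Subtype.ext (Prod.ext (P.ract_mul a b _) (Y.ract_mul a b _))
  comm := fun a b x => Subtype.ext (Prod.ext (P.comm a b _) (Y.comm a b _))

/-- projection of the pullback to `P` -/
def pbFst : BMor (pb f g) P where
  map := (ContinuousLinearMap.fst ℂ P Y).comp (pbS f g).subtypeL
  map_lact := fun _ _ => rfl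
  map_ract := fun _ _ => rfl

theorem lift_bimod (hP : BProjective P) (h₀ : P →L[ℂ] Y) (h : ∀ p, f.map (h₀ p) = g.map p) :
    ∃ k : BMor P Y, ∀ p, f.map (k.map p) = g.map p := by
  obtain ⟨s, hs⟩ := hP (pb f g) (pbFst f g)
    ⟨((ContinuousLinearMap.id ℂ P).prod h₀).codRestrict (pbS f g) (fun p => by
      rw [mem_pbS]; exact (h p).symm), fun p => rfl⟩
  refine ⟨⟨(ContinuousLinearMap.snd ℂ P Y).comp ((pbS f g).subtypeL.comp s.map), ?_, ?_⟩, ?_⟩
  · intro a x
    have := congrArg (fun w : pbS f g => (w : P × Y).2) (s.map_lact a x)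
    exact this
  · intro a x
    have := congrArg (fun w : pbS f g => (w : P × Y).2) (s.map_ract a x)
    exact this
  · intro p
    have h1 : g.map (s.map p : pbS f g).1.1 = f.map (s.map p : pbS f g).1.2 :=
      (mem_pbS f g _).1 (s.map p : pbS f g).2
    have h2 : (s.map p : pbS f g).1.1 = p := hs p
    rw [h2] at h1
    exact h1.symm

end pullback

/-! ### Right module maps -/

/-- `h` commutes with the right actions -/
def IsR {X Y : BMod A} (h : X →L[ℂ] Y) : Prop := ∀ a x, h (X.ract a x) = Y.ract a (h x)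

section coind

variable [IsScalarTower ℂ A A] [SMulCommClass ℂ A A]

theorem inPlus_mul (a b : A) : inPlus A (a * b) = inPlus A a * inPlus A b :=
  congrArg (WithLp.toLp 1) (Unitization.inr_mul ℂ a b)

/-- the coinduced bimodule `Hom(A₊, Y)` of a right module -/
def coind (Y : BMod A) : BMod A where
  carrier := Plus A →L[ℂ] Y
  lact := (ContinuousLinearMap.compL ℂ (Plus A) (Plus A) Y).flip.comp
    ((ContinuousLinearMap.mul ℂ (Plus A)).flip.comp (inPlus A))
  ract := (ContinuousLinearMap.compL ℂ (Plus A) Y Y).comp Y.ract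
  lact_mul := fun a b φ => by
    ext x
    change φ (x * inPlus A (a * b)) = φ (x * inPlus A a * inPlus A b)
    rw [inPlus_mul, mul_assoc]
  ract_mul := fun a b φ => by
    ext x
    exact Y.ract_mul a b (φ x)
  comm := fun a b φ => rfl

theorem coind_lact (Y : BMod A) (a : A) (φ : coind Y) (x : Plus A) :
    (show Plus A →L[ℂ] Y from (coind Y).lact a φ) x =
      (show Plus A →L[ℂ] Y from φ) (x * inPlus A a) := rfl

/-- the action of `A₊` on the left of a bimodule -/
def lext (X : BMod A) : Plus A →L[ℂ] X →L[ℂ] X :=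
  LinearMap.mkContinuous₂
    (LinearMap.mk₂ ℂ (fun (b : Plus A) (x : X) =>
        (WithLp.ofLp b).fst • x + X.lact (WithLp.ofLp b).snd x)
      (by
        intro b c x
        rw [WithLp.ofLp_add, Unitization.fst_add, Unitization.snd_add, map_add, add_smul,
          _root_.add_apply]
        abel)
      (by
        intro t b x
        rw [WithLp.ofLp_smul, Unitization.fst_smul, Unitization.snd_smul, map_smul, smul_assoc,
          _root_.smul_apply, smul_add])
      (by
        intro b x y
        rw [smul_add, map_add]; abel)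
      (by
        intro t b x
        rw [map_smul, smul_comm, smul_add]))
    (1 + ‖X.lact‖)
    (by
      intro b x
      rw [LinearMap.mk₂_apply]
      have hb := WithLp.unitization_norm_def b
      have h0 : 0 ≤ ‖X.lact‖ := ContinuousLinearMap.opNorm_nonneg _
      have h1 : ‖(WithLp.ofLp b).fst‖ ≤ ‖b‖ := by rw [hb]; linarith [norm_nonneg (WithLp.ofLp b).snd]
      have h2 : ‖(WithLp.ofLp b).snd‖ ≤ ‖b‖ := by rw [hb]; linarith [norm_nonneg (WithLp.ofLp b).fst]
      calc ‖(WithLp.ofLp b).fst • x + X.lact (WithLp.ofLp b).snd x‖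
          ≤ ‖(WithLp.ofLp b).fst • x‖ + ‖X.lact (WithLp.ofLp b).snd x‖ := norm_add_le _ _
        _ ≤ ‖b‖ * ‖x‖ + ‖X.lact‖ * ‖b‖ * ‖x‖ := by
            refine add_le_add ?_ ?_
            · rw [norm_smul]
              exact mul_le_mul_of_nonneg_right h1 (norm_nonneg _)
            · refine (X.lact.le_opNorm₂ _ _).trans ?_
              exact mul_le_mul_of_nonneg_right (mul_le_mul_of_nonneg_left h2 h0) (norm_nonneg _)
        _ = (1 + ‖X.lact‖) * ‖b‖ * ‖x‖ := by ring)

theorem lext_apply (X : BMod A) (b : Plus A) (x : X) :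
    lext X b x = (WithLp.ofLp b).fst • x + X.lact (WithLp.ofLp b).snd x := rfl

theorem lext_one (X : BMod A) (x : X) : lext X 1 x = x := by
  rw [lext_apply]
  have h1 : (WithLp.ofLp (1 : Plus A)).fst = 1 := rfl
  have h2 : (WithLp.ofLp (1 : Plus A)).snd = 0 := rfl
  rw [h1, h2, map_zero, one_smul, _root_.zero_apply, add_zero]

theorem lext_mul_in (X : BMod A) (b : Plus A) (a : A) (x : X) :
    lext X (b * inPlus A a) x = lext X b (X.lact a x) := by
  rw [lext_apply, lext_apply]
  have h1 : (WithLp.ofLp (b * inPlus A a)).fst = 0 := by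
    change (WithLp.ofLp b).fst * 0 = 0
    rw [mul_zero]
  have h2 : (WithLp.ofLp (b * inPlus A a)).snd =
      (WithLp.ofLp b).fst • a + (WithLp.ofLp b).snd * a := by
    change (WithLp.ofLp b).fst • a + (0 : ℂ) • (WithLp.ofLp b).snd + (WithLp.ofLp b).snd * a = _
    rw [zero_smul, add_zero]
  rw [h1, h2, zero_smul, zero_add, map_add, map_smul, _root_.add_apply, _root_.smul_apply,
    X.lact_mul]

theorem lext_ract (X : BMod A) (b : Plus A) (a : A) (x : X) :
    lext X b (X.ract a x) = X.ract a (lext X b x) := by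
  rw [lext_apply, lext_apply, map_add, map_smul, X.comm]

/-- the map `p ↦ (b ↦ h (b p))` -/
def hatL {X Y : BMod A} (h : X →L[ℂ] Y) : X →L[ℂ] (Plus A →L[ℂ] Y) :=
  (ContinuousLinearMap.compL ℂ (Plus A) X Y h).comp (lext X).flip

theorem hatL_apply {X Y : BMod A} (h : X →L[ℂ] Y) (x : X) (b : Plus A) :
    hatL h x b = h (lext X b x) := rfl

/-- the adjoint bimodule map of a right module map -/
def hat {X Y : BMod A} (h : X →L[ℂ] Y) (hh : IsR h) : BMor X (coind Y) where
  map := hatL h
  map_lact := fun a x => by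
    refine ContinuousLinearMap.ext (fun b => ?_)
    change h (lext X b (X.lact a x)) = h (lext X (b * inPlus A a) x)
    rw [lext_mul_in]
  map_ract := fun a x => by
    refine ContinuousLinearMap.ext (fun b => ?_)
    change h (lext X b (X.ract a x)) = Y.ract a (h (lext X b x))
    rw [lext_ract, hh]

/-- functoriality of the coinduced module -/
def coindMap {Y Z : BMod A} (f : Y →L[ℂ] Z) (hf : IsR f) : BMor (coind Y) (coind Z) where
  map := ContinuousLinearMap.compL ℂ (Plus A) Y Z f
  map_lact := fun _ _ => rfl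
  map_ract := fun a φ => by
    refine ContinuousLinearMap.ext (fun b => ?_)
    exact hf a _

/-- right-linear lifting for projective bimodules -/
theorem lift_right {P Y Z : BMod A} (hP : BProjective P) (f : Y →L[ℂ] Z) (hf : IsR f)
    (g : P →L[ℂ] Z) (hg : IsR g) (h₀ : P →L[ℂ] Y) (h : ∀ p, f (h₀ p) = g p) :
    ∃ k : P →L[ℂ] Y, IsR k ∧ ∀ p, f (k p) = g p := by
  obtain ⟨k, hk⟩ := lift_bimod (coindMap f hf) (hat g hg) hP (hatL h₀) (by
    intro p
    refine ContinuousLinearMap.ext (fun b => ?_)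
    exact h _)
  refine ⟨(ContinuousLinearMap.apply ℂ Y (1 : Plus A)).comp k.map, ?_, ?_⟩
  · intro a x
    have h1 := congrArg (fun φ : Plus A →L[ℂ] Y => φ 1) (k.map_ract a x)
    exact h1
  · intro p
    have h1 : f ((show Plus A →L[ℂ] Y from k.map p) 1) = g (lext P 1 p) :=
      congrArg (fun φ : Plus A →L[ℂ] Z => φ 1) (hk p)
    rw [lext_one] at h1
    exact h1

end coind

/-! ### right-linear contraction of a bimodule resolution of `A₊` -/

section contraction

variable [CompleteSpace A] [IsScalarTower ℂ A A] [SMulCommClass ℂ A A]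
variable (R : BResolution (plusMod A))

/-- the bimodules `A₊, P₀, P₁, …` -/
def bM : ℕ → BMod A
  | 0 => plusMod A
  | (k + 1) => R.P k

/-- the maps -/
def bD : ∀ k, BMor (bM R (k + 1)) (bM R k)
  | 0 => R.ε
  | (k + 1) => R.d k

/-- the linear homotopy -/
def bS : ∀ k, bM R k →L[ℂ] bM R (k + 1)
  | 0 => R.s₀
  | (k + 1) => R.s k

theorem bDD (k : ℕ) (v : bM R (k + 2)) : (bD R k).map ((bD R (k + 1)).map v) = 0 := by
  cases k with
  | zero => exact R.ε_d v
  | succ k => exact R.d_d k v

theorem bDS0 (v : bM R 0) : (bD R 0).map (bS R 0 v) = v := R.ε_s₀ v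

theorem bSD (k : ℕ) (v : bM R (k + 1)) :
    bS R k ((bD R k).map v) + (bD R (k + 1)).map (bS R (k + 1) v) = v := by
  cases k with
  | zero => exact R.split₀ v
  | succ k => exact R.split k v

theorem bP (k : ℕ) : BProjective (bM R (k + 1)) := R.projective k

/-- a right-linear map with the property needed for the induction -/
def Good (k : ℕ) (t : bM R k →L[ℂ] bM R (k + 1)) : Prop :=
  IsR t ∧ ∀ v, (bD R k).map (t ((bD R k).map v)) = (bD R k).map v

theorem isR_mor {X Y : BMod A} (f : BMor X Y) : IsR f.map := f.map_ract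

theorem good_zero : ∃ t : bM R 0 →L[ℂ] bM R 1, Good R 0 t ∧ ∀ v, (bD R 0).map (t v) = v := by
  set p₀ : bM R 1 := bS R 0 (show Plus A from 1) with hp₀
  -- t x = fst x • p₀ + p₀ · snd x
  set fstL : Plus A →L[ℂ] ℂ := LinearMap.mkContinuous
    { toFun := fun x => (WithLp.ofLp x).fst
      map_add' := fun x y => rfl
      map_smul' := fun c x => rfl } 1 (fun x => by
        rw [one_mul]
        have hb := WithLp.unitization_norm_def x
        change ‖(WithLp.ofLp x).fst‖ ≤ _
        rw [hb]; linarith [norm_nonneg (WithLp.ofLp x).snd]) with hfstL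
  set sndL : Plus A →L[ℂ] A := LinearMap.mkContinuous
    { toFun := fun x => (WithLp.ofLp x).snd
      map_add' := fun x y => rfl
      map_smul' := fun c x => rfl } 1 (fun x => by
        rw [one_mul]
        have hb := WithLp.unitization_norm_def x
        change ‖(WithLp.ofLp x).snd‖ ≤ _
        rw [hb]; linarith [norm_nonneg (WithLp.ofLp x).fst]) with hsndL
  set t : Plus A →L[ℂ] bM R 1 := fstL.smulRight p₀ + ((bM R 1).ract.flip p₀).comp sndL with ht
  have ht' : ∀ x : Plus A, t x = (WithLp.ofLp x).fst • p₀ + (bM R 1).ract (WithLp.ofLp x).snd p₀ :=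
    fun x => rfl
  have hD0 : (bD R 0).map p₀ = (show Plus A from 1) := bDS0 R _
  have hDt : ∀ x : Plus A, (bD R 0).map (t x) = x := by
    intro x
    rw [ht', map_add, map_smul, (bD R 0).map_ract, hD0]
    change (WithLp.ofLp x).fst • (1 : Plus A) + (1 : Plus A) * inPlus A (WithLp.ofLp x).snd = x
    rw [one_mul]
    apply (WithLp.linearEquiv 1 ℂ (Unitization ℂ A)).injective
    change (WithLp.ofLp x).fst • (1 : Unitization ℂ A) + ((WithLp.ofLp x).snd : Unitization ℂ A) =
      WithLp.ofLp x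
    ext
    · simp
    · simp
  refine ⟨t, ⟨?_, fun v => hDt _⟩, hDt⟩
  intro a x
  change t ((show Plus A from x) * inPlus A a) = (bM R 1).ract a (t x)
  rw [ht', ht']
  have h1 : (WithLp.ofLp ((show Plus A from x) * inPlus A a)).fst = 0 := by
    change (WithLp.ofLp (show Plus A from x)).fst * 0 = 0
    rw [mul_zero]
  have h2 : (WithLp.ofLp ((show Plus A from x) * inPlus A a)).snd =
      (WithLp.ofLp (show Plus A from x)).fst • a + (WithLp.ofLp (show Plus A from x)).snd * a := by
    change (WithLp.ofLp (show Plus A from x)).fst • a +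
      (0 : ℂ) • (WithLp.ofLp (show Plus A from x)).snd +
      (WithLp.ofLp (show Plus A from x)).snd * a = _
    rw [zero_smul, add_zero]
  rw [h1, h2, zero_smul, zero_add, map_add, map_smul, _root_.add_apply, _root_.smul_apply,
    (bM R 1).ract_mul, map_add, map_smul]

theorem good_step (k : ℕ) (t : bM R k →L[ℂ] bM R (k + 1)) (ht : Good R k t) :
    ∃ t' : bM R (k + 1) →L[ℂ] bM R (k + 2), Good R (k + 1) t' ∧
      ∀ v, t ((bD R k).map v) + (bD R (k + 1)).map (t' v) = v := by
  set g : bM R (k + 1) →L[ℂ] bM R (k + 1) :=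
    ContinuousLinearMap.id ℂ _ - t.comp (bD R k).map with hg
  have hg' : ∀ v, g v = v - t ((bD R k).map v) := fun v => rfl
  have hgR : IsR g := by
    intro a v
    rw [hg', hg', (bD R k).map_ract, ht.1, map_sub]
  have hDg : ∀ v, (bD R k).map (g v) = 0 := by
    intro v
    rw [hg', map_sub, ht.2, sub_self]
  obtain ⟨t', h1, h2⟩ := lift_right (bP R k) (bD R (k + 1)).map (isR_mor _) g hgR
    ((bS R (k + 1)).comp g) (by
      intro p
      have := bSD R k (g p)
      rw [hDg, map_zero, zero_add] at this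
      exact this)
  refine ⟨t', ⟨h1, ?_⟩, ?_⟩
  · intro v
    rw [h2, hg', bDD, map_zero, sub_zero]
  · intro v
    rw [h2, hg']; abel

/-- the right-linear contraction -/
def tt : ∀ k, {t : bM R k →L[ℂ] bM R (k + 1) // Good R k t}
  | 0 => ⟨Classical.choose (good_zero R), (Classical.choose_spec (good_zero R)).1⟩
  | (k + 1) => ⟨Classical.choose (good_step R k (tt k).1 (tt k).2),
      (Classical.choose_spec (good_step R k (tt k).1 (tt k).2)).1⟩

theorem tt_zero (v : bM R 0) : (bD R 0).map ((tt R 0).1 v) = v :=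
  (Classical.choose_spec (good_zero R)).2 v

theorem tt_succ (k : ℕ) (v : bM R (k + 1)) :
    (tt R k).1 ((bD R k).map v) + (bD R (k + 1)).map ((tt R (k + 1)).1 v) = v :=
  (Classical.choose_spec (good_step R k (tt R k).1 (tt R k).2)).2 v

end contraction

/-! ### The functor `X ↦ X ⊗ ℂ_χ` -/

section quotient

variable (χ : A →L[ℂ] ℂ)

/-- closure of the span of `x · a - χ(a) x` -/
def srel (X : BMod A) : Submodule ℂ X :=
  (Submodule.span ℂ {v | ∃ a x, v = X.ract a x - χ a • x}).topologicalClosure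

instance (X : BMod A) : IsClosed (srel χ X : Set X) := Submodule.isClosed_topologicalClosure _

theorem srel_mem (X : BMod A) (a : A) (x : X) : X.ract a x - χ a • x ∈ srel χ X :=
  Submodule.le_topologicalClosure _ (Submodule.subset_span ⟨a, x, rfl⟩)

/-- a bounded linear map killing the generators kills `srel` -/
theorem srel_le_ker {X : BMod A} {E : Type*} [NormedAddCommGroup E] [NormedSpace ℂ E]
    (f : X →L[ℂ] E) (h : ∀ a x, f (X.ract a x) = χ a • f x) :
    srel χ X ≤ LinearMap.ker f.toLinearMap := by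
  apply Submodule.topologicalClosure_minimal
  · rw [Submodule.span_le]
    rintro _ ⟨a, x, rfl⟩
    change f (X.ract a x - χ a • x) = 0
    rw [map_sub, map_smul, h, sub_self]
  · exact ContinuousLinearMap.isClosed_ker f

theorem mk_srel {X : BMod A} (a : A) (x : X) :
    (srel χ X).mkQL (X.ract a x) = χ a • (srel χ X).mkQL x := by
  rw [← map_smul, ← sub_eq_zero, ← map_sub]
  exact (Submodule.Quotient.mk_eq_zero _).2 (srel_mem χ X a x)

theorem srel_map {X Y : BMod A} (f : X →L[ℂ] Y) (hf : IsR f) {x : X} (hx : x ∈ srel χ X) :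
    f x ∈ srel χ Y := by
  have h := srel_le_ker χ ((srel χ Y).mkQL.comp f) (fun a x => by
    change (srel χ Y).mkQL (f (X.ract a x)) = χ a • (srel χ Y).mkQL (f x)
    rw [hf, mk_srel]) hx
  exact (Submodule.Quotient.mk_eq_zero _).1 h

/-- the left module `X ⊗ ℂ_χ` -/
def quo (X : BMod A) : LMod A where
  carrier := X ⧸ srel χ X
  act := quoAct X.lact (srel χ X) (by
    intro a x hx
    exact (Submodule.Quotient.mk_eq_zero _).1 (srel_le_ker χ ((srel χ X).mkQL.comp (X.lact a))
      (fun b x => by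
        change (srel χ X).mkQL (X.lact a (X.ract b x)) = χ b • (srel χ X).mkQL (X.lact a x)
        rw [X.comm, mk_srel]) hx))
  act_mul := fun a b x => by
    obtain ⟨x, rfl⟩ := (srel χ X).mkQ_surjective x
    exact congrArg (srel χ X).mkQL (X.lact_mul a b x)

/-- the quotient map -/
def qm (X : BMod A) : X →L[ℂ] quo χ X := (srel χ X).mkQL

theorem qm_surj (X : BMod A) : Function.Surjective (qm χ X) := (srel χ X).mkQ_surjective

theorem qm_lact (X : BMod A) (a : A) (x : X) : qm χ X (X.lact a x) = (quo χ X).act a (qm χ X x) :=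
  rfl

theorem qm_ract (X : BMod A) (a : A) (x : X) : qm χ X (X.ract a x) = χ a • qm χ X x :=
  mk_srel χ a x

/-- descend a map -/
def desc {X : BMod A} {E : Type*} [NormedAddCommGroup E] [NormedSpace ℂ E]
    (f : X →L[ℂ] E) (h : ∀ a x, f (X.ract a x) = χ a • f x) : quo χ X →L[ℂ] E :=
  (srel χ X).liftQL f (srel_le_ker χ f h)

theorem desc_qm {X : BMod A} {E : Type*} [NormedAddCommGroup E] [NormedSpace ℂ E]
    (f : X →L[ℂ] E) (h : ∀ a x, f (X.ract a x) = χ a • f x) (x : X) :
    desc χ f h (qm χ X x) = f x := rfl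

/-- functoriality -/
def quoMap {X Y : BMod A} (f : X →L[ℂ] Y) (hf : IsR f) : quo χ X →L[ℂ] quo χ Y :=
  desc χ ((qm χ Y).comp f) (fun a x => by
    rw [ContinuousLinearMap.comp_apply, ContinuousLinearMap.comp_apply, hf, qm_ract])

theorem quoMap_qm {X Y : BMod A} (f : X →L[ℂ] Y) (hf : IsR f) (x : X) :
    quoMap χ f hf (qm χ X x) = qm χ Y (f x) := rfl

/-- functoriality for bimodule maps -/
def quoMor {X Y : BMod A} (f : BMor X Y) : Mor (quo χ X) (quo χ Y) where
  map := quoMap χ f.map f.map_ract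
  map_act := fun a x => by
    obtain ⟨x, rfl⟩ := qm_surj χ X x
    rw [← qm_lact, quoMap_qm, quoMap_qm, ← qm_lact, f.map_lact]

variable (hχ : ∀ a b, χ (a * b) = χ a * χ b)

/-- a left module as a bimodule with right action through `χ` -/
def triv (Y : LMod A) : BMod A where
  carrier := Y
  lact := Y.act
  ract := χ.smulRight (ContinuousLinearMap.id ℂ Y)
  lact_mul := Y.act_mul
  ract_mul := fun a b x => by
    change χ (a * b) • x = χ b • χ a • x
    rw [hχ, mul_smul, smul_comm]
  comm := fun a b x => by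
    change Y.act a (χ b • x) = χ b • Y.act a x
    rw [map_smul]

include hχ in
theorem quo_projective {P : BMod A} (hP : BProjective P) : Projective (quo χ P) := by
  rintro Y f ⟨s, hs⟩
  set f' : BMor (triv χ hχ Y) (triv χ hχ (quo χ P)) :=
    { map := f.map
      map_lact := f.map_act
      map_ract := fun a x => map_smul f.map (χ a) x } with hf'
  set g : BMor P (triv χ hχ (quo χ P)) :=
    { map := qm χ P
      map_lact := fun a x => qm_lact χ P a x
      map_ract := fun a x => qm_ract χ P a x } with hg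
  obtain ⟨k, hk⟩ := lift_bimod f' g hP (s.comp (qm χ P)) (fun p => hs _)
  refine ⟨⟨desc χ k.map (fun a x => k.map_ract a x), ?_⟩, ?_⟩
  · intro a x
    obtain ⟨x, rfl⟩ := qm_surj χ P x
    rw [← qm_lact]
    exact k.map_lact a x
  · intro p
    obtain ⟨x, rfl⟩ := qm_surj χ P p
    exact hk x

end quotient

/-! ### the resolution of `ℂ_χ` -/

section final

variable [CompleteSpace A] [IsScalarTower ℂ A A] [SMulCommClass ℂ A A]
variable (χ : A →L[ℂ] ℂ) (hχ : ∀ a b, χ (a * b) = χ a * χ b)

/-- extension of `χ` to `A₊`, with values in the module -/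
def chiPlus : Plus A →L[ℂ] ULift.{u} ℂ :=
  LinearMap.mkContinuous
    { toFun := fun x => ULift.up ((WithLp.ofLp x).fst + χ (WithLp.ofLp x).snd)
      map_add' := fun x y => by
        apply ULift.down_injective
        change (WithLp.ofLp x).fst + (WithLp.ofLp y).fst +
          χ ((WithLp.ofLp x).snd + (WithLp.ofLp y).snd) =
          ((WithLp.ofLp x).fst + χ (WithLp.ofLp x).snd) +
          ((WithLp.ofLp y).fst + χ (WithLp.ofLp y).snd)
        rw [map_add]; ring
      map_smul' := fun c x => by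
        apply ULift.down_injective
        change c • (WithLp.ofLp x).fst + χ (c • (WithLp.ofLp x).snd) =
          c • ((WithLp.ofLp x).fst + χ (WithLp.ofLp x).snd)
        rw [map_smul, smul_add] }
    (1 + ‖χ‖) (fun x => by
      change ‖(WithLp.ofLp x).fst + χ (WithLp.ofLp x).snd‖ ≤ _
      have hb := WithLp.unitization_norm_def x
      have h1 : ‖(WithLp.ofLp x).fst‖ ≤ ‖x‖ := by
        rw [hb]; linarith [norm_nonneg (WithLp.ofLp x).snd]
      have h2 : ‖(WithLp.ofLp x).snd‖ ≤ ‖x‖ := by
        rw [hb]; linarith [norm_nonneg (WithLp.ofLp x).fst]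
      calc ‖(WithLp.ofLp x).fst + χ (WithLp.ofLp x).snd‖
          ≤ ‖(WithLp.ofLp x).fst‖ + ‖χ (WithLp.ofLp x).snd‖ := norm_add_le _ _
        _ ≤ ‖x‖ + ‖χ‖ * ‖x‖ := add_le_add h1 ((χ.le_opNorm _).trans
            (mul_le_mul_of_nonneg_left h2 (norm_nonneg _)))
        _ = (1 + ‖χ‖) * ‖x‖ := by ring)

theorem chiPlus_apply (x : Plus A) :
    chiPlus χ x = ULift.up ((WithLp.ofLp x).fst + χ (WithLp.ofLp x).snd) := rfl

include hχ in
theorem chiPlus_ract (a : A) (x : Plus A) :
    chiPlus χ (x * inPlus A a) = χ a • chiPlus χ x := by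
  apply ULift.down_injective
  change (WithLp.ofLp x).fst * 0 + χ ((WithLp.ofLp x).fst • a +
    (0 : ℂ) • (WithLp.ofLp x).snd + (WithLp.ofLp x).snd * a) =
    χ a • ((WithLp.ofLp x).fst + χ (WithLp.ofLp x).snd)
  rw [zero_smul, add_zero, mul_zero, zero_add, map_add, map_smul, hχ, smul_eq_mul, smul_eq_mul]
  ring

include hχ in
theorem chiPlus_lact (a : A) (x : Plus A) :
    chiPlus χ (inPlus A a * x) = χ a • chiPlus χ x := by
  apply ULift.down_injective
  change (0 : ℂ) * (WithLp.ofLp x).fst + χ ((0 : ℂ) • (WithLp.ofLp x).snd +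
    (WithLp.ofLp x).fst • a + a * (WithLp.ofLp x).snd) =
    χ a • ((WithLp.ofLp x).fst + χ (WithLp.ofLp x).snd)
  rw [zero_smul, zero_add, zero_mul, zero_add, map_add, map_smul, hχ, smul_eq_mul, smul_eq_mul]
  ring

/-- the augmentation of the quotient of `A₊` -/
def augQ : Mor (quo χ (plusMod A)) (charMod χ hχ) where
  map := desc χ (X := plusMod A) (chiPlus χ) (chiPlus_ract χ hχ)
  map_act := fun a x => by
    obtain ⟨x, rfl⟩ := qm_surj χ (plusMod A) x
    exact chiPlus_lact χ hχ a x

/-- the section of the augmentation -/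
def secQ : ULift.{u} ℂ →L[ℂ] quo χ (plusMod A) :=
  ((ContinuousLinearMap.toSpanSingleton ℂ (qm χ (plusMod A) (show Plus A from 1)))).comp
    ({ toFun := ULift.down, map_add' := fun _ _ => rfl, map_smul' := fun _ _ => rfl,
       cont := continuous_uliftDown } : ULift.{u} ℂ →L[ℂ] ℂ)

theorem secQ_apply (z : ULift.{u} ℂ) :
    secQ χ z = z.down • qm χ (plusMod A) (show Plus A from 1) := rfl

theorem augQ_secQ (z : ULift.{u} ℂ) : (augQ χ hχ).map (secQ χ z) = z := by
  rw [secQ_apply, map_smul]
  apply ULift.down_injective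
  change z.down * (1 + χ 0) = z.down
  rw [map_zero, add_zero, mul_one]

theorem secQ_augQ (v : quo χ (plusMod A)) : secQ χ ((augQ χ hχ).map v) = v := by
  obtain ⟨x, rfl⟩ := qm_surj χ (plusMod A) v
  have h1 : (augQ χ hχ).map (qm χ (plusMod A) x) =
      ULift.up ((WithLp.ofLp (show Plus A from x)).fst +
        χ (WithLp.ofLp (show Plus A from x)).snd) := rfl
  rw [h1, secQ_apply, add_smul, ← qm_ract, ← map_smul, ← map_add]
  congr 1
  change (WithLp.ofLp (show Plus A from x)).fst • (1 : Plus A) +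
    (1 : Plus A) * inPlus A (WithLp.ofLp (show Plus A from x)).snd = _
  rw [one_mul]
  apply (WithLp.linearEquiv 1 ℂ (Unitization ℂ A)).injective
  change (WithLp.ofLp (show Plus A from x)).fst • (1 : Unitization ℂ A) +
    ((WithLp.ofLp (show Plus A from x)).snd : Unitization ℂ A) = WithLp.ofLp (show Plus A from x)
  ext
  · simp
  · simp

/-- descended contraction in degree `-1` -/
def tQ0 (R : BResolution (plusMod A)) : quo χ (plusMod A) →L[ℂ] quo χ (R.P 0) :=
  quoMap χ (X := plusMod A) (Y := R.P 0) (tt R 0).1 (tt R 0).2.1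

/-- descended contraction in degree `k` -/
def tQ (R : BResolution (plusMod A)) (k : ℕ) : quo χ (R.P k) →L[ℂ] quo χ (R.P (k + 1)) :=
  quoMap χ (X := R.P k) (Y := R.P (k + 1)) (tt R (k + 1)).1 (tt R (k + 1)).2.1

theorem tQ0_spec (R : BResolution (plusMod A)) (v : quo χ (plusMod A)) :
    (quoMor χ R.ε).map (tQ0 χ R v) = v := by
  obtain ⟨x, rfl⟩ := qm_surj χ (plusMod A) v
  exact congrArg (qm χ (plusMod A)) (tt_zero R x)

theorem tQ_spec0 (R : BResolution (plusMod A)) (v : quo χ (R.P 0)) :
    tQ0 χ R ((quoMor χ R.ε).map v) + (quoMor χ (R.d 0)).map (tQ χ R 0 v) = v := by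
  obtain ⟨x, rfl⟩ := qm_surj χ (R.P 0) v
  exact (map_add (qm χ (R.P 0)) _ _).symm.trans (congrArg (qm χ (R.P 0)) (tt_succ R 0 x))

theorem tQ_spec (R : BResolution (plusMod A)) (k : ℕ) (v : quo χ (R.P (k + 1))) :
    tQ χ R k ((quoMor χ (R.d k)).map v) + (quoMor χ (R.d (k + 1))).map (tQ χ R (k + 1) v) = v := by
  obtain ⟨x, rfl⟩ := qm_surj χ (R.P (k + 1)) v
  exact (map_add (qm χ (R.P (k + 1))) _ _).symm.trans
    (congrArg (qm χ (R.P (k + 1))) (tt_succ R (k + 1) x))

/-- The projective resolution of `ℂ_χ` obtained from a projective bimodule resolution of `A₊`. -/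
def resOf (R : BResolution (plusMod A)) : Resolution (charMod χ hχ) where
  P := fun k => quo χ (R.P k)
  ε :=
    { map := (augQ χ hχ).map.comp (quoMor χ R.ε).map
      map_act := fun a x => by
        rw [ContinuousLinearMap.comp_apply, (quoMor χ R.ε).map_act, (augQ χ hχ).map_act]; rfl }
  d := fun k => quoMor χ (R.d k)
  projective := fun k => quo_projective χ hχ (R.projective k)
  ε_d := fun p => by
    obtain ⟨x, rfl⟩ := qm_surj χ _ p
    change (augQ χ hχ).map (qm χ _ (R.ε.map ((R.d 0).map x))) = 0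
    rw [R.ε_d, map_zero, map_zero]
  d_d := fun k p => by
    obtain ⟨x, rfl⟩ := qm_surj χ _ p
    change qm χ _ ((R.d k).map ((R.d (k + 1)).map x)) = 0
    rw [R.d_d, map_zero]
  s₀ := (tQ0 χ R).comp (secQ χ)
  s := fun k => tQ χ R k
  ε_s₀ := fun z => by
    change (augQ χ hχ).map ((quoMor χ R.ε).map (tQ0 χ R (secQ χ z))) = z
    rw [tQ0_spec, augQ_secQ]
  split₀ := fun p => by
    change tQ0 χ R (secQ χ ((augQ χ hχ).map ((quoMor χ R.ε).map p))) +
      (quoMor χ (R.d 0)).map (tQ χ R 0 p) = p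
    rw [secQ_augQ, tQ_spec0]
  split := fun k p => tQ_spec χ R k p

/-- **`dh_A ℂ_χ ≤ db A`.** -/
theorem dh_le_db : dh (charMod χ hχ) ≤ db A := by
  rw [db, dhB]
  refine le_iInf₂ (fun n hn => ?_)
  obtain ⟨R, hR⟩ := hn
  rw [dh]
  refine iInf₂_le n ⟨resOf χ hχ R, fun k hk => ?_⟩
  have := hR k hk
  change Subsingleton (quo χ (R.P k))
  refine ⟨fun a b => ?_⟩
  obtain ⟨a, rfl⟩ := qm_surj χ _ a
  obtain ⟨b, rfl⟩ := qm_surj χ _ b
  rw [Subsingleton.elim a b]

end final

end

end Pool.Agent.H83.Dim
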