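import Pool.Agent.H83.Dim.Ess

/-! # Projective resolutions of the augmentation module are infinite (helper83, MP_df984a_an) -/

namespace Pool.Agent.H83.Dim

open Filter Topology Set MeasureTheory
open scoped ENNReal

noncomputable section

set_option linter.unusedSectionVars false

universe u

variable {G : Type u} [Group G] [TopologicalSpace G] [IsTopologicalGroup G]
  [LocallyCompactSpace G] [MeasurableSpace G] [BorelSpace G]
  {μ : Measure G} [μ.IsHaarMeasure] [μ.Regular]

/-! ### the free module on `X` -/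

/-- the action on `X × L¹(G; X)` -/
def freeAct (X : LMod (L1Alg μ)) :
    Lp ℂ 1 μ →L[ℂ] (X × Lp X 1 μ) →L[ℂ] (X × Lp X 1 μ) :=
  LinearMap.mkContinuous₂
    (LinearMap.mk₂ ℂ (fun (a : Lp ℂ 1 μ) (p : X × Lp X 1 μ) =>
        ((0 : X), tens μ a p.1 + (trRep μ X).int μ a p.2))
      (by
        intro a b p
        simp only [← tensL_apply, map_add, _root_.add_apply, Prod.mk_add_mk, add_zero]
        congr 1
        abel)
      (by
        intro c a p
        simp only [← tensL_apply, map_smul, _root_.smul_apply, Prod.smul_mk, smul_zero, smul_add])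
      (by
        intro a p q
        simp only [← tensL_apply, Prod.fst_add, Prod.snd_add, map_add, Prod.mk_add_mk, add_zero]
        congr 1
        abel)
      (by
        intro c a p
        simp only [← tensL_apply, Prod.smul_fst, Prod.smul_snd, map_smul, Prod.smul_mk, smul_zero,
          smul_add]))
    2
    (by
      intro a p
      rw [LinearMap.mk₂_apply, Prod.norm_mk, norm_zero, max_eq_right (norm_nonneg _)]
      refine (norm_add_le _ _).trans ?_
      have h1 : ‖tens μ a p.1‖ ≤ ‖a‖ * ‖p‖ :=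
        (norm_tens_le μ a p.1).trans (mul_le_mul_of_nonneg_left (norm_fst_le p) (norm_nonneg _))
      have h2 : ‖(trRep μ X).int μ a p.2‖ ≤ ‖a‖ * ‖p‖ := by
        refine ((trRep μ X).norm_int_le μ a p.2).trans ?_
        change 1 * ‖a‖ * ‖p.2‖ ≤ _
        rw [one_mul]
        exact mul_le_mul_of_nonneg_left (norm_snd_le p) (norm_nonneg _)
      linarith)

theorem freeAct_apply (X : LMod (L1Alg μ)) (a : Lp ℂ 1 μ) (p : X × Lp X 1 μ) :
    freeAct X a p = (0, tens μ a p.1 + (trRep μ X).int μ a p.2) := rfl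

theorem freeAct_conv (X : LMod (L1Alg μ)) (a b : Lp ℂ 1 μ) (p : X × Lp X 1 μ) :
    freeAct X (conv μ a b) p = freeAct X a (freeAct X b p) := by
  simp only [freeAct_apply]
  rw [int_conv, map_add, int_tens, ← tensL_apply μ a (0 : X), map_zero, zero_add]

/-- the free module `A₊ ⊗ X` -/
def freeMod (X : LMod (L1Alg μ)) : LMod (L1Alg μ) where
  carrier := X × Lp X 1 μ
  act := freeAct X
  act_mul := freeAct_conv X

/-- the multiplication morphism `A₊ ⊗ X → X` -/
def freeMor (X : LMod (L1Alg μ)) : Mor (freeMod X) X where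
  map := ContinuousLinearMap.fst ℂ X (Lp X 1 μ) +
    (mu' X).comp (ContinuousLinearMap.snd ℂ X (Lp X 1 μ))
  map_act := by
    intro a p
    change (0 : X) + mu' X (tens μ a p.1 + (trRep μ X).int μ a p.2) =
      al X a (p.1 + mu' X p.2)
    rw [zero_add, map_add, mu'_tens, mu'_int, map_add]

theorem exists_kap (X : LMod (L1Alg μ)) (hX : Projective X) :
    ∃ kap : Ess X →L[ℂ] Lp X 1 μ, (∀ v, multN X (kap v) = v) ∧
      ∀ g v, kap (rho X g v) = tr μ g (kap v) := by
  obtain ⟨s, hs⟩ := hX (freeMod X) (freeMor X) ⟨ContinuousLinearMap.inl ℂ X (Lp X 1 μ), by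
    intro p
    change p + mu' X 0 = p
    rw [map_zero, add_zero]⟩
  set k1 : X →L[ℂ] X := (ContinuousLinearMap.fst ℂ X (Lp X 1 μ)).comp s.map with hk1
  set k2 : X →L[ℂ] Lp X 1 μ := (ContinuousLinearMap.snd ℂ X (Lp X 1 μ)).comp s.map with hk2
  have hsum : ∀ q, k1 q + mu' X (k2 q) = q := hs
  have hact : ∀ a q, s.map (al X a q) = freeAct X a (s.map q) := fun a q => s.map_act a q
  have h1 : ∀ a q, k1 (al X a q) = 0 := by
    intro a q
    change (s.map (al X a q)).1 = 0
    rw [hact]; rfl
  have h2 : ∀ a q, k2 (al X a q) = tens μ a (k1 q) + (trRep μ X).int μ a (k2 q) := by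
    intro a q
    change (s.map (al X a q)).2 = _
    rw [hact]; rfl
  have h3 : ∀ F, k1 (mu' X F) = 0 := by
    intro F
    have : k1.comp (mu' X) = 0 := by
      apply tens_ext
      intro a q
      rw [ContinuousLinearMap.comp_apply, mu'_tens, h1]; rfl
    exact congrArg (fun T => T F) this
  have h4 : ∀ g F, k2 (mu' X (tr μ g F)) = tr μ g (k2 (mu' X F)) := by
    intro g F
    have : (k2.comp (mu' X)).comp (tr μ g) = (tr μ g).comp (k2.comp (mu' X)) := by
      apply tens_ext
      intro a q
      simp only [ContinuousLinearMap.comp_apply]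
      rw [tr_tens, mu'_tens, mu'_tens, h2, h2, map_add, tr_tens]
      congr 1
      exact (trRep μ X).int_tr μ g a (k2 q)
    exact congrArg (fun T => T F) this
  refine ⟨k2.comp (Ess X).subtypeL, ?_, ?_⟩
  · intro v
    refine multN_ext (S := (multN X).comp (k2.comp (Ess X).subtypeL))
      (T := ContinuousLinearMap.id ℂ _) (fun F => ?_) v
    apply Subtype.ext
    change mu' X (k2 (mu' X F)) = mu' X F
    have := hsum (mu' X F)
    rwa [h3, zero_add] at this
  · intro g v
    refine multN_ext (S := (k2.comp (Ess X).subtypeL).comp (rho X g))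
      (T := (tr μ g).comp (k2.comp (Ess X).subtypeL)) (fun F => ?_) v
    rw [ContinuousLinearMap.comp_apply, rho_multN]
    exact h4 g F

/-! ### the partition operators -/

section mapEll

variable {E F : Type*} [NormedAddCommGroup E] [NormedSpace ℂ E]
  [NormedAddCommGroup F] [NormedSpace ℂ F] [CompleteSpace F]

/-- apply an operator coordinatewise -/
def mapEll (L : E →L[ℂ] F) : Ell ℕ E →L[ℂ] Ell ℕ F := liftL (fun j => (sgl j).comp L)

theorem mapEll_apply (L : E →L[ℂ] F) (w : Ell ℕ E) (l : ℕ) : mapEll L w l = L (w l) := by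
  have hb : Bdd (fun j => ((sgl j).comp L : E →L[ℂ] Ell ℕ F)) := by
    refine ⟨‖L‖, fun j => ?_⟩
    refine (ContinuousLinearMap.opNorm_comp_le _ _).trans ?_
    exact mul_le_of_le_one_left (norm_nonneg _) (norm_sgl_le _)
  have h1 := (hasSum_liftL hb w).mapL (lp.evalCLM ℂ (fun _ : ℕ => F) 1 l)
  have h3 : ∀ j, (lp.evalCLM ℂ (fun _ : ℕ => F) 1 l) (((sgl j).comp L) (w j)) =
      if j = l then L (w l) else 0 := by
    intro j
    change sgl j (L (w j)) l = _
    rw [sgl_apply]
    by_cases h : j = l
    · rw [if_pos h.symm, if_pos h, h]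
    · rw [if_neg (fun h' => h h'.symm), if_neg h]
  simp only [h3] at h1
  exact h1.unique (hasSum_ite_eq _ _)

end mapEll

theorem FR_split {r : ℕ → G} {rank : G → ℕ} (hm : Measurable rank)
    (hrank : ∀ n x i j, rank ((aa r i)⁻¹ * x) ≤ n → rank ((aa r j)⁻¹ * x) ≤ n → i ^^^ j < 2 ^ n)
    {Q : Type*} [NormedAddCommGroup Q] [NormedSpace ℂ Q] [CompleteSpace Q] (F : Lp Q 1 μ) :
    FR (fun i => split μ (fun x => i ^^^ psi r rank (aa r i * x)) F) := by
  have hψ : ∀ i, Measurable (fun x => i ^^^ psi r rank (aa r i * x)) := by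
    intro i
    have h1 : Measurable (fun x => psi r rank (aa r i * x)) :=
      (psi_measurable r hm).comp (measurable_const_mul _)
    exact (measurable_of_countable (fun n : ℕ => i ^^^ n)).comp h1
  have hrm : ∀ n, MeasurableSet (rank ⁻¹' {n}) := fun n => hm (measurableSet_singleton n)
  apply FR.of_approx
  intro ε hε
  have h1 := hasSum_cut μ hm F
  rw [HasSum, Metric.tendsto_nhds] at h1
  obtain ⟨s, hs⟩ := (h1 ε hε).exists
  refine ⟨fun i => ∑ n ∈ s, split μ (fun x => i ^^^ psi r rank (aa r i * x))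
    (cut μ (rank ⁻¹' {n}) F), FR.sum s (fun n _ => ?_), fun i => ?_⟩
  · -- finite range
    apply FR.of_finite
    set g : ℕ → Ell ℕ (Lp Q 1 μ) := fun i =>
      split μ (fun x => i ^^^ psi r rank (aa r i * x)) (cut μ (rank ⁻¹' {n}) F) with hg
    have h2 : ∀ i, g i = g (i % 2 ^ n) := by
      intro i
      apply Ell.ext
      intro l
      rw [hg]
      simp only
      rw [split_apply μ (hψ i), split_apply μ (hψ (i % 2 ^ n)),
        cut_cut μ ((hψ i) (measurableSet_singleton l)) (hrm n),
        cut_cut μ ((hψ (i % 2 ^ n)) (measurableSet_singleton l)) (hrm n)]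
      congr 2
      ext x
      simp only [mem_inter_iff, mem_preimage, mem_singleton_iff]
      constructor
      · rintro ⟨h3, h4⟩
        refine ⟨?_, h4⟩
        rw [← h3]
        exact psi_key r hrank h4.le (Nat.mod_mod _ _)
      · rintro ⟨h3, h4⟩
        refine ⟨?_, h4⟩
        rw [← h3]
        exact psi_key r hrank h4.le (Nat.mod_mod _ _).symm
    refine ((Finset.range (2 ^ n)).finite_toSet.image g).subset ?_
    rintro _ ⟨i, rfl⟩
    refine ⟨i % 2 ^ n, ?_, (h2 i).symm⟩
    simp only [Finset.coe_range, mem_Iio]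
    exact Nat.mod_lt _ (by positivity)
  · simp only [← splitL_apply μ (hψ i)]
    rw [← map_sum, ← map_sub, splitL_apply, norm_split μ (hψ i)]
    rw [dist_comm, dist_eq_norm] at hs
    exact hs.le

/-- the operators `P` for the essential part of a projective module -/
theorem exists_P (X : LMod (L1Alg μ)) (hX : Projective X) {r : ℕ → G} {rank : G → ℕ}
    (hm : Measurable rank)
    (hrank : ∀ n x i j, rank ((aa r i)⁻¹ * x) ≤ n → rank ((aa r j)⁻¹ * x) ≤ n →
      i ^^^ j < 2 ^ n) :
    ∃ P : Ess X →L[ℂ] Ell ℕ (Ess X), (∀ q, HasSum (fun j => P q j) q) ∧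
      ∀ q, FR (fun i => shm i (rho X (aa r i)⁻¹) (P (rho X (aa r i) q))) := by
  obtain ⟨kap, h1, h2⟩ := exists_kap X hX
  have hψ := psi_measurable r hm
  refine ⟨(mapEll (multN X)).comp ((splitL μ hψ).comp kap), ?_, ?_⟩
  · intro q
    have h3 := (hasSum_cut μ hψ (kap q)).mapL (multN X)
    rw [h1] at h3
    have h4 : ∀ j, ((mapEll (multN X)).comp ((splitL μ hψ).comp kap)) q j =
        multN X (cut μ (psi r rank ⁻¹' {j}) (kap q)) := by
      intro j
      rw [ContinuousLinearMap.comp_apply, mapEll_apply, ContinuousLinearMap.comp_apply,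
        splitL_apply, split_apply μ hψ]
    simp only [h4]
    exact h3
  · intro q
    have h5 : ∀ i, shm i (rho X (aa r i)⁻¹)
        (((mapEll (multN X)).comp ((splitL μ hψ).comp kap)) (rho X (aa r i) q)) =
        mapEll (multN X) (split μ (fun x => i ^^^ psi r rank (aa r i * x)) (kap q)) := by
      intro i
      apply Ell.ext
      intro l
      have hψi : Measurable (fun x => i ^^^ psi r rank (aa r i * x)) :=
        (measurable_of_countable (fun n : ℕ => i ^^^ n)).comp
          (hψ.comp (measurable_const_mul _))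
      rw [shm_apply, mapEll_apply, split_apply μ hψi, ContinuousLinearMap.comp_apply, mapEll_apply,
        ContinuousLinearMap.comp_apply, splitL_apply, split_apply μ hψ, rho_multN, h2,
        tr_cut_tr μ (hψ (measurableSet_singleton _))]
      congr 3
      ext x
      simp only [mem_preimage, mem_singleton_iff]
      constructor
      · intro h; rw [h, ← Nat.xor_assoc, Nat.xor_self, Nat.zero_xor]
      · intro h; rw [← h, ← Nat.xor_assoc, Nat.xor_self, Nat.zero_xor]
    simp only [h5]
    exact (FR_split hm hrank (kap q)).clm (mapEll (multN X))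

/-! ### resolutions as sequences -/

section seq

variable {X : LMod (L1Alg μ)} (R : Resolution X)

/-- the modules `X, P₀, P₁, …` -/
def sM : ℕ → LMod (L1Alg μ)
  | 0 => X
  | (k + 1) => R.P k

/-- the maps `ε, d₀, d₁, …` -/
def sD : ∀ k, Mor (sM R (k + 1)) (sM R k)
  | 0 => R.ε
  | (k + 1) => R.d k

/-- the homotopy -/
def sS : ∀ k, sM R k →L[ℂ] sM R (k + 1)
  | 0 => R.s₀
  | (k + 1) => R.s k

theorem sDD (k : ℕ) (v : sM R (k + 2)) : (sD R k).map ((sD R (k + 1)).map v) = 0 := by
  cases k with
  | zero => exact R.ε_d v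
  | succ k => exact R.d_d k v

theorem sDS0 (v : sM R 0) : (sD R 0).map (sS R 0 v) = v := R.ε_s₀ v

theorem sDS (k : ℕ) (v : sM R (k + 1)) (h : (sD R k).map v = 0) :
    (sD R (k + 1)).map (sS R (k + 1) v) = v := by
  cases k with
  | zero =>
      have := R.split₀ v
      rwa [show R.ε.map v = 0 from h, map_zero, zero_add] at this
  | succ k =>
      have := R.split k v
      rwa [show (R.d k).map v = 0 from h, map_zero, zero_add] at this

theorem sP (k : ℕ) : Projective (sM R (k + 1)) := R.projective k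

end seq

/-- exactness with bounds for essential parts -/
theorem ess_lift {X Y : LMod (L1Alg μ)} (D : Mor Y X) (s : X →L[ℂ] Y) (Z : Submodule ℂ (Ess X))
    (hD : ∀ x, mapN D x ∈ Z) (hs : ∀ v ∈ Z, D.map (s (v : X)) = v) :
    ∃ C, ∀ v ∈ Z, ∃ w, mapN D w = v ∧ ‖w‖ ≤ C * ‖v‖ := by
  refine ⟨2 * (‖al Y‖ * ‖s‖), exact_lift (mapN D) Z hD
    (mul_nonneg (ContinuousLinearMap.opNorm_nonneg _) (norm_nonneg _)) ?_⟩
  intro v hv
  by_cases h0 : v = 0
  · refine ⟨0, ?_, ?_⟩
    · rw [norm_zero, h0, norm_zero, mul_zero]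
    · rw [h0, map_zero, sub_zero, norm_zero, mul_zero]
  · obtain ⟨e, he, hev⟩ := exists_approx_Ess X v (ε := 1 / 2 * ‖v‖)
      (mul_pos (by norm_num) (norm_pos_iff.2 h0))
    refine ⟨⟨al Y e (s v), al_mem_Ess Y e (s v)⟩, ?_, ?_⟩
    · change ‖al Y e (s v)‖ ≤ _
      refine ((al Y).le_opNorm₂ _ _).trans ?_
      calc ‖al Y‖ * ‖e‖ * ‖s v‖ ≤ ‖al Y‖ * 1 * (‖s‖ * ‖v‖) := by
            refine mul_le_mul (mul_le_mul_of_nonneg_left he (ContinuousLinearMap.opNorm_nonneg _))
              (s.le_opNorm _) (norm_nonneg _)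
              (mul_nonneg (ContinuousLinearMap.opNorm_nonneg _) zero_le_one)
        _ = ‖al Y‖ * ‖s‖ * ‖v‖ := by ring
    · change ‖(v : X) - D.map (al Y e (s v))‖ ≤ _
      rw [D.map_al, hs v hv, norm_sub_rev]
      exact hev

/-! ### the augmentation module -/

theorem al_aug (a : Lp ℂ 1 μ) (z : ULift.{u} ℂ) :
    al (augMod μ) a z = (∫ t, a t ∂μ) • z := rfl

theorem mu'_aug_tr (g : G) (F : Lp (augMod μ) 1 μ) :
    mu' (augMod μ) (tr μ g F) = mu' (augMod μ) F := by
  have h : (mu' (augMod μ)).comp (tr μ g) = mu' (augMod μ) := by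
    apply tens_ext
    intro a q
    rw [ContinuousLinearMap.comp_apply, tr_tens, mu'_tens, mu'_tens]
    have h := trivRep.int_tr μ g a q
    rw [trivRep_int] at h
    refine Eq.trans ?_ (h.trans ?_)
    · exact al_aug _ _
    · exact trivRep_int μ a q
  exact congrArg (fun T => T F) h

theorem rho_aug (g : G) (v : Ess (augMod μ)) : rho (augMod μ) g v = v := by
  refine multN_ext (T := ContinuousLinearMap.id ℂ _) (fun F => ?_) v
  rw [rho_multN]
  exact Subtype.ext (mu'_aug_tr g F)

theorem exists_one : ∃ v : Ess (augMod μ),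
    (Subtype.val v : (augMod μ).carrier) = (ULift.up (1 : ℂ) : ULift.{u} ℂ) := by
  obtain ⟨e, _, he, _⟩ := exists_approx μ (0 : Lp ℂ 1 μ) one_pos
  refine ⟨⟨al (augMod μ) e (⟨1⟩ : ULift.{u} ℂ), al_mem_Ess _ _ _⟩, ?_⟩
  change al (augMod μ) e (⟨1⟩ : ULift.{u} ℂ) = ⟨1⟩
  rw [al_aug, he, one_smul]

/-- the projection `ULift ℂ → ℂ` -/
def downL : ULift.{u} ℂ →L[ℂ] ℂ :=
  { toFun := ULift.down, map_add' := fun _ _ => rfl, map_smul' := fun _ _ => rfl,
    cont := continuous_uliftDown }

/-- **Main theorem.** If `G` is not compact then no projective resolution of the augmentation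
module has finite length. -/
theorem no_finite_resolution [T2Space G] [NoncompactSpace G] (R : Resolution (augMod μ)) (n : ℕ) :
    ¬ ∀ k, n < k → Subsingleton (R.P k) := by
  intro hn
  obtain ⟨r, rank, hm, hrank⟩ := exists_rank G
  choose P hP1 hP2 using fun k => exists_P (sM R (k + 1)) (sP R k) hm hrank
  obtain ⟨one, hone⟩ := exists_one (μ := μ)
  let d : Data (fun k => Ess (sM R k)) :=
    { D := fun k => mapN (sD R k)
      A := fun k i => rho (sM R k) (aa r i)
      B := fun k i => rho (sM R k) (aa r i)⁻¹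
      BA := fun k i v => by rw [rho_rho, inv_mul_cancel, rho_one]
      AB := fun k i v => by rw [rho_rho, mul_inv_cancel, rho_one]
      M := fun k => ‖al (sM R k)‖
      hA := fun k i => norm_rho_le _ _
      hB := fun k i => norm_rho_le _ _
      DA := fun k i v => mapN_rho _ _ _
      fin := by
        intro k l
        obtain ⟨m, hm⟩ : ∃ m, l < 2 ^ m := ⟨l, Nat.lt_two_pow_self⟩
        have h1 : ∀ i, (rho (sM R k) (aa r i)⁻¹).comp (rho (sM R k) (aa r (i ^^^ l))) =
            rho (sM R k) ((aa r i)⁻¹ * aa r (i ^^^ l)) := by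
          intro i
          ext1 v
          exact rho_rho _ _ _ _
        simp only [h1]
        refine ((Finset.range (2 ^ m)).finite_toSet.image
          (fun i => rho (sM R k) ((aa r i)⁻¹ * aa r (i ^^^ l)))).subset ?_
        rintro _ ⟨i, rfl⟩
        refine ⟨i % 2 ^ m, ?_, ?_⟩
        · simp only [Finset.coe_range, mem_Iio]
          exact Nat.mod_lt _ (by positivity)
        · simp only
          rw [F1 r hm (Nat.mod_mod i (2 ^ m))]
      DD := fun k v => Subtype.ext (sDD R k v)
      one := one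
      A_one := fun i => rho_aug _ _
      φ := downL.comp (Ess (augMod μ)).subtypeL
      φA := fun i v => by rw [show rho (sM R 0) (aa r i) v = v from rho_aug _ _]
      φ_one := by
        change downL (Subtype.val one : (augMod μ).carrier) = 1
        rw [hone]; rfl
      ex := by
        intro k
        cases k with
        | zero =>
            obtain ⟨C, hC⟩ := ess_lift (sD R 0) (sS R 0) ⊤ (fun _ => trivial)
              (fun v _ => sDS0 R v)
            exact ⟨C, fun v _ => hC v trivial⟩
        | succ k =>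
            obtain ⟨C, hC⟩ := ess_lift (sD R (k + 1)) (sS R (k + 1))
              (LinearMap.ker (mapN (sD R k)).toLinearMap)
              (fun x => Subtype.ext (sDD R k x))
              (fun v hv => sDS R k v (congrArg Subtype.val hv))
            exact ⟨C, fun v hv => hC v hv⟩
      P := P
      P_sum := hP1
      P_FR := hP2 }
  refine d.false_of_bounded (n + 2) (fun v => ?_)
  have : Subsingleton (R.P (n + 1)) := hn (n + 1) (Nat.lt_succ_self n)
  exact Subtype.ext (Subsingleton.elim (α := R.P (n + 1)) _ _)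

/-! ### conclusions -/

theorem aug_irreducible : Irreducible (augMod μ) := by
  constructor
  · obtain ⟨e, _, he, _⟩ := exists_approx μ (0 : Lp ℂ 1 μ) one_pos
    refine ⟨e, (ULift.up (1 : ℂ) : ULift.{u} ℂ), ?_⟩
    have h : (augMod μ).act e (ULift.up (1 : ℂ) : ULift.{u} ℂ) =
        (∫ t, e t ∂μ) • (ULift.up (1 : ℂ) : ULift.{u} ℂ) := rfl
    rw [h, he, one_smul]
    intro h0
    exact one_ne_zero (congrArg (fun z : ULift.{u} ℂ => z.down) h0)
  · intro S _
    by_cases hS : S = ⊥
    · exact Or.inl hS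
    · right
      obtain ⟨z, hz, hz0⟩ := Submodule.exists_mem_ne_zero_of_ne_bot hS
      rw [Submodule.eq_top_iff']
      intro w
      have hz1 : (show ULift.{u} ℂ from z).down ≠ 0 := by
        intro h
        exact hz0 (ULift.down_injective h)
      have h2 : w = ((show ULift.{u} ℂ from w).down / (show ULift.{u} ℂ from z).down) • z := by
        apply ULift.down_injective
        change (show ULift.{u} ℂ from w).down =
          ((show ULift.{u} ℂ from w).down / (show ULift.{u} ℂ from z).down) *
            (show ULift.{u} ℂ from z).down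
        rw [div_mul_cancel₀ _ hz1]
      rw [h2]
      exact S.smul_mem _ hz

theorem dh_aug [T2Space G] [NoncompactSpace G] : dh (augMod μ) = ⊤ :=
  dh_eq_top (fun n R => no_finite_resolution R n)

end

end Pool.Agent.H83.Dim
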