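import Pool.Agent.H83.Dim.Stmt
import Pool.Agent.H83.Dim.Final
import Pool.Agent.H83.Dim.Bidim

/-! # From the statement-level definitions to the working ones (helper83, MP_df984a_an) -/

namespace Pool.Agent.H83.HD

open MeasureTheory Pool.Agent.H83

noncomputable section

universe u

section general

variable {A : Type u} [NonUnitalNormedRing A] [NormedSpace ℂ A]

/-- conversion of left modules -/
def toD (X : LMod A) : Dim.LMod A where
  carrier := X.carrier
  act := X.bil.toContinuousLinearMap
  act_mul := X.act_mul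

/-- conversion of left modules -/
def ofD (X : Dim.LMod A) : LMod A where
  carrier := X.carrier
  act := fun a x => X.act a x
  bil := X.act.isBoundedBilinearMap
  act_mul := X.act_mul

theorem proj_toD {P : LMod A} (hP : Projective P) : Dim.Projective (toD P) := by
  rintro Y f ⟨s, hs⟩
  obtain ⟨s', hs'⟩ := hP (ofD Y) ⟨fun y => f.map y, f.map.isBoundedLinearMap, f.map_act⟩
    ⟨fun p => s p, s.isBoundedLinearMap, hs⟩
  exact ⟨⟨s'.bdd.toContinuousLinearMap, s'.map_act⟩, hs'⟩

/-- conversion of bimodules -/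
def toB (X : BMod A) : Dim.BMod A where
  carrier := X.carrier
  lact := X.lbil.toContinuousLinearMap
  ract := X.rbil.toContinuousLinearMap
  lact_mul := X.lact_mul
  ract_mul := X.ract_mul
  comm := X.comm

/-- conversion of bimodules -/
def ofB (X : Dim.BMod A) : BMod A where
  carrier := X.carrier
  lact := fun a x => X.lact a x
  ract := fun a x => X.ract a x
  lbil := X.lact.isBoundedBilinearMap
  rbil := X.ract.isBoundedBilinearMap
  lact_mul := X.lact_mul
  ract_mul := X.ract_mul
  comm := X.comm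

theorem proj_toB {P : BMod A} (hP : BProjective P) : Dim.BProjective (toB P) := by
  rintro Y f ⟨s, hs⟩
  obtain ⟨s', hs'⟩ := hP (ofB Y)
    ⟨fun y => f.map y, f.map.isBoundedLinearMap, f.map_lact, f.map_ract⟩
    ⟨fun p => s p, s.isBoundedLinearMap, hs⟩
  exact ⟨⟨s'.bdd.toContinuousLinearMap, s'.map_lact, s'.map_ract⟩, hs'⟩

/-- conversion of resolutions of `A₊` -/
def toBRes [IsScalarTower ℂ A A] [SMulCommClass ℂ A A] [CompleteSpace A]
    (R : BResolution (plusMod A)) : Dim.BResolution (Dim.plusMod A) where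
  P := fun k => toB (R.P k)
  ε := ⟨R.ε.bdd.toContinuousLinearMap, R.ε.map_lact, R.ε.map_ract⟩
  d := fun k => ⟨(R.d k).bdd.toContinuousLinearMap, (R.d k).map_lact, (R.d k).map_ract⟩
  projective := fun k => proj_toB (R.projective k)
  ε_d := R.ε_d
  d_d := R.d_d
  s₀ := R.s₀_bdd.toContinuousLinearMap
  s := fun k => (R.s_bdd k).toContinuousLinearMap
  ε_s₀ := R.ε_s₀
  split₀ := R.split₀
  split := R.split

end general

section group

variable {G : Type u} [Group G] [TopologicalSpace G] [IsTopologicalGroup G]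
  [LocallyCompactSpace G] [MeasurableSpace G] [BorelSpace G]
  (μ : Measure G) [μ.IsHaarMeasure] [μ.Regular]

/-- conversion of resolutions of the augmentation module -/
def toRes (R : Resolution (augMod μ)) : Dim.Resolution (Dim.augMod μ) where
  P := fun k => toD (R.P k)
  ε := ⟨R.ε.bdd.toContinuousLinearMap, R.ε.map_act⟩
  d := fun k => ⟨(R.d k).bdd.toContinuousLinearMap, (R.d k).map_act⟩
  projective := fun k => proj_toD (R.projective k)
  ε_d := R.ε_d
  d_d := R.d_d
  s₀ := R.s₀_bdd.toContinuousLinearMap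
  s := fun k => (R.s_bdd k).toContinuousLinearMap
  ε_s₀ := R.ε_s₀
  split₀ := R.split₀
  split := R.split

theorem irreducible_augMod : Irreducible (augMod μ) := Dim.aug_irreducible (μ := μ)

variable [T2Space G] [NoncompactSpace G]

theorem dh_augMod : dh (augMod μ) = ⊤ := by
  rw [dh]
  simp only [iInf_eq_top]
  rintro n ⟨R, hR⟩
  exact absurd hR (Dim.no_finite_resolution (toRes μ R) n)

theorem db_L1 : db (Dim.L1Alg μ) = ⊤ := by
  rw [db, dhB]
  simp only [iInf_eq_top]
  rintro n ⟨R, hR⟩
  refine absurd (fun k hk => ?_)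
    (Dim.no_finite_resolution (Dim.resOf (Dim.intL μ) (Dim.intL_conv μ) (toBRes R)) n)
  have h := hR k hk
  change Subsingleton (Dim.quo (Dim.intL μ) (toB (R.P k)))
  refine ⟨fun a b => ?_⟩
  obtain ⟨a, rfl⟩ := Dim.qm_surj (Dim.intL μ) (toB (R.P k)) a
  obtain ⟨b, rfl⟩ := Dim.qm_surj (Dim.intL μ) (toB (R.P k)) b
  exact congrArg _ (Subsingleton.elim (α := (R.P k).carrier) a b)

theorem dg_L1 : dg (Dim.L1Alg μ) = ⊤ :=
  top_le_iff.1 ((dh_augMod μ).ge.trans
    (le_iSup (fun X : LMod (Dim.L1Alg μ) => dh X) (augMod μ)))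

theorem ds_L1 : ds (Dim.L1Alg μ) = ⊤ :=
  top_le_iff.1 ((dh_augMod μ).ge.trans
    (le_iSup₂ (f := fun (X : LMod (Dim.L1Alg μ)) (_ : Irreducible X) => dh X) (augMod μ)
      (irreducible_augMod μ)))

end group

end

end Pool.Agent.H83.HD
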