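import Pool.Agent.H83.Dim.Mean

/-! # The `ℓ¹` bar complex of `(ℕ, xor)` (helper83, for MP_df984a_an) -/

namespace Pool.Agent.H83.Dim

open Filter Topology Set

noncomputable section

/-- chains -/
abbrev Ch (k : ℕ) := Ell (Fin k → ℕ) ℂ

/-- translation of tuples -/
def tup (g : ℕ) {k : ℕ} (γ : Fin k → ℕ) : Fin k → ℕ := fun t => g ^^^ γ t

theorem tup_tup (g h : ℕ) {k : ℕ} (γ : Fin k → ℕ) : tup g (tup h γ) = tup (g ^^^ h) γ := by
  funext t; simp [tup, Nat.xor_assoc]

@[simp] theorem tup_self (g : ℕ) {k : ℕ} (γ : Fin k → ℕ) : tup g (tup g γ) = γ := by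
  rw [tup_tup, Nat.xor_self]; funext t; simp [tup]

theorem tup_inj (g : ℕ) {k : ℕ} {γ δ : Fin k → ℕ} : tup g γ = δ ↔ γ = tup g δ := by
  constructor
  · rintro rfl; simp
  · rintro rfl; simp

/-- translation -/
def sh (g : ℕ) (k : ℕ) : Ch k →L[ℂ] Ch k := lift (fun γ => bas (tup g γ))

@[simp] theorem sh_bas (g k : ℕ) (γ : Fin k → ℕ) : sh g k (bas γ) = bas (tup g γ) :=
  lift_bas (C := 1) (fun _ => by simp) γ

theorem norm_sh_le (g k : ℕ) : ‖sh g k‖ ≤ 1 := norm_lift_le zero_le_one (fun _ => by simp)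

theorem sh_coord (g k : ℕ) (w : Ch k) (γ : Fin k → ℕ) : sh g k w γ = w (tup g γ) := by
  have h : (lp.evalCLM ℂ (fun _ : (Fin k → ℕ) => ℂ) 1 γ).comp (sh g k) =
      lp.evalCLM ℂ (fun _ : (Fin k → ℕ) => ℂ) 1 (tup g γ) := by
    apply bas_ext
    intro δ
    rw [ContinuousLinearMap.comp_apply, sh_bas]
    change bas (tup g δ) γ = bas δ (tup g γ)
    rw [bas_apply, bas_apply]
    congr 1
    rw [eq_iff_iff, eq_comm, tup_inj, eq_comm]
  exact congrArg (fun T => T w) h

theorem sh_sh (g h k : ℕ) (w : Ch k) : sh g k (sh h k w) = sh (g ^^^ h) k w := by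
  apply Ell.ext; intro γ
  rw [sh_coord, sh_coord, sh_coord, tup_tup, Nat.xor_comm]

@[simp] theorem sh_self (g k : ℕ) (w : Ch k) : sh g k (sh g k w) = w := by
  apply Ell.ext; intro γ
  rw [sh_coord, sh_coord, tup_self]

/-- cone operators -/
def cone (k j : ℕ) : Ch k →L[ℂ] Ch (k + 1) := lift (fun γ => bas (Fin.cons j γ))

@[simp] theorem cone_bas (k j : ℕ) (γ : Fin k → ℕ) : cone k j (bas γ) = bas (Fin.cons j γ) :=
  lift_bas (C := 1) (fun _ => by simp) γ

theorem norm_cone_le (k j : ℕ) : ‖cone k j‖ ≤ 1 := norm_lift_le zero_le_one (fun _ => by simp)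

theorem tup_cons (g j : ℕ) {k : ℕ} (γ : Fin k → ℕ) :
    tup g (Fin.cons j γ : Fin (k + 1) → ℕ) = Fin.cons (g ^^^ j) (tup g γ) := by
  funext t
  refine Fin.cases ?_ (fun t => ?_) t
  · simp [tup]
  · simp [tup]

theorem sh_cone (g k j : ℕ) (w : Ch k) :
    sh g (k + 1) (cone k j w) = cone k (g ^^^ j) (sh g k w) := by
  have h : (sh g (k + 1)).comp (cone k j) = (cone k (g ^^^ j)).comp (sh g k) := by
    apply bas_ext
    intro γ
    simp [tup_cons]
  exact congrArg (fun T => T w) h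

/-- the boundary operator -/
def bd : ∀ k : ℕ, Ch (k + 1) →L[ℂ] Ch k
  | 0 => lift (fun _ => bas (fun t => Fin.elim0 t))
  | (k + 1) => lift (fun γ => bas (Fin.tail γ) - cone k (γ 0) (bd k (bas (Fin.tail γ))))

theorem bd_zero_bas (γ : Fin 1 → ℕ) : bd 0 (bas γ) = bas (fun t => Fin.elim0 t) := by
  rw [bd]
  exact lift_bas (C := 1) (fun _ => by simp) γ

theorem bd_succ_bas (k : ℕ) (γ : Fin (k + 2) → ℕ) :
    bd (k + 1) (bas γ) = bas (Fin.tail γ) - cone k (γ 0) (bd k (bas (Fin.tail γ))) := by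
  rw [bd]
  refine lift_bas (C := 1 + ‖bd k‖) (fun γ => ?_) γ
  refine (norm_sub_le _ _).trans (add_le_add (by simp) ?_)
  refine ((cone k (γ 0)).le_of_opNorm_le (norm_cone_le _ _) _).trans ?_
  rw [one_mul]
  exact norm_apply_bas_le _ _

theorem bd_cone_zero (j : ℕ) (w : Ch 0) : bd 0 (cone 0 j w) = w := by
  have h : (bd 0).comp (cone 0 j) = ContinuousLinearMap.id ℂ (Ch 0) := by
    apply bas_ext
    intro γ
    simp only [ContinuousLinearMap.comp_apply, cone_bas, bd_zero_bas, ContinuousLinearMap.id_apply]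
    congr 1
    exact Subsingleton.elim _ _
  exact congrArg (fun T => T w) h

theorem bd_cone_succ (k j : ℕ) (w : Ch (k + 1)) :
    bd (k + 1) (cone (k + 1) j w) = w - cone k j (bd k w) := by
  have h : (bd (k + 1)).comp (cone (k + 1) j) =
      ContinuousLinearMap.id ℂ (Ch (k + 1)) - (cone k j).comp (bd k) := by
    apply bas_ext
    intro γ
    simp only [ContinuousLinearMap.comp_apply, cone_bas, bd_succ_bas, Fin.tail_cons,
      Fin.cons_zero, _root_.sub_apply, ContinuousLinearMap.id_apply]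
  exact congrArg (fun T => T w) h

theorem bd_bd_bas (k : ℕ) (γ : Fin (k + 2) → ℕ) : bd k (bd (k + 1) (bas γ)) = 0 := by
  induction k with
  | zero => rw [bd_succ_bas, map_sub, bd_cone_zero, sub_self]
  | succ k ih =>
      rw [bd_succ_bas, map_sub, bd_cone_succ, ih, map_zero, sub_zero, sub_self]

theorem bd_bd (k : ℕ) (w : Ch (k + 2)) : bd k (bd (k + 1) w) = 0 := by
  have h : (bd k).comp (bd (k + 1)) = 0 := by
    apply bas_ext
    intro γ
    exact bd_bd_bas k γ
  exact congrArg (fun T => T w) h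

theorem tup_tail (g : ℕ) {k : ℕ} (γ : Fin (k + 1) → ℕ) : Fin.tail (tup g γ) = tup g (Fin.tail γ) :=
  rfl

theorem sh_bd_bas (g k : ℕ) (γ : Fin (k + 1) → ℕ) :
    sh g k (bd k (bas γ)) = bd k (bas (tup g γ)) := by
  induction k with
  | zero =>
      rw [bd_zero_bas, bd_zero_bas, sh_bas]
      congr 1
      funext t
      exact Fin.elim0 t
  | succ k ih =>
      rw [bd_succ_bas, bd_succ_bas, map_sub, sh_cone, ih, sh_bas]
      rfl

theorem sh_bd (g k : ℕ) (w : Ch (k + 1)) : sh g k (bd k w) = bd k (sh g (k + 1) w) := by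
  have h : (sh g k).comp (bd k) = (bd k).comp (sh g (k + 1)) := by
    apply bas_ext
    intro γ
    simp only [ContinuousLinearMap.comp_apply, sh_bas, sh_bd_bas]
  exact congrArg (fun T => T w) h

/-- cycles -/
def Cyc : ∀ k : ℕ, Ch k → Prop
  | 0, _ => True
  | (k + 1), z => bd k z = 0

theorem bd_cone_cyc {k : ℕ} {z : Ch k} (hz : Cyc k z) (j : ℕ) : bd k (cone k j z) = z := by
  cases k with
  | zero => exact bd_cone_zero j z
  | succ k => rw [bd_cone_succ, show bd k z = 0 from hz, map_zero, sub_zero]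

theorem Cyc.bd (k : ℕ) (w : Ch (k + 1)) : Cyc k (bd k w) := by
  cases k with
  | zero => trivial
  | succ k => exact bd_bd k w

theorem Cyc.sh {k : ℕ} {z : Ch k} (hz : Cyc k z) (g : ℕ) : Cyc k (sh g k z) := by
  cases k with
  | zero => trivial
  | succ k =>
      change Dim.bd k (Dim.sh g (k + 1) z) = 0
      rw [← sh_bd, show Dim.bd k z = 0 from hz, map_zero]

/-- There is a bounded section of the boundary map which is equivariant on cycles. -/
def EqSec (k : ℕ) : Prop :=
  ∃ σ : Ch k →L[ℂ] Ch (k + 1), (∀ z, Cyc k z → bd k (σ z) = z) ∧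
    ∀ g z, Cyc k z → σ (sh g k z) = sh g (k + 1) (σ z)

theorem EqSec.descend {k : ℕ} (h : EqSec (k + 1)) : EqSec k := by
  obtain ⟨σ, h1, h2⟩ := h
  -- S i y = σ (bd (cone i y))
  set S : ℕ → Ch (k + 1) →L[ℂ] Ch (k + 2) :=
    fun i => σ.comp ((bd (k + 1)).comp (cone (k + 1) i)) with hS
  have hSb : ∀ i, ‖S i‖ ≤ ‖σ‖ * ‖bd (k + 1)‖ := by
    intro i
    refine (ContinuousLinearMap.opNorm_comp_le _ _).trans ?_
    refine mul_le_mul_of_nonneg_left ?_ (norm_nonneg _)
    refine (ContinuousLinearMap.opNorm_comp_le _ _).trans ?_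
    exact mul_le_of_le_one_right (norm_nonneg _) (norm_cone_le _ _)
  have hSbdd : Bdd S := ⟨_, hSb⟩
  have hSv : ∀ v i, ‖S i v‖ ≤ ‖σ‖ * ‖bd (k + 1)‖ * ‖v‖ := fun v i =>
    (S i).le_of_opNorm_le (hSb i) v
  set b := avgOp S with hb
  have hbe : ∀ g y, sh g (k + 2) (b y) = b (sh g (k + 1) y) := by
    intro g y
    rw [hb, avgOp_apply hSbdd, avgOp_apply hSbdd,
      ← avg_coord (T := sh g (k + 2)) (tup g) (sh_coord g (k + 2)) (hSv y)]
    rw [← avg_xor (hSv (sh g (k + 1) y)) g]
    congr 1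
    funext i
    simp only [hS, ContinuousLinearMap.comp_apply]
    rw [← h2 g _ (Cyc.bd _ _), sh_bd, sh_cone]
  have hbc : ∀ z, Cyc (k + 1) z → bd (k + 1) (b z) = z := by
    intro z hz
    have : b z = σ z := by
      rw [hb, avgOp_apply hSbdd]
      have h3 : ∀ i, S i z = σ z := by
        intro i
        simp only [hS, ContinuousLinearMap.comp_apply]
        rw [bd_cone_cyc hz]
      simp only [h3]
      exact avg_const _
    rw [this, h1 z hz]
  refine ⟨cone k 0 - (bd (k + 1)).comp (b.comp (cone k 0)), ?_, ?_⟩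
  · intro z hz
    simp only [_root_.sub_apply, ContinuousLinearMap.comp_apply, map_sub]
    rw [bd_bd, sub_zero, bd_cone_cyc hz]
  · intro g z hz
    simp only [_root_.sub_apply, ContinuousLinearMap.comp_apply, map_sub]
    rw [sh_bd, hbe, sh_cone, Nat.xor_zero]
    set z' := sh g k z with hz'
    have hzc : Cyc k z' := hz.sh g
    have h3 : Cyc (k + 1) (cone k 0 z' - cone k g z') := by
      change bd k _ = 0
      rw [map_sub, bd_cone_cyc hzc, bd_cone_cyc hzc, sub_self]
    have h4 := hbc _ h3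
    rw [map_sub, map_sub] at h4
    rw [sub_eq_sub_iff_sub_eq_sub]
    exact h4.symm

theorem not_EqSec_zero : ¬ EqSec 0 := by
  rintro ⟨σ, h1, h2⟩
  set e : Ch 0 := bas (fun t => Fin.elim0 t) with he
  set w := σ e with hw
  have h3 : ∀ g, sh g 1 w = w := by
    intro g
    rw [hw, ← h2 g e trivial, he, sh_bas]
    congr 2
    exact Subsingleton.elim _ _
  have h4 : ∀ g : ℕ, w (fun _ => g) = w (fun _ => 0) := by
    intro g
    have := sh_coord g 1 w (fun _ => g)
    rw [h3] at this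
    rw [this]
    have h9 : tup g (fun _ : Fin 1 => g) = fun _ => 0 := by
      funext t
      simp [tup]
    rw [h9]
  have h5 : Summable (fun g : ℕ => ‖w (fun _ => g)‖) :=
    (Ell.summable w).comp_injective (i := fun g : ℕ => (fun _ : Fin 1 => g)) (by
      intro a b hab
      exact congrFun hab 0)
  simp only [h4] at h5
  have h6 : ‖w (fun _ => 0)‖ = 0 := by
    have := h5.tendsto_cofinite_zero
    exact tendsto_nhds_unique tendsto_const_nhds this
  have h7 : w = 0 := by
    apply Ell.ext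
    intro γ
    have : γ = fun _ => γ 0 := by
      funext t
      rw [Fin.eq_zero t]
    rw [this, h4, norm_eq_zero.1 h6]
    rfl
  have h8 := h1 e trivial
  rw [← hw, h7, map_zero] at h8
  have h9 : ‖e‖ = 1 := norm_bas _
  rw [← h8, norm_zero] at h9
  exact zero_ne_one h9

theorem not_EqSec (k : ℕ) : ¬ EqSec k := by
  induction k with
  | zero => exact not_EqSec_zero
  | succ k ih => exact fun h => ih h.descend

end

end Pool.Agent.H83.Dim
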