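import Pool.Agent.H83.Dim.Cut

/-! # The classical formula for the product of `L1Alg μ` (helper83, MP_df984a_an)

Not used in the proof of the main result; it identifies the product of `L1Alg μ` (defined as a
Bochner integral in `L¹(G)`) with the classical convolution when `G` is second countable. -/

namespace Pool.Agent.H83.Dim

open Filter Topology Set MeasureTheory
open scoped ENNReal

noncomputable section

universe u

variable {G : Type u} [Group G] [TopologicalSpace G] [IsTopologicalGroup G]
  [LocallyCompactSpace G] [MeasurableSpace G] [BorelSpace G]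
  (μ : Measure G) [μ.IsHaarMeasure] [μ.Regular]

theorem setIntegral_conv (f g : Lp ℂ 1 μ) {S : Set G} (hS : MeasurableSet S) :
    ∫ x in S, conv μ f g x ∂μ = ∫ t, f t * ∫ x in S, g (t⁻¹ * x) ∂μ ∂μ := by
  have key : ∀ F : Lp ℂ 1 μ, (intL μ).comp (cut μ S) F = ∫ x in S, F x ∂μ := by
    intro F
    rw [ContinuousLinearMap.comp_apply]
    change ∫ x, (cut μ S F) x ∂μ = _
    rw [← integral_indicator hS]
    exact integral_congr_ae (coeFn_cut μ hS F)
  have hi : Integrable (fun t => f t • tr μ t g) μ := (trRep μ ℂ).integrable μ f g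
  have h1 := ((intL μ).comp (cut μ S)).integral_comp_comm hi
  rw [← conv_def] at h1
  rw [← key, ← h1]
  congr 1
  funext t
  rw [map_smul, key, smul_eq_mul]
  congr 1
  apply integral_congr_ae
  exact ae_restrict_of_ae (coeFn_tr μ t g)

/-- The product of `L1Alg μ` is given by the classical formula
`(f * g)(x) = ∫ f(t) g(t⁻¹ x) dμ(t)` almost everywhere. -/
theorem conv_ae [SecondCountableTopology G] (f g : Lp ℂ 1 μ) :
    conv μ f g =ᵐ[μ] fun x => ∫ t, f t * g (t⁻¹ * x) ∂μ := by
  have hfg : Integrable (fun z : G × G => f z.1 * g z.2) (μ.prod μ) :=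
    (L1.integrable_coeFn f).mul_prod (L1.integrable_coeFn g)
  have hk : Integrable (fun z : G × G => f z.1 * g (z.1⁻¹ * z.2)) (μ.prod μ) :=
    (measurePreserving_prod_inv_mul μ μ).integrable_comp_of_integrable hfg
  have hR : Integrable (fun x => ∫ t, f t * g (t⁻¹ * x) ∂μ) μ := hk.integral_prod_right
  refine Integrable.ae_eq_of_forall_setIntegral_eq _ _ (L1.integrable_coeFn _) hR ?_
  intro S hS _
  rw [setIntegral_conv μ f g hS]
  have hkS : Integrable (fun z : G × G => f z.1 * g (z.1⁻¹ * z.2)) (μ.prod (μ.restrict S)) := by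
    have h2 : μ.prod (μ.restrict S) = (μ.prod μ).restrict (univ ×ˢ S) := by
      rw [← Measure.prod_restrict, Measure.restrict_univ]
    rw [h2]
    exact hk.integrableOn
  rw [← integral_integral_swap hkS]
  congr 1
  funext t
  rw [integral_const_mul]

end

end Pool.Agent.H83.Dim
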