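import Pool.Agent.H83.Dim.Chains

/-! # The abstract core of the argument (helper83, for MP_df984a_an) -/

namespace Pool.Agent.H83.Dim

open Filter Topology Set

noncomputable section

section finite

variable {I α β γ : Type*}

theorem finR_comp {f : I → α} (hf : (range f).Finite) (F : α → β) :
    (range fun i => F (f i)).Finite := by
  have : (range fun i => F (f i)) ⊆ F '' range f := by
    rintro _ ⟨i, rfl⟩
    exact mem_image_of_mem _ ⟨i, rfl⟩
  exact (hf.image F).subset this

theorem finR_comp₂ {f : I → α} {g : I → β} (hf : (range f).Finite) (hg : (range g).Finite)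
    (F : α → β → γ) : (range fun i => F (f i) (g i)).Finite := by
  have : (range fun i => F (f i) (g i)) ⊆ image2 F (range f) (range g) := by
    rintro _ ⟨i, rfl⟩
    exact mem_image2_of_mem ⟨i, rfl⟩ ⟨i, rfl⟩
  exact (hf.image2 F hg).subset this

end finite

section shm

variable {E : Type*} [NormedAddCommGroup E] [NormedSpace ℂ E]

/-- `(shm i B w) l = B (w (i ^^^ l))` -/
def shm [CompleteSpace E] (i : ℕ) (B : E →L[ℂ] E) : Ell ℕ E →L[ℂ] Ell ℕ E :=
  liftL (fun j => (sgl (i ^^^ j)).comp B)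

theorem shm_bdd (i : ℕ) (B : E →L[ℂ] E) :
    Bdd (fun j => ((sgl (i ^^^ j)).comp B : E →L[ℂ] Ell ℕ E)) := by
  refine ⟨‖B‖, fun j => ?_⟩
  refine (ContinuousLinearMap.opNorm_comp_le _ _).trans ?_
  exact mul_le_of_le_one_left (norm_nonneg _) (norm_sgl_le _)

variable [CompleteSpace E]

theorem shm_apply (i : ℕ) (B : E →L[ℂ] E) (w : Ell ℕ E) (l : ℕ) :
    shm i B w l = B (w (i ^^^ l)) := by
  have h1 := (hasSum_liftL (shm_bdd i B) w).mapL (lp.evalCLM ℂ (fun _ : ℕ => E) 1 l)
  have h2 : HasSum (fun j => (lp.evalCLM ℂ (fun _ : ℕ => E) 1 l)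
      (((sgl (i ^^^ j)).comp B) (w j))) (B (w (i ^^^ l))) := by
    have h3 : ∀ j, (lp.evalCLM ℂ (fun _ : ℕ => E) 1 l) (((sgl (i ^^^ j)).comp B) (w j)) =
        if j = i ^^^ l then B (w (i ^^^ l)) else 0 := by
      intro j
      change sgl (i ^^^ j) (B (w j)) l = _
      rw [sgl_apply]
      by_cases h : j = i ^^^ l
      · have h' : l = i ^^^ j := by rw [h, ← Nat.xor_assoc, Nat.xor_self, Nat.zero_xor]
        rw [if_pos h', if_pos h, h]
      · have h' : ¬ l = i ^^^ j := by
          intro h'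
          apply h
          rw [h', ← Nat.xor_assoc, Nat.xor_self, Nat.zero_xor]
        rw [if_neg h', if_neg h]
    simp only [h3]
    exact hasSum_ite_eq _ _
  exact h1.unique h2

end shm

variable {N : ℕ → Type*} [∀ k, NormedAddCommGroup (N k)] [∀ k, NormedSpace ℂ (N k)]

/-- kernel condition -/
def ZN (D : ∀ k, N (k + 1) →L[ℂ] N k) : ∀ k, N k → Prop
  | 0, _ => True
  | (k + 1), v => D k v = 0

variable [∀ k, CompleteSpace (N k)]

variable (N) in
/-- The data coming from a resolution. -/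
structure Data where
  D : ∀ k, N (k + 1) →L[ℂ] N k
  A : ∀ k, ℕ → N k →L[ℂ] N k
  B : ∀ k, ℕ → N k →L[ℂ] N k
  BA : ∀ k i v, B k i (A k i v) = v
  AB : ∀ k i v, A k i (B k i v) = v
  M : ℕ → ℝ
  hA : ∀ k i, ‖A k i‖ ≤ M k
  hB : ∀ k i, ‖B k i‖ ≤ M k
  DA : ∀ k i v, D k (A (k + 1) i v) = A k i (D k v)
  fin : ∀ k l, (range fun i => (B k i).comp (A k (i ^^^ l))).Finite
  DD : ∀ k v, D k (D (k + 1) v) = 0
  one : N 0
  A_one : ∀ i, A 0 i one = one
  φ : N 0 →L[ℂ] ℂ
  φA : ∀ i v, φ (A 0 i v) = φ v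
  φ_one : φ one = 1
  ex : ∀ k, ∃ C, ∀ v : N k, ZN D k v → ∃ w, D k w = v ∧ ‖w‖ ≤ C * ‖v‖
  P : ∀ k, N (k + 1) →L[ℂ] Ell ℕ (N (k + 1))
  P_sum : ∀ k q, HasSum (fun j => P k q j) q
  P_FR : ∀ k q, FR (fun i => shm i (B (k + 1) i) (P k (A (k + 1) i q)))

namespace Data

variable (d : Data N)

theorem M_nonneg (k : ℕ) : 0 ≤ d.M k := (norm_nonneg _).trans (d.hA k 0)

theorem DB (k i : ℕ) (v : N (k + 1)) : d.D k (d.B (k + 1) i v) = d.B k i (d.D k v) := by
  have h := d.DA k i (d.B (k + 1) i v)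
  rw [d.AB] at h
  rw [h, d.BA]

theorem B_one (i : ℕ) : d.B 0 i d.one = d.one := by
  conv_lhs => rw [← d.A_one i]
  exact d.BA _ _ _

/-- lifting constant -/
def Cl (k : ℕ) : ℝ := |Classical.choose (d.ex k)|

theorem ex' (k : ℕ) (v : N k) (h : ZN d.D k v) : ∃ w, d.D k w = v ∧ ‖w‖ ≤ d.Cl k * ‖v‖ := by
  obtain ⟨w, h1, h2⟩ := Classical.choose_spec (d.ex k) v h
  exact ⟨w, h1, h2.trans (mul_le_mul_of_nonneg_right (le_abs_self _) (norm_nonneg _))⟩

open Classical in
/-- bounded nonlinear lifting -/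
def tau (k : ℕ) (v : N k) : N (k + 1) :=
  if h : ZN d.D k v then Classical.choose (d.ex' k v h) else 0

theorem D_tau (k : ℕ) (v : N k) (h : ZN d.D k v) : d.D k (d.tau k v) = v := by
  rw [tau, dif_pos h]
  exact (Classical.choose_spec (d.ex' k v h)).1

theorem Cl_nonneg (k : ℕ) : 0 ≤ d.Cl k := abs_nonneg _

theorem norm_tau (k : ℕ) (v : N k) : ‖d.tau k v‖ ≤ d.Cl k * ‖v‖ := by
  by_cases h : ZN d.D k v
  · rw [tau, dif_pos h]
    exact (Classical.choose_spec (d.ex' k v h)).2
  · rw [tau, dif_neg h, norm_zero]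
    exact mul_nonneg (d.Cl_nonneg k) (norm_nonneg _)

/-! ### The map `T` -/

/-- chain map from the bar complex to the resolution -/
def T : ∀ k, Ch k →L[ℂ] N k
  | 0 => lift (fun _ => d.one)
  | (k + 1) => lift (fun γ => d.A (k + 1) (γ 0) (d.tau k (d.B k (γ 0) (T k (bd k (bas γ))))))

theorem T_zero (γ : Fin 0 → ℕ) : d.T 0 (bas γ) = d.one := by
  rw [T]
  exact lift_bas (C := ‖d.one‖) (fun _ => le_rfl) γ

theorem T_succ (k : ℕ) (γ : Fin (k + 1) → ℕ) :
    d.T (k + 1) (bas γ) =
      d.A (k + 1) (γ 0) (d.tau k (d.B k (γ 0) (d.T k (bd k (bas γ))))) := by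
  rw [T]
  refine lift_bas (C := d.M (k + 1) * (d.Cl k * (d.M k * (‖d.T k‖ * ‖bd k‖)))) (fun γ => ?_) γ
  refine ((d.A (k + 1) (γ 0)).le_of_opNorm_le (d.hA _ _) _).trans ?_
  refine mul_le_mul_of_nonneg_left ?_ (d.M_nonneg _)
  refine (d.norm_tau k _).trans ?_
  refine mul_le_mul_of_nonneg_left ?_ (d.Cl_nonneg _)
  refine ((d.B k (γ 0)).le_of_opNorm_le (d.hB _ _) _).trans ?_
  refine mul_le_mul_of_nonneg_left ?_ (d.M_nonneg _)
  refine ((d.T k).le_opNorm _).trans ?_
  exact mul_le_mul_of_nonneg_left (norm_apply_bas_le _ _) (norm_nonneg _)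

theorem D_T (k : ℕ) (w : Ch (k + 1)) : d.D k (d.T (k + 1) w) = d.T k (bd k w) := by
  have main : ∀ k (γ : Fin (k + 1) → ℕ), d.D k (d.T (k + 1) (bas γ)) = d.T k (bd k (bas γ)) := by
    intro k
    induction k with
    | zero =>
        intro γ
        rw [T_succ, d.DA, d.D_tau 0 _ trivial, d.AB]
    | succ k ih =>
        intro γ
        have ih' : ∀ w : Ch (k + 1), d.D k (d.T (k + 1) w) = d.T k (bd k w) := by
          intro w
          have h : (d.D k).comp (d.T (k + 1)) = (d.T k).comp (bd k) := bas_ext ih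
          exact congrArg (fun T => T w) h
        rw [T_succ, d.DA, d.D_tau (k + 1) _ ?_, d.AB]
        change d.D k _ = 0
        rw [d.DB, ih', bd_bd, map_zero, map_zero]
  have h : (d.D k).comp (d.T (k + 1)) = (d.T k).comp (bd k) := bas_ext (main k)
  exact congrArg (fun T => T w) h

/-- finitely supported chains -/
def FS (k : ℕ) : Submodule ℂ (Ch k) := Submodule.span ℂ (range (bas : (Fin k → ℕ) → Ch k))

theorem cone_FS (k j : ℕ) {w : Ch k} (hw : w ∈ FS k) : cone k j w ∈ FS (k + 1) := by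
  refine Submodule.span_induction (p := fun w _ => cone k j w ∈ FS (k + 1)) ?_ ?_ ?_ ?_ hw
  · rintro _ ⟨γ, rfl⟩
    rw [cone_bas]
    exact Submodule.subset_span ⟨_, rfl⟩
  · rw [map_zero]; exact Submodule.zero_mem _
  · intro x y _ _ hx hy
    rw [map_add]; exact Submodule.add_mem _ hx hy
  · intro c x _ hx
    rw [map_smul]; exact Submodule.smul_mem _ _ hx

theorem bd_FS (k : ℕ) (γ : Fin (k + 1) → ℕ) : bd k (bas γ) ∈ FS k := by
  induction k with
  | zero => rw [bd_zero_bas]; exact Submodule.subset_span ⟨_, rfl⟩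
  | succ k ih =>
      rw [bd_succ_bas]
      exact Submodule.sub_mem _ (Submodule.subset_span ⟨_, rfl⟩) (cone_FS _ _ (ih _))

theorem fin' (k l : ℕ) : (range fun i => (d.B k (i ^^^ l)).comp (d.A k i)).Finite := by
  refine (d.fin k l).subset ?_
  rintro _ ⟨i, rfl⟩
  refine ⟨i ^^^ l, ?_⟩
  simp only [Nat.xor_assoc, Nat.xor_self, Nat.xor_zero]

theorem T_fin (k : ℕ) {w : Ch k} (hw : w ∈ FS k) :
    (range fun i => d.B k i (d.T k (sh i k w))).Finite := by
  have ext : ∀ k, (∀ γ : Fin k → ℕ, (range fun i => d.B k i (d.T k (sh i k (bas γ)))).Finite) →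
      ∀ w ∈ FS k, (range fun i => d.B k i (d.T k (sh i k w))).Finite := by
    intro k h w hw
    refine Submodule.span_induction
      (p := fun w _ => (range fun i => d.B k i (d.T k (sh i k w))).Finite) ?_ ?_ ?_ ?_ hw
    · rintro _ ⟨γ, rfl⟩
      exact h γ
    · simp only [map_zero]
      exact (finite_singleton (0 : N k)).subset (by rintro _ ⟨i, rfl⟩; rfl)
    · intro x y _ _ hx hy
      simp only [map_add]
      exact finR_comp₂ hx hy (fun a b => a + b)
    · intro c x _ hx
      simp only [map_smul]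
      exact finR_comp hx (fun a => c • a)
  have main : ∀ k (γ : Fin k → ℕ), (range fun i => d.B k i (d.T k (sh i k (bas γ)))).Finite := by
    intro k
    induction k with
    | zero =>
        intro γ
        simp only [sh_bas, T_zero, B_one]
        exact (finite_singleton d.one).subset (by rintro _ ⟨i, rfl⟩; rfl)
    | succ k ih =>
        intro γ
        have h1 : ∀ i, d.B (k + 1) i (d.T (k + 1) (sh i (k + 1) (bas γ))) =
            ((d.B (k + 1) i).comp (d.A (k + 1) (i ^^^ γ 0))) (d.tau k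
              (((d.B k (i ^^^ γ 0)).comp (d.A k i))
                (d.B k i (d.T k (sh i k (bd k (bas γ))))))) := by
          intro i
          rw [sh_bas, T_succ]
          simp only [ContinuousLinearMap.comp_apply]
          rw [d.AB, sh_bd, sh_bas]
          rfl
        simp only [h1]
        refine finR_comp₂ (d.fin (k + 1) (γ 0)) ?_ (fun F x => F (d.tau k x))
        refine finR_comp₂ (d.fin' k (γ 0)) (ext k ih _ (bd_FS k γ)) (fun F x => F x)
  exact ext k (main k) w hw

/-! ### The map `R` -/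

/-- chain map from the resolution to the bar complex -/
def R : ∀ k, N k →L[ℂ] Ch k
  | 0 => d.φ.smulRight (bas (fun t => Fin.elim0 t))
  | (k + 1) => (liftL fun j => (cone k j).comp ((R k).comp (d.D k))).comp (d.P k)

theorem R_zero (v : N 0) : d.R 0 v = d.φ v • bas (fun t => Fin.elim0 t) := rfl

theorem R_bdd (k : ℕ) : Bdd (fun j => (cone k j).comp ((d.R k).comp (d.D k))) := by
  refine ⟨‖(d.R k).comp (d.D k)‖, fun j => ?_⟩
  refine (ContinuousLinearMap.opNorm_comp_le _ _).trans ?_
  exact mul_le_of_le_one_left (norm_nonneg _) (norm_cone_le _ _)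

theorem R_hasSum (k : ℕ) (q : N (k + 1)) :
    HasSum (fun j => cone k j (d.R k (d.D k (d.P k q j)))) (d.R (k + 1) q) :=
  hasSum_liftL (d.R_bdd k) (d.P k q)

theorem bd_R (k : ℕ) (q : N (k + 1)) : bd k (d.R (k + 1) q) = d.R k (d.D k q) := by
  have step : ∀ k, (∀ q, Cyc k (d.R k (d.D k q))) → ∀ q, bd k (d.R (k + 1) q) = d.R k (d.D k q) := by
    intro k h q
    have h1 := (d.R_hasSum k q).mapL (bd k)
    have h2 := (d.P_sum k q).mapL ((d.R k).comp (d.D k))
    simp only [bd_cone_cyc (h _)] at h1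
    exact h1.unique h2
  induction k with
  | zero => exact step 0 (fun _ => trivial) q
  | succ k ih =>
      refine step (k + 1) (fun q => ?_) q
      change bd k _ = 0
      rw [ih, d.DD, map_zero]

theorem R_FR (k : ℕ) (q : N k) : FR (fun i => sh i k (d.R k (d.A k i q))) := by
  induction k with
  | zero =>
      have : ∀ i, sh i 0 (d.R 0 (d.A 0 i q)) = d.φ q • bas (fun t => Fin.elim0 t) := by
        intro i
        rw [R_zero, map_smul, d.φA, sh_bas]
        congr 2
        funext t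
        exact Fin.elim0 t
      simp only [this]
      exact FR.const _
  | succ k ih =>
      set L : ℕ → ℕ → N (k + 1) →L[ℂ] Ch (k + 1) := fun i l =>
        (cone k l).comp (((sh i k).comp ((d.R k).comp (d.A k i))).comp (d.D k)) with hL
      have hLb : ∀ i l, ‖L i l‖ ≤ ‖d.R k‖ * d.M k * ‖d.D k‖ := by
        intro i l
        refine ContinuousLinearMap.opNorm_le_bound _
          (mul_nonneg (mul_nonneg (norm_nonneg _) (d.M_nonneg _)) (norm_nonneg _)) (fun v => ?_)
        refine ((cone k l).le_of_opNorm_le (norm_cone_le _ _) _).trans ?_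
        rw [one_mul]
        refine ((sh i k).le_of_opNorm_le (norm_sh_le _ _) _).trans ?_
        rw [one_mul, mul_assoc, mul_assoc]
        refine ((d.R k).le_opNorm _).trans (mul_le_mul_of_nonneg_left ?_ (norm_nonneg _))
        refine ((d.A k i).le_of_opNorm_le (d.hA _ _) _).trans
          (mul_le_mul_of_nonneg_left ?_ (d.M_nonneg _))
        exact (d.D k).le_opNorm _
      have hbdd : ∀ i, Bdd (L i) := fun i => ⟨_, hLb i⟩
      have key : ∀ i, sh i (k + 1) (d.R (k + 1) (d.A (k + 1) i q)) =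
          liftL (L i) (shm i (d.B (k + 1) i) (d.P k (d.A (k + 1) i q))) := by
        intro i
        have h1 := (d.R_hasSum k (d.A (k + 1) i q)).mapL (sh i (k + 1))
        have h2 := hasSum_liftL (hbdd i) (shm i (d.B (k + 1) i) (d.P k (d.A (k + 1) i q)))
        have h3 : ∀ l, L i l (shm i (d.B (k + 1) i) (d.P k (d.A (k + 1) i q)) l) =
            sh i (k + 1) (cone k (i ^^^ l) (d.R k (d.D k (d.P k (d.A (k + 1) i q) (i ^^^ l))))) := by
          intro l
          rw [shm_apply, sh_cone, ← Nat.xor_assoc, Nat.xor_self, Nat.zero_xor]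
          simp only [hL, ContinuousLinearMap.comp_apply]
          rw [← d.DA, d.AB]
        simp only [h3] at h2
        have hx : ∀ l, i ^^^ (i ^^^ l) = l := fun l => by
          rw [← Nat.xor_assoc, Nat.xor_self, Nat.zero_xor]
        set e : ℕ ≃ ℕ := ⟨fun l => i ^^^ l, fun l => i ^^^ l, hx, hx⟩ with he
        have h4 := (Equiv.hasSum_iff e).2 h1
        exact h4.unique h2
      simp only [key]
      refine FR.apply (C := ‖d.R k‖ * d.M k * ‖d.D k‖) (fun i => norm_liftL_le
        (mul_nonneg (mul_nonneg (norm_nonneg _) (d.M_nonneg _)) (norm_nonneg _)) (hLb i)) ?_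
        (d.P_FR k q)
      intro v
      refine FR.ell (C := ‖d.R k‖ * d.M k * ‖d.D k‖) (fun i => norm_liftL_le
        (mul_nonneg (mul_nonneg (norm_nonneg _) (d.M_nonneg _)) (norm_nonneg _)) (hLb i)) ?_ v
      intro l x
      have h5 : ∀ i, liftL (L i) (sgl l x) = cone k l (sh i k (d.R k (d.A k i (d.D k x)))) := by
        intro i
        rw [liftL_sgl (hbdd i)]
        rfl
      simp only [h5]
      exact (ih (d.D k x)).clm (cone k l)

/-! ### The homotopy -/

/-- the homotopy -/
def h : ∀ k, Ch k →L[ℂ] Ch (k + 1)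
  | 0 => 0
  | (k + 1) => lift (fun γ => cone (k + 1) (γ 0)
      (bas γ - d.R (k + 1) (d.T (k + 1) (bas γ)) - h k (bd k (bas γ))))

theorem h_succ (k : ℕ) (γ : Fin (k + 1) → ℕ) :
    d.h (k + 1) (bas γ) = cone (k + 1) (γ 0)
      (bas γ - d.R (k + 1) (d.T (k + 1) (bas γ)) - d.h k (bd k (bas γ))) := by
  rw [h]
  refine lift_bas (C := 1 + ‖d.R (k + 1)‖ * ‖d.T (k + 1)‖ + ‖d.h k‖ * ‖bd k‖) (fun γ => ?_) γ
  refine ((cone (k + 1) (γ 0)).le_of_opNorm_le (norm_cone_le _ _) _).trans ?_
  rw [one_mul]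
  refine (norm_sub_le _ _).trans (add_le_add ((norm_sub_le _ _).trans (add_le_add (by simp) ?_)) ?_)
  · exact ((d.R (k + 1)).le_opNorm _).trans
      (mul_le_mul_of_nonneg_left (norm_apply_bas_le _ _) (norm_nonneg _))
  · exact ((d.h k).le_opNorm _).trans
      (mul_le_mul_of_nonneg_left (norm_apply_bas_le _ _) (norm_nonneg _))

theorem bd_h_cyc (k : ℕ) : ∀ w, Cyc k w → bd k (d.h k w) = w - d.R k (d.T k w) := by
  induction k with
  | zero =>
      intro w _
      have h1 : (d.R 0).comp (d.T 0) = ContinuousLinearMap.id ℂ (Ch 0) := by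
        apply bas_ext
        intro γ
        rw [ContinuousLinearMap.comp_apply, T_zero, R_zero, d.φ_one, one_smul]
        congr 1
        exact Subsingleton.elim _ _
      have h2 : d.R 0 (d.T 0 w) = w := congrArg (fun T => T w) h1
      rw [h2, sub_self]
      change bd 0 0 = 0
      rw [map_zero]
  | succ k ih =>
      intro w hw
      have h1 : (bd (k + 1)).comp (d.h (k + 1)) =
          ContinuousLinearMap.id ℂ (Ch (k + 1)) - (d.R (k + 1)).comp (d.T (k + 1)) -
            (d.h k).comp (bd k) := by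
        apply bas_ext
        intro γ
        simp only [ContinuousLinearMap.comp_apply, _root_.sub_apply, ContinuousLinearMap.id_apply]
        rw [h_succ, bd_cone_cyc]
        change bd k _ = 0
        rw [map_sub, map_sub, bd_R, D_T, ih _ (Cyc.bd _ _), sub_self]
      have h2 : bd (k + 1) (d.h (k + 1) w) = w - d.R (k + 1) (d.T (k + 1) w) - d.h k (bd k w) :=
        congrArg (fun T => T w) h1
      rw [h2, show bd k w = 0 from hw, map_zero, sub_zero]

theorem h_FR (k : ℕ) : ∀ w, FR (fun i => sh i (k + 1) (d.h k (sh i k w))) := by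
  induction k with
  | zero =>
      intro w
      have : ∀ i, sh i 1 (d.h 0 (sh i 0 w)) = 0 := by
        intro i
        change sh i 1 0 = 0
        rw [map_zero]
      simp only [this]
      exact FR.const _
  | succ k ih =>
      intro w
      refine FR.ell_bas (Θ := fun i => (sh i (k + 2)).comp ((d.h (k + 1)).comp (sh i (k + 1))))
        (C := ‖d.h (k + 1)‖) (fun i => ?_) (fun γ => ?_) w
      · refine ContinuousLinearMap.opNorm_le_bound _ (norm_nonneg _) (fun v => ?_)
        refine ((sh i (k + 2)).le_of_opNorm_le (norm_sh_le _ _) _).trans ?_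
        rw [one_mul]
        refine ((d.h (k + 1)).le_opNorm _).trans (mul_le_mul_of_nonneg_left ?_ (norm_nonneg _))
        exact ((sh i (k + 1)).le_of_opNorm_le (norm_sh_le _ _) _).trans (by rw [one_mul])
      · have key : ∀ i, ((sh i (k + 2)).comp ((d.h (k + 1)).comp (sh i (k + 1)))) (bas γ) =
            cone (k + 1) (γ 0) (bas γ -
              ((sh i (k + 1)).comp ((d.R (k + 1)).comp (d.A (k + 1) i)))
                (d.B (k + 1) i (d.T (k + 1) (sh i (k + 1) (bas γ)))) -
              sh i (k + 1) (d.h k (sh i k (bd k (bas γ))))) := by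
          intro i
          simp only [ContinuousLinearMap.comp_apply]
          have h1 : i ^^^ tup i γ 0 = γ 0 := by
            simp only [tup]
            rw [← Nat.xor_assoc, Nat.xor_self, Nat.zero_xor]
          rw [d.AB, sh_bd, sh_bas, h_succ, sh_cone, h1]
          congr 1
          rw [map_sub, map_sub, sh_bas, tup_self]
        simp only [key]
        refine FR.clm (FR.sub (FR.sub (FR.const _) ?_) (ih _)) (cone (k + 1) (γ 0))
        refine FR.apply (C := ‖d.R (k + 1)‖ * d.M (k + 1)) (fun i => ?_) (fun v => ?_) ?_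
        · refine ContinuousLinearMap.opNorm_le_bound _
            (mul_nonneg (norm_nonneg _) (d.M_nonneg _)) (fun v => ?_)
          refine ((sh i (k + 1)).le_of_opNorm_le (norm_sh_le _ _) _).trans ?_
          rw [one_mul, mul_assoc]
          refine ((d.R (k + 1)).le_opNorm _).trans (mul_le_mul_of_nonneg_left ?_ (norm_nonneg _))
          exact (d.A (k + 1) i).le_of_opNorm_le (d.hA _ _) _
        · exact d.R_FR (k + 1) v
        · exact FR.of_finite (d.T_fin (k + 1) (Submodule.subset_span ⟨γ, rfl⟩))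

include d in
theorem eqSec (K : ℕ) (hK : ∀ v : N K, v = 0) : EqSec K := by
  have h0 : ∀ z, Cyc K z → bd K (d.h K z) = z := by
    intro z hz
    rw [d.bd_h_cyc K z hz, hK (d.T K z), map_zero, sub_zero]
  set S : ℕ → Ch K →L[ℂ] Ch (K + 1) := fun i => (sh i (K + 1)).comp ((d.h K).comp (sh i K)) with hS
  have hSb : ∀ i, ‖S i‖ ≤ ‖d.h K‖ := by
    intro i
    refine ContinuousLinearMap.opNorm_le_bound _ (norm_nonneg _) (fun v => ?_)
    refine ((sh i (K + 1)).le_of_opNorm_le (norm_sh_le _ _) _).trans ?_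
    rw [one_mul]
    refine ((d.h K).le_opNorm _).trans (mul_le_mul_of_nonneg_left ?_ (norm_nonneg _))
    exact ((sh i K).le_of_opNorm_le (norm_sh_le _ _) _).trans (by rw [one_mul])
  have hSv : ∀ v i, ‖S i v‖ ≤ ‖d.h K‖ * ‖v‖ := fun v i => (S i).le_of_opNorm_le (hSb i) v
  have hSbdd : Bdd S := ⟨_, hSb⟩
  refine ⟨avgOp S, ?_, ?_⟩
  · intro z hz
    have hFR : FR (fun i => S i z) := d.h_FR K z
    rw [avgOp_apply hSbdd, ← avg_clm hFR (bd K)]
    have h1 : ∀ i, bd K (S i z) = z := by
      intro i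
      simp only [hS, ContinuousLinearMap.comp_apply]
      rw [← sh_bd, h0 _ (hz.sh i), sh_self]
    simp only [h1]
    exact avg_const z
  · intro g z _
    rw [avgOp_apply hSbdd, avgOp_apply hSbdd,
      ← avg_coord (T := sh g (K + 1)) (tup g) (sh_coord g (K + 1)) (hSv z),
      ← avg_xor (hSv (sh g K z)) g]
    congr 1
    funext i
    simp only [hS, ContinuousLinearMap.comp_apply]
    rw [sh_sh, sh_sh, Nat.xor_comm g i, Nat.xor_assoc, Nat.xor_self, Nat.xor_zero]

include d in
theorem false_of_bounded (K : ℕ) (hK : ∀ v : N K, v = 0) : False :=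
  not_EqSec K (d.eqSec K hK)

end Data

end

end Pool.Agent.H83.Dim
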