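import Mathlib

/-! # `ℓ¹` sums and lifting of bounded families (helper83, for MP_df984a_an) -/

namespace Pool.Agent.H83.Dim

open Filter Topology Set
open scoped ENNReal

noncomputable section

/-- `ℓ¹(ι; E)`. -/
abbrev Ell (ι : Type*) (E : Type*) [NormedAddCommGroup E] := lp (fun _ : ι => E) 1

section basic

variable {ι : Type*} {E F G : Type*} [NormedAddCommGroup E]

theorem Ell.hasSum_norm (w : Ell ι E) : HasSum (fun i => ‖w i‖) ‖w‖ := by
  have := lp.hasSum_norm (p := 1) (by norm_num) w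
  simpa using this

theorem Ell.norm_eq (w : Ell ι E) : ‖w‖ = ∑' i, ‖w i‖ := (Ell.hasSum_norm w).tsum_eq.symm

theorem Ell.summable (w : Ell ι E) : Summable (fun i => ‖w i‖) := (Ell.hasSum_norm w).summable

/-- Build an element of `ℓ¹`. -/
def Ell.mk (f : ι → E) (h : Summable fun i => ‖f i‖) : Ell ι E :=
  ⟨f, memℓp_gen (by simpa using h)⟩

@[simp] theorem Ell.mk_apply (f : ι → E) (h : Summable fun i => ‖f i‖) (i : ι) :
    Ell.mk f h i = f i := rfl

theorem Ell.ext {v w : Ell ι E} (h : ∀ i, v i = w i) : v = w := lp.ext (funext h)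

@[simp] theorem Ell.add_apply (v w : Ell ι E) (i : ι) : (v + w) i = v i + w i := rfl
@[simp] theorem Ell.sub_apply (v w : Ell ι E) (i : ι) : (v - w) i = v i - w i := rfl
@[simp] theorem Ell.zero_apply (i : ι) : (0 : Ell ι E) i = 0 := rfl
variable [NormedSpace ℂ E]
  [NormedAddCommGroup F] [NormedSpace ℂ F] [NormedAddCommGroup G] [NormedSpace ℂ G]

@[simp] theorem Ell.smul_apply (c : ℂ) (w : Ell ι E) (i : ι) : (c • w) i = c • w i := rfl

variable [DecidableEq ι]

/-- The inclusion of the `i`-th coordinate. -/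
def sgl (i : ι) : E →L[ℂ] Ell ι E := lp.singleContinuousLinearMap ℂ (fun _ : ι => E) 1 i

theorem sgl_apply (i : ι) (x : E) (j : ι) : sgl i x j = if j = i then x else 0 := by
  change Pi.single (M := fun _ : ι => E) i x j = _
  rw [Pi.single_apply]

@[simp] theorem sgl_self (i : ι) (x : E) : sgl i x i = x := by simp [sgl_apply]

@[simp] theorem norm_sgl (i : ι) (x : E) : ‖sgl i x‖ = ‖x‖ :=
  lp.norm_single (E := fun _ : ι => E) (p := 1) (by norm_num) i x

theorem norm_sgl_le (i : ι) : ‖(sgl i : E →L[ℂ] Ell ι E)‖ ≤ 1 :=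
  ContinuousLinearMap.opNorm_le_bound _ zero_le_one (fun x => by simp)

theorem hasSum_sgl (w : Ell ι E) : HasSum (fun i => sgl i (w i)) w :=
  lp.hasSum_single (E := fun _ : ι => E) (p := 1) (by norm_num) w

theorem Ell.clm_ext {S T : Ell ι E →L[ℂ] F} (h : ∀ i x, S (sgl i x) = T (sgl i x)) : S = T := by
  ext w
  have h1 := (hasSum_sgl w).mapL S
  have h2 := (hasSum_sgl w).mapL T
  simp only [h] at h1
  exact h1.unique h2

/-- bounded families of operators -/
def Bdd {κ : Type*} (L : κ → E →L[ℂ] F) : Prop := ∃ C, ∀ i, ‖L i‖ ≤ C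

variable [CompleteSpace F]

omit [DecidableEq ι] in
theorem summable_family {L : ι → E →L[ℂ] F} (hL : Bdd L) (w : Ell ι E) :
    Summable fun i => L i (w i) := by
  obtain ⟨C, hC⟩ := hL
  refine Summable.of_norm_bounded (g := fun i => C * ‖w i‖) ((Ell.summable w).mul_left C) ?_
  intro i
  exact (L i).le_of_opNorm_le (hC i) _

open Classical in
/-- The map `w ↦ ∑ L_i (w_i)`. -/
def liftL (L : ι → E →L[ℂ] F) : Ell ι E →L[ℂ] F :=
  if hL : Bdd L then
    LinearMap.mkContinuous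
      { toFun := fun w => ∑' i, L i (w i)
        map_add' := fun v w => by
          simp only [Ell.add_apply, map_add]
          exact (summable_family hL v).tsum_add (summable_family hL w)
        map_smul' := fun c v => by
          simp only [Ell.smul_apply, map_smul, RingHom.id_apply]
          exact tsum_const_smul'' c } (Classical.choose hL)
      (fun w => by
        have hC := Classical.choose_spec hL
        set C := Classical.choose hL
        change ‖∑' i, L i (w i)‖ ≤ _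
        rw [Ell.norm_eq, ← tsum_mul_left]
        refine tsum_of_norm_bounded ((Ell.summable w).mul_left C).hasSum ?_
        intro i
        exact (L i).le_of_opNorm_le (hC i) _)
  else 0

omit [DecidableEq ι] in
theorem liftL_apply {L : ι → E →L[ℂ] F} (hL : Bdd L) (w : Ell ι E) :
    liftL L w = ∑' i, L i (w i) := by
  rw [liftL, dif_pos hL]; rfl

omit [DecidableEq ι] in
theorem hasSum_liftL {L : ι → E →L[ℂ] F} (hL : Bdd L) (w : Ell ι E) :
    HasSum (fun i => L i (w i)) (liftL L w) := by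
  rw [liftL_apply hL]
  exact (summable_family hL w).hasSum

theorem liftL_sgl {L : ι → E →L[ℂ] F} (hL : Bdd L) (i : ι) (x : E) :
    liftL L (sgl i x) = L i x := by
  rw [liftL_apply hL, tsum_eq_single i]
  · simp
  · intro j hj
    rw [sgl_apply, if_neg hj, map_zero]

omit [DecidableEq ι] in
theorem norm_liftL_le {L : ι → E →L[ℂ] F} {C : ℝ} (h0 : 0 ≤ C) (hC : ∀ i, ‖L i‖ ≤ C) :
    ‖liftL L‖ ≤ C := by
  refine ContinuousLinearMap.opNorm_le_bound _ h0 (fun w => ?_)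
  rw [liftL_apply ⟨C, hC⟩, Ell.norm_eq, ← tsum_mul_left]
  refine tsum_of_norm_bounded ((Ell.summable w).mul_left C).hasSum ?_
  intro i
  exact (L i).le_of_opNorm_le (hC i) _

/-! ### scalar version -/

/-- basis vectors of `ℓ¹(ι)` -/
def bas (i : ι) : Ell ι ℂ := sgl i 1

@[simp] theorem norm_bas (i : ι) : ‖bas i‖ = 1 := by simp [bas]

theorem bas_apply (i j : ι) : bas i j = if j = i then 1 else 0 := by simp [bas, sgl_apply]

theorem sgl_eq_smul (i : ι) (c : ℂ) : sgl i c = c • bas i := by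
  rw [bas, ← map_smul, smul_eq_mul, mul_one]

omit [CompleteSpace F] in
theorem bas_ext {S T : Ell ι ℂ →L[ℂ] F} (h : ∀ i, S (bas i) = T (bas i)) : S = T := by
  apply Ell.clm_ext
  intro i x
  rw [sgl_eq_smul, map_smul, map_smul, h]

/-- The operator with prescribed values on basis vectors. -/
def lift (f : ι → F) : Ell ι ℂ →L[ℂ] F :=
  liftL (fun i => ContinuousLinearMap.toSpanSingleton ℂ (f i))

omit [DecidableEq ι] [CompleteSpace F] in
theorem bdd_span {f : ι → F} {C : ℝ} (hf : ∀ i, ‖f i‖ ≤ C) :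
    ∀ i, ‖ContinuousLinearMap.toSpanSingleton ℂ (f i)‖ ≤ C := by
  intro i
  simpa using hf i

theorem lift_bas {f : ι → F} {C : ℝ} (hf : ∀ i, ‖f i‖ ≤ C) (i : ι) : lift f (bas i) = f i := by
  rw [lift, bas, liftL_sgl ⟨C, bdd_span hf⟩]
  simp

omit [DecidableEq ι] in
theorem norm_lift_le {f : ι → F} {C : ℝ} (h0 : 0 ≤ C) (hf : ∀ i, ‖f i‖ ≤ C) : ‖lift f‖ ≤ C :=
  norm_liftL_le h0 (bdd_span hf)

omit [CompleteSpace F] in
theorem norm_apply_bas_le (T : Ell ι ℂ →L[ℂ] F) (i : ι) : ‖T (bas i)‖ ≤ ‖T‖ := by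
  simpa using T.le_opNorm (bas i)

end basic

/-! ### finite-range-approximable families -/

section FR

variable {I : Type*} {ι κ : Type*} {E F G : Type*} [NormedAddCommGroup E] [NormedSpace ℂ E]
  [NormedAddCommGroup F] [NormedSpace ℂ F] [NormedAddCommGroup G] [NormedSpace ℂ G]

/-- uniformly approximable by functions with finite range (totally bounded range) -/
def FR (f : I → E) : Prop := ∀ ε > 0, ∃ s : Set E, s.Finite ∧ ∀ i, ∃ v ∈ s, ‖f i - v‖ ≤ ε

omit [NormedSpace ℂ E] in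
theorem FR.of_finite {f : I → E} (h : (range f).Finite) : FR f := by
  intro ε hε
  exact ⟨range f, h, fun i => ⟨f i, ⟨i, rfl⟩, by simpa using hε.le⟩⟩

omit [NormedSpace ℂ E] in
theorem FR.const (v : E) : FR (fun _ : I => v) :=
  FR.of_finite ((finite_singleton v).subset (by rintro _ ⟨i, rfl⟩; rfl))

omit [NormedSpace ℂ E] in
theorem FR.add {f g : I → E} (hf : FR f) (hg : FR g) : FR (fun i => f i + g i) := by
  intro ε hε
  obtain ⟨s, hs, h1⟩ := hf (ε / 2) (by positivity)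
  obtain ⟨t, ht, h2⟩ := hg (ε / 2) (by positivity)
  refine ⟨image2 (· + ·) s t, hs.image2 _ ht, fun i => ?_⟩
  obtain ⟨v, hv, h3⟩ := h1 i
  obtain ⟨w, hw, h4⟩ := h2 i
  refine ⟨v + w, mem_image2_of_mem hv hw, ?_⟩
  calc ‖f i + g i - (v + w)‖ = ‖(f i - v) + (g i - w)‖ := by congr 1; abel
    _ ≤ ‖f i - v‖ + ‖g i - w‖ := norm_add_le _ _
    _ ≤ ε := by linarith

theorem FR.clm {f : I → E} (hf : FR f) (T : E →L[ℂ] F) : FR (fun i => T (f i)) := by
  intro ε hε
  obtain ⟨s, hs, h1⟩ := hf (ε / (‖T‖ + 1)) (by positivity)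
  refine ⟨T '' s, hs.image _, fun i => ?_⟩
  obtain ⟨v, hv, h3⟩ := h1 i
  refine ⟨T v, mem_image_of_mem _ hv, ?_⟩
  rw [← map_sub]
  calc ‖T (f i - v)‖ ≤ ‖T‖ * ‖f i - v‖ := T.le_opNorm _
    _ ≤ (‖T‖ + 1) * (ε / (‖T‖ + 1)) := by
        apply mul_le_mul _ h3 (norm_nonneg _) (by positivity)
        linarith
    _ = ε := by field_simp

theorem FR.neg {f : I → E} (hf : FR f) : FR (fun i => - f i) := by
  simpa using hf.clm (-(ContinuousLinearMap.id ℂ E))

theorem FR.sub {f g : I → E} (hf : FR f) (hg : FR g) : FR (fun i => f i - g i) := by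
  simpa [sub_eq_add_neg] using hf.add hg.neg

omit [NormedSpace ℂ E] in
theorem FR.sum {f : κ → I → E} (s : Finset κ) (h : ∀ k ∈ s, FR (f k)) :
    FR (fun i => ∑ k ∈ s, f k i) := by
  classical
  induction s using Finset.induction_on with
  | empty => simpa using FR.const (0 : E)
  | insert a s ha ih =>
      simp only [Finset.sum_insert ha]
      exact (h a (Finset.mem_insert_self _ _)).add
        (ih (fun k hk => h k (Finset.mem_insert_of_mem hk)))

omit [NormedSpace ℂ E] in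
theorem FR.of_approx {f : I → E} (h : ∀ ε > 0, ∃ g : I → E, FR g ∧ ∀ i, ‖f i - g i‖ ≤ ε) :
    FR f := by
  intro ε hε
  obtain ⟨g, hg, h1⟩ := h (ε / 2) (by positivity)
  obtain ⟨s, hs, h2⟩ := hg (ε / 2) (by positivity)
  refine ⟨s, hs, fun i => ?_⟩
  obtain ⟨v, hv, h3⟩ := h2 i
  refine ⟨v, hv, ?_⟩
  calc ‖f i - v‖ = ‖(f i - g i) + (g i - v)‖ := by congr 1; abel
    _ ≤ ‖f i - g i‖ + ‖g i - v‖ := norm_add_le _ _
    _ ≤ ε := by linarith [h1 i]

/-- main closure property -/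
theorem FR.apply {Θ : I → E →L[ℂ] F} {C : ℝ} (hC : ∀ i, ‖Θ i‖ ≤ C)
    (hΘ : ∀ v, FR (fun i => Θ i v)) {f : I → E} (hf : FR f) : FR (fun i => Θ i (f i)) := by
  intro ε hε
  obtain ⟨s, hs, h1⟩ := hf (ε / 2 / (|C| + 1)) (by positivity)
  choose t ht h2 using fun v => hΘ v (ε / 2) (by positivity)
  refine ⟨⋃ v ∈ s, t v, hs.biUnion (fun v _ => ht v), fun i => ?_⟩
  obtain ⟨v, hv, h3⟩ := h1 i
  obtain ⟨w, hw, h4⟩ := h2 v i
  refine ⟨w, mem_biUnion hv hw, ?_⟩
  have h5 : ‖Θ i (f i - v)‖ ≤ ε / 2 := by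
    calc ‖Θ i (f i - v)‖ ≤ ‖Θ i‖ * ‖f i - v‖ := (Θ i).le_opNorm _
      _ ≤ (|C| + 1) * (ε / 2 / (|C| + 1)) := by
        apply mul_le_mul _ h3 (norm_nonneg _) (by positivity)
        linarith [hC i, le_abs_self C]
      _ = ε / 2 := by field_simp
  calc ‖Θ i (f i) - w‖ = ‖Θ i (f i - v) + (Θ i v - w)‖ := by rw [map_sub]; congr 1; abel
    _ ≤ ‖Θ i (f i - v)‖ + ‖Θ i v - w‖ := norm_add_le _ _
    _ ≤ ε := by linarith

theorem FR.ell [DecidableEq ι] {Θ : I → Ell ι E →L[ℂ] F} {C : ℝ} (hC : ∀ i, ‖Θ i‖ ≤ C)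
    (hΘ : ∀ l v, FR (fun i => Θ i (sgl l v))) (w : Ell ι E) : FR (fun i => Θ i w) := by
  apply FR.of_approx
  intro ε hε
  have h1 := hasSum_sgl w
  rw [HasSum, Metric.tendsto_nhds] at h1
  obtain ⟨s, hs⟩ := (h1 (ε / (|C| + 1)) (by positivity)).exists
  refine ⟨fun i => ∑ l ∈ s, Θ i (sgl l (w l)), FR.sum s (fun l _ => hΘ l _), fun i => ?_⟩
  beta_reduce
  rw [← map_sum, ← map_sub]
  rw [dist_comm, dist_eq_norm] at hs
  calc ‖Θ i (w - ∑ l ∈ s, sgl l (w l))‖ ≤ ‖Θ i‖ * ‖w - ∑ l ∈ s, sgl l (w l)‖ :=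
        (Θ i).le_opNorm _
    _ ≤ (|C| + 1) * (ε / (|C| + 1)) := by
        apply mul_le_mul _ hs.le (norm_nonneg _) (by positivity)
        linarith [hC i, le_abs_self C]
    _ = ε := by field_simp

theorem FR.ell_bas [DecidableEq ι] {Θ : I → Ell ι ℂ →L[ℂ] F} {C : ℝ} (hC : ∀ i, ‖Θ i‖ ≤ C)
    (hΘ : ∀ l, FR (fun i => Θ i (bas l))) (w : Ell ι ℂ) : FR (fun i => Θ i w) := by
  apply FR.ell hC
  intro l v
  simp only [sgl_eq_smul, map_smul]
  exact (hΘ l).clm (v • ContinuousLinearMap.id ℂ F)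

omit [NormedSpace ℂ E] in
theorem FR.totallyBounded {f : I → E} (hf : FR f) : TotallyBounded (range f) := by
  rw [Metric.totallyBounded_iff]
  intro ε hε
  obtain ⟨s, hs, h1⟩ := hf (ε / 2) (by positivity)
  refine ⟨s, hs, ?_⟩
  rintro _ ⟨i, rfl⟩
  obtain ⟨v, hv, h2⟩ := h1 i
  refine mem_biUnion hv ?_
  rw [Metric.mem_ball, dist_eq_norm]
  linarith

omit [NormedSpace ℂ E] in
theorem FR.bounded {f : I → E} (hf : FR f) : ∃ C, ∀ i, ‖f i‖ ≤ C := by
  obtain ⟨s, hs, h1⟩ := hf 1 one_pos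
  obtain ⟨C, hC⟩ := (hs.image norm).bddAbove
  refine ⟨C + 1, fun i => ?_⟩
  obtain ⟨v, hv, h2⟩ := h1 i
  have h3 : ‖v‖ ≤ C := hC (mem_image_of_mem _ hv)
  calc ‖f i‖ = ‖(f i - v) + v‖ := by congr 1; abel
    _ ≤ ‖f i - v‖ + ‖v‖ := norm_add_le _ _
    _ ≤ C + 1 := by linarith

end FR

end

end Pool.Agent.H83.Dim
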