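import Pool.Agent.H83.Dim.Tens
import Pool.Agent.H83.Dim.Ell1

/-! # Cutting `L¹` functions along measurable partitions (helper83, for MP_df984a_an) -/

namespace Pool.Agent.H83.Dim

open Filter Topology Set MeasureTheory
open scoped ENNReal

noncomputable section

set_option linter.unusedSectionVars false

section meas

variable {G : Type*} [MeasurableSpace G] (μ : Measure G)
  {Q X : Type*} [NormedAddCommGroup Q] [NormedSpace ℂ Q]
  [NormedAddCommGroup X] [NormedSpace ℂ X]

open Classical in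
/-- multiplication by the indicator of `S` (and `0` if `S` is not measurable) -/
def cutFun (S : Set G) (F : Lp Q 1 μ) : Lp Q 1 μ :=
  if hS : MeasurableSet S then ((Lp.memLp F).indicator hS).toLp _ else 0

variable {S T : Set G}

theorem coeFn_cutFun (hS : MeasurableSet S) (F : Lp Q 1 μ) :
    cutFun μ S F =ᵐ[μ] S.indicator F := by
  rw [cutFun, dif_pos hS]
  exact MemLp.coeFn_toLp _

theorem norm_cutFun (hS : MeasurableSet S) (F : Lp Q 1 μ) :
    ‖cutFun μ S F‖ = ∫ x in S, ‖F x‖ ∂μ := by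
  rw [L1.norm_eq_integral_norm, ← integral_indicator hS]
  apply integral_congr_ae
  filter_upwards [coeFn_cutFun μ hS F] with x hx
  rw [hx, norm_indicator_eq_indicator_norm]

theorem norm_cutFun_le (S : Set G) (F : Lp Q 1 μ) : ‖cutFun μ S F‖ ≤ ‖F‖ := by
  by_cases hS : MeasurableSet S
  · rw [norm_cutFun μ hS, L1.norm_eq_integral_norm]
    exact setIntegral_le_integral (L1.integrable_coeFn F).norm
      (Eventually.of_forall (fun x => norm_nonneg _))
  · rw [cutFun, dif_neg hS, norm_zero]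
    exact norm_nonneg _

/-- `cut` as an operator -/
def cut (S : Set G) : Lp Q 1 μ →L[ℂ] Lp Q 1 μ :=
  LinearMap.mkContinuous
    { toFun := cutFun μ S
      map_add' := fun F F' => by
        by_cases hS : MeasurableSet S
        · apply Lp.ext
          filter_upwards [coeFn_cutFun μ hS (F + F'), coeFn_cutFun μ hS F, coeFn_cutFun μ hS F',
            Lp.coeFn_add F F', Lp.coeFn_add (cutFun μ S F) (cutFun μ S F')] with x h1 h2 h3 h4 h5
          rw [h1, h5, Pi.add_apply, h2, h3]
          by_cases hx : x ∈ S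
          · rw [indicator_of_mem hx, indicator_of_mem hx, indicator_of_mem hx, h4, Pi.add_apply]
          · simp [hx]
        · simp only [cutFun, dif_neg hS, add_zero]
      map_smul' := fun c F => by
        by_cases hS : MeasurableSet S
        · apply Lp.ext
          filter_upwards [coeFn_cutFun μ hS (c • F), coeFn_cutFun μ hS F,
            Lp.coeFn_smul c F, Lp.coeFn_smul c (cutFun μ S F)] with x h1 h2 h4 h5
          rw [h1, RingHom.id_apply, h5, Pi.smul_apply, h2]
          by_cases hx : x ∈ S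
          · rw [indicator_of_mem hx, indicator_of_mem hx, h4, Pi.smul_apply]
          · simp [hx]
        · simp only [cutFun, dif_neg hS, smul_zero] }
    1 (fun F => by rw [one_mul]; exact norm_cutFun_le μ S F)

theorem coeFn_cut (hS : MeasurableSet S) (F : Lp Q 1 μ) : cut μ S F =ᵐ[μ] S.indicator F :=
  coeFn_cutFun μ hS F

theorem norm_cut (hS : MeasurableSet S) (F : Lp Q 1 μ) : ‖cut μ S F‖ = ∫ x in S, ‖F x‖ ∂μ :=
  norm_cutFun μ hS F

theorem norm_cut_le (S : Set G) (F : Lp Q 1 μ) : ‖cut μ S F‖ ≤ ‖F‖ := norm_cutFun_le μ S F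

theorem cut_cut (hS : MeasurableSet S) (hT : MeasurableSet T) (F : Lp Q 1 μ) :
    cut μ S (cut μ T F) = cut μ (S ∩ T) F := by
  apply Lp.ext
  filter_upwards [coeFn_cut μ hS (cut μ T F), coeFn_cut μ hT F,
    coeFn_cut μ (hS.inter hT) F] with x h1 h2 h3
  rw [h1, h3]
  by_cases hx : x ∈ S
  · by_cases hy : x ∈ T
    · have hxy : x ∈ S ∩ T := ⟨hx, hy⟩
      rw [indicator_of_mem hx, h2, indicator_of_mem hy, indicator_of_mem hxy]
    · have hxy : x ∉ S ∩ T := fun h => hy h.2
      rw [indicator_of_mem hx, h2, indicator_of_notMem hy, indicator_of_notMem hxy]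
  · have hxy : x ∉ S ∩ T := fun h => hx h.1
    rw [indicator_of_notMem hx, indicator_of_notMem hxy]

theorem cut_empty (F : Lp Q 1 μ) : cut μ ∅ F = 0 := by
  rw [← norm_eq_zero, norm_cut μ MeasurableSet.empty]
  simp

theorem hasSum_norm_cut {ψ : G → ℕ} (hψ : Measurable ψ) (F : Lp Q 1 μ) :
    HasSum (fun j => ‖cut μ (ψ ⁻¹' {j}) F‖) ‖F‖ := by
  have hm : ∀ j, MeasurableSet (ψ ⁻¹' {j}) := fun j => hψ (measurableSet_singleton j)
  have h := hasSum_integral_iUnion (μ := μ) (f := fun x => ‖F x‖) (s := fun j => ψ ⁻¹' {j}) hm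
    (by
      intro i j hij
      exact Disjoint.preimage ψ (by simpa using hij))
    (L1.integrable_coeFn F).norm.integrableOn
  have hU : (⋃ j, ψ ⁻¹' {j}) = univ := by
    ext x; simp
  rw [hU, Measure.restrict_univ] at h
  rw [L1.norm_eq_integral_norm]
  simp only [norm_cut μ (hm _)]
  exact h

/-- splitting along `ψ` -/
def split (ψ : G → ℕ) (F : Lp Q 1 μ) : Ell ℕ (Lp Q 1 μ) :=
  open Classical in
  if h : Measurable ψ then Ell.mk (fun j => cut μ (ψ ⁻¹' {j}) F) (hasSum_norm_cut μ h F).summable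
  else 0

theorem split_apply {ψ : G → ℕ} (hψ : Measurable ψ) (F : Lp Q 1 μ) (j : ℕ) :
    split μ ψ F j = cut μ (ψ ⁻¹' {j}) F := by
  rw [split, dif_pos hψ]; rfl

theorem norm_split {ψ : G → ℕ} (hψ : Measurable ψ) (F : Lp Q 1 μ) : ‖split μ ψ F‖ = ‖F‖ := by
  rw [Ell.norm_eq]
  simp only [split_apply μ hψ]
  exact (hasSum_norm_cut μ hψ F).tsum_eq

theorem split_add {ψ : G → ℕ} (hψ : Measurable ψ) (F F' : Lp Q 1 μ) :
    split μ ψ (F + F') = split μ ψ F + split μ ψ F' := by
  apply Ell.ext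
  intro j
  rw [Ell.add_apply, split_apply μ hψ, split_apply μ hψ, split_apply μ hψ, map_add]

theorem split_smul {ψ : G → ℕ} (hψ : Measurable ψ) (c : ℂ) (F : Lp Q 1 μ) :
    split μ ψ (c • F) = c • split μ ψ F := by
  apply Ell.ext
  intro j
  rw [Ell.smul_apply, split_apply μ hψ, split_apply μ hψ, map_smul]

/-- splitting as an operator -/
def splitL {ψ : G → ℕ} (hψ : Measurable ψ) : Lp Q 1 μ →L[ℂ] Ell ℕ (Lp Q 1 μ) :=
  LinearMap.mkContinuous
    { toFun := split μ ψ
      map_add' := split_add μ hψ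
      map_smul' := split_smul μ hψ }
    1 (fun F => by rw [one_mul]; exact (norm_split μ hψ F).le)

theorem splitL_apply {ψ : G → ℕ} (hψ : Measurable ψ) (F : Lp Q 1 μ) :
    splitL μ hψ F = split μ ψ F := rfl

theorem norm_splitL_le {ψ : G → ℕ} (hψ : Measurable ψ) :
    ‖(splitL μ hψ : Lp Q 1 μ →L[ℂ] Ell ℕ (Lp Q 1 μ))‖ ≤ 1 :=
  LinearMap.mkContinuous_norm_le _ zero_le_one _

variable [CompleteSpace Q]

theorem hasSum_cut {ψ : G → ℕ} (hψ : Measurable ψ) (F : Lp Q 1 μ) :
    HasSum (fun j => cut μ (ψ ⁻¹' {j}) F) F := by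
  have hm : ∀ j, MeasurableSet (ψ ⁻¹' {j}) := fun j => hψ (measurableSet_singleton j)
  have hs : Summable (fun j => cut μ (ψ ⁻¹' {j}) F) :=
    Summable.of_norm (hasSum_norm_cut μ hψ F).summable
  have h1 := hs.hasSum
  set F' := ∑' j, cut μ (ψ ⁻¹' {j}) F with hF'
  have h2 : ∀ i, cut μ (ψ ⁻¹' {i}) F' = cut μ (ψ ⁻¹' {i}) F := by
    intro i
    have h3 := h1.mapL (cut μ (ψ ⁻¹' {i}) : Lp Q 1 μ →L[ℂ] Lp Q 1 μ)
    have h4 : HasSum (fun j => cut μ (ψ ⁻¹' {i}) (cut μ (ψ ⁻¹' {j}) F))
        (cut μ (ψ ⁻¹' {i}) F) := by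
      have h5 : ∀ j, cut μ (ψ ⁻¹' {i}) (cut μ (ψ ⁻¹' {j}) F) =
          if j = i then cut μ (ψ ⁻¹' {i}) F else 0 := by
        intro j
        rw [cut_cut μ (hm i) (hm j), ← preimage_inter]
        by_cases hij : j = i
        · rw [if_pos hij, hij, inter_self]
        · rw [if_neg hij, singleton_inter_eq_empty.2 (by simpa using fun h => hij h.symm),
            preimage_empty, cut_empty]
      simp only [h5]
      exact hasSum_ite_eq _ _
    exact h3.unique h4
  have h6 : F' = F := by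
    rw [← sub_eq_zero, ← norm_eq_zero]
    have h7 := hasSum_norm_cut μ hψ (F' - F)
    simp only [map_sub, h2, sub_self, norm_zero] at h7
    exact h7.unique hasSum_zero
  rwa [h6] at h1

end meas

section group

variable {G : Type*} [Group G] [TopologicalSpace G] [IsTopologicalGroup G]
  [LocallyCompactSpace G] [MeasurableSpace G] [BorelSpace G]
  (μ : Measure G) [μ.IsHaarMeasure] [μ.Regular]
  {Q X : Type*} [NormedAddCommGroup Q] [NormedSpace ℂ Q]
  [NormedAddCommGroup X] [NormedSpace ℂ X]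

theorem tr_cut_tr {S : Set G} (hS : MeasurableSet S) (g : G) (F : Lp Q 1 μ) :
    tr μ g⁻¹ (cut μ S (tr μ g F)) = cut μ ((fun x => g * x) ⁻¹' S) F := by
  have hS' : MeasurableSet ((fun x => g * x) ⁻¹' S) := (measurable_const_mul g) hS
  apply Lp.ext
  have h1 := coeFn_tr μ g⁻¹ (cut μ S (tr μ g F))
  rw [inv_inv] at h1
  have h2 := (measurePreserving_mul_left μ g).quasiMeasurePreserving.ae
    (coeFn_cut μ hS (tr μ g F))
  have h3 := (measurePreserving_mul_left μ g).quasiMeasurePreserving.ae (coeFn_tr μ g F)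
  filter_upwards [h1, h2, h3, coeFn_cut μ hS' F] with x h1 h2 h3 h4
  rw [h1, h2, h4]
  by_cases hx : g * x ∈ S
  · rw [indicator_of_mem hx, indicator_of_mem (s := (fun x => g * x) ⁻¹' S) hx, h3,
      inv_mul_cancel_left]
  · rw [indicator_of_notMem hx, indicator_of_notMem (s := (fun x => g * x) ⁻¹' S) hx]

end group

end

end Pool.Agent.H83.Dim
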