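import Pool.Agent.H83.Dim.L1Alg

/-! # Working definitions (with bundled continuous linear maps) for the proof (helper83,
MP_df984a_an)

The definitions used in the statement are in `Stmt.lean` and `L1Alg.lean`. -/

namespace Pool.Agent.H83.Dim

open Filter Topology Set MeasureTheory
open scoped ENNReal

noncomputable section

universe u

section defs

variable (A : Type u) [NonUnitalNormedRing A] [NormedSpace ℂ A]

/-- A left Banach `A`-module: a complex Banach space with a bounded bilinear action
`(a, x) ↦ act a x` of `A` such that `(ab)x = a(bx)`. -/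
structure LMod where
  /-- the underlying Banach space -/
  carrier : Type u
  [grp : NormedAddCommGroup carrier]
  [spc : NormedSpace ℂ carrier]
  [cpl : CompleteSpace carrier]
  /-- the action -/
  act : A →L[ℂ] carrier →L[ℂ] carrier
  act_mul : ∀ a b x, act (a * b) x = act a (act b x)

attribute [instance] LMod.grp LMod.spc LMod.cpl

instance : CoeSort (LMod A) (Type u) := ⟨LMod.carrier⟩

variable {A}

/-- A morphism of left Banach `A`-modules: a bounded linear `A`-module map. -/
structure Mor (X Y : LMod A) where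
  /-- the underlying bounded linear map -/
  map : X →L[ℂ] Y
  map_act : ∀ a x, map (X.act a x) = Y.act a (map x)

/-- `P` is projective: every module morphism `Y → P` with a bounded linear right inverse has a
right inverse which is a module morphism. -/
def Projective (P : LMod A) : Prop :=
  ∀ (Y : LMod A) (f : Mor Y P), (∃ s : P →L[ℂ] Y, ∀ p, f.map (s p) = p) →
    ∃ s : Mor P Y, ∀ p, f.map (s.map p) = p

/-- A projective resolution `0 ← X ← P₀ ← P₁ ← ⋯` of `X`: a complex of modules with every `P_k`
projective, which is admissible, i.e. splits as a complex of Banach spaces (it has a bounded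
linear contracting homotopy `s`). -/
structure Resolution (X : LMod A) where
  P : ℕ → LMod A
  ε : Mor (P 0) X
  d : ∀ k, Mor (P (k + 1)) (P k)
  projective : ∀ k, Projective (P k)
  ε_d : ∀ p, ε.map ((d 0).map p) = 0
  d_d : ∀ k p, (d k).map ((d (k + 1)).map p) = 0
  s₀ : X →L[ℂ] P 0
  s : ∀ k, P k →L[ℂ] P (k + 1)
  ε_s₀ : ∀ x, ε.map (s₀ x) = x
  split₀ : ∀ p, s₀ (ε.map p) + (d 0).map (s 0 p) = p
  split : ∀ k p, s k ((d k).map p) + (d (k + 1)).map (s (k + 1) p) = p

/-- The homological dimension `dh_A X`: the least `n` for which `X` has a projective resolution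
with `P_k = 0` for all `k > n`, and `∞` if there is no such `n`. -/
def dh (X : LMod A) : ℕ∞ :=
  ⨅ (n : ℕ) (_ : ∃ R : Resolution X, ∀ k, n < k → Subsingleton (R.P k)), (n : ℕ∞)

variable (A) in
/-- The left global dimension `dg A`. -/
def dg : ℕ∞ := ⨆ X : LMod A, dh X

/-- `X` is irreducible: the action is non-zero and `0` and `X` are the only submodules. -/
def Irreducible (X : LMod A) : Prop :=
  (∃ a x, X.act a x ≠ 0) ∧
    ∀ S : Submodule ℂ X, (∀ a, ∀ x ∈ S, X.act a x ∈ S) → S = ⊥ ∨ S = ⊤

variable (A) in
/-- The left small dimension `ds A`. -/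
def ds : ℕ∞ := ⨆ (X : LMod A) (_ : Irreducible X), dh X

theorem dh_eq_top {X : LMod A}
    (h : ∀ (n : ℕ) (R : Resolution X), ¬ ∀ k, n < k → Subsingleton (R.P k)) : dh X = ⊤ := by
  rw [dh]
  simp only [iInf_eq_top]
  rintro n ⟨R, hR⟩
  exact absurd hR (h n R)

/-- The one-dimensional module `ℂ_χ` given by a bounded multiplicative functional `χ` on `A`:
`a · z = χ(a) z`. -/
def charMod (χ : A →L[ℂ] ℂ) (hχ : ∀ a b, χ (a * b) = χ a * χ b) : LMod A where
  carrier := ULift.{u} ℂ
  act := χ.smulRight (ContinuousLinearMap.id ℂ (ULift.{u} ℂ))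
  act_mul := fun a b z => by
    change χ (a * b) • z = χ a • χ b • z
    rw [hχ, mul_smul]

/-! ### Bimodules -/

variable (A) in
/-- A Banach `A`-bimodule: a complex Banach space with bounded bilinear commuting actions of `A`
on the left, `lact a x = a · x`, and on the right, `ract a x = x · a`. -/
structure BMod where
  /-- the underlying Banach space -/
  carrier : Type u
  [grp : NormedAddCommGroup carrier]
  [spc : NormedSpace ℂ carrier]
  [cpl : CompleteSpace carrier]
  /-- left action -/
  lact : A →L[ℂ] carrier →L[ℂ] carrier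
  /-- right action -/
  ract : A →L[ℂ] carrier →L[ℂ] carrier
  lact_mul : ∀ a b x, lact (a * b) x = lact a (lact b x)
  ract_mul : ∀ a b x, ract (a * b) x = ract b (ract a x)
  comm : ∀ a b x, lact a (ract b x) = ract b (lact a x)

attribute [instance] BMod.grp BMod.spc BMod.cpl

instance : CoeSort (BMod A) (Type u) := ⟨BMod.carrier⟩

/-- A morphism of Banach `A`-bimodules. -/
structure BMor (X Y : BMod A) where
  /-- the underlying bounded linear map -/
  map : X →L[ℂ] Y
  map_lact : ∀ a x, map (X.lact a x) = Y.lact a (map x)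
  map_ract : ∀ a x, map (X.ract a x) = Y.ract a (map x)

/-- `P` is a projective bimodule. -/
def BProjective (P : BMod A) : Prop :=
  ∀ (Y : BMod A) (f : BMor Y P), (∃ s : P →L[ℂ] Y, ∀ p, f.map (s p) = p) →
    ∃ s : BMor P Y, ∀ p, f.map (s.map p) = p

/-- A projective resolution of the bimodule `X` (admissible, i.e. split as a complex of Banach
spaces). -/
structure BResolution (X : BMod A) where
  P : ℕ → BMod A
  ε : BMor (P 0) X
  d : ∀ k, BMor (P (k + 1)) (P k)
  projective : ∀ k, BProjective (P k)
  ε_d : ∀ p, ε.map ((d 0).map p) = 0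
  d_d : ∀ k p, (d k).map ((d (k + 1)).map p) = 0
  s₀ : X →L[ℂ] P 0
  s : ∀ k, P k →L[ℂ] P (k + 1)
  ε_s₀ : ∀ x, ε.map (s₀ x) = x
  split₀ : ∀ p, s₀ (ε.map p) + (d 0).map (s 0 p) = p
  split : ∀ k p, s k ((d k).map p) + (d (k + 1)).map (s (k + 1) p) = p

/-- The homological dimension `dh_{A-A} X` of a bimodule. -/
def dhB (X : BMod A) : ℕ∞ :=
  ⨅ (n : ℕ) (_ : ∃ R : BResolution X, ∀ k, n < k → Subsingleton (R.P k)), (n : ℕ∞)

variable (A) [IsScalarTower ℂ A A] [SMulCommClass ℂ A A]

/-- The unitization `A₊ = ℂ ⊕ A` with the norm `‖λ + a‖ = |λ| + ‖a‖`. -/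
abbrev Plus : Type u := WithLp 1 (Unitization ℂ A)

/-- the inclusion `A → A₊` -/
def inPlus : A →L[ℂ] Plus A :=
  LinearMap.mkContinuous
    { toFun := fun a => WithLp.toLp 1 (a : Unitization ℂ A)
      map_add' := fun a b => by rw [Unitization.inr_add]; rfl
      map_smul' := fun c a => by rw [Unitization.inr_smul]; rfl }
    1 (fun a => by rw [one_mul]; exact (WithLp.unitization_norm_inr a).le)

/-- `A₊` as an `A`-bimodule, by multiplication. -/
def plusMod [CompleteSpace A] : BMod A where
  carrier := Plus A
  lact := (ContinuousLinearMap.mul ℂ (Plus A)).comp (inPlus A)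
  ract := (ContinuousLinearMap.mul ℂ (Plus A)).flip.comp (inPlus A)
  lact_mul := fun a b x => by
    change inPlus A (a * b) * x = inPlus A a * (inPlus A b * x)
    rw [← mul_assoc]
    congr 1
    exact congrArg (WithLp.toLp 1) (Unitization.inr_mul ℂ a b)
  ract_mul := fun a b x => by
    change x * inPlus A (a * b) = x * inPlus A a * inPlus A b
    rw [mul_assoc]
    congr 1
    exact congrArg (WithLp.toLp 1) (Unitization.inr_mul ℂ a b)
  comm := fun a b x => (mul_assoc (inPlus A a) x (inPlus A b)).symm

/-- The (homological) bidimension `db A = dh_{A-A} A₊`. -/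
def db [CompleteSpace A] : ℕ∞ := dhB (plusMod A)

end defs

/-! ## The augmentation module -/

section group

variable {G : Type u} [Group G] [TopologicalSpace G] [IsTopologicalGroup G]
  [LocallyCompactSpace G] [MeasurableSpace G] [BorelSpace G]
  (μ : Measure G) [μ.IsHaarMeasure] [μ.Regular]

/-- The augmentation functional `f ↦ ∫ f dμ`. -/
def intL : L1Alg μ →L[ℂ] ℂ :=
  LinearMap.mkContinuous
    { toFun := fun f : Lp ℂ 1 μ => ∫ t, f t ∂μ
      map_add' := fun f g => by
        rw [← integral_add (L1.integrable_coeFn f) (L1.integrable_coeFn g)]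
        exact integral_congr_ae (Lp.coeFn_add f g)
      map_smul' := fun c f => by
        rw [RingHom.id_apply, ← integral_smul]
        exact integral_congr_ae (Lp.coeFn_smul c f) }
    1 (fun f => by
      rw [one_mul]
      exact (norm_integral_le_integral_norm _).trans (L1.norm_eq_integral_norm f).ge)

theorem intL_apply (f : Lp ℂ 1 μ) : intL μ f = ∫ t, f t ∂μ := rfl

/-- the trivial representation of `G` on `ℂ` -/
def trivRep : Rep G (ULift.{u} ℂ) where
  π := fun _ => ContinuousLinearMap.id ℂ _
  C := 1
  bound := fun _ => ContinuousLinearMap.norm_id_le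
  cont := fun _ => continuous_const
  mul := fun _ _ _ => rfl

theorem trivRep_int (f : Lp ℂ 1 μ) (z : ULift.{u} ℂ) :
    trivRep.int μ f z = (∫ t, f t ∂μ) • z := by
  rw [Rep.int_apply]
  exact integral_smul_const _ _

theorem intL_conv (f g : Lp ℂ 1 μ) : intL μ (conv μ f g) = intL μ f * intL μ g := by
  have h := int_conv μ trivRep f g (ULift.up (1 : ℂ) : ULift.{u} ℂ)
  rw [trivRep_int, trivRep_int, trivRep_int] at h
  have h2 := congrArg ULift.down h
  simp only [ULift.smul_down, smul_eq_mul, mul_one] at h2
  exact h2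

/-- The augmentation module: `ℂ` with the action `f · z = (∫ f dμ) z` of `L¹(G)`. -/
def augMod : LMod (L1Alg μ) := charMod (intL μ) (intL_conv μ)

end group

end

end Pool.Agent.H83.Dim
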