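import Pool.Agent.H83.Dim.TensX
import Pool.Agent.H83.Dim.Conv

/-! # `dg A ≤ db A`, part 2 (helper83, for MP_216d05_an) -/

namespace Pool.Agent.H83.TX

open Pool.Agent.H83.Dim

open Filter Topology Set

noncomputable section

set_option linter.unusedSectionVars false

universe u

variable {A : Type u} [NonUnitalNormedRing A] [NormedSpace ℂ A] [CompleteSpace A]
  [IsScalarTower ℂ A A] [SMulCommClass ℂ A A]

/-- a left module as a bimodule with zero right action -/
def zb (X : LMod A) : BMod A where
  carrier := X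
  lact := X.act
  ract := 0
  lact_mul := X.act_mul
  ract_mul := fun a b x => rfl
  comm := fun a b x => by
    change X.act a 0 = 0
    rw [map_zero]

variable (X : LMod A)

/-- the action of `A₊` on a left module -/
def px : Plus A →L[ℂ] X →L[ℂ] X := lext (zb X)

theorem px_apply (b : Plus A) (x : X) :
    px X b x = (WithLp.ofLp b).fst • x + X.act (WithLp.ofLp b).snd x := rfl

theorem px_one (x : X) : px X 1 x = x := lext_one (zb X) x

theorem px_mul_in (b : Plus A) (a : A) (x : X) :
    px X (b * inPlus A a) x = px X b (X.act a x) := lext_mul_in (zb X) b a x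

theorem px_in_mul (b : Plus A) (a : A) (x : X) :
    px X (inPlus A a * b) x = X.act a (px X b x) := by
  rw [px_apply, px_apply]
  have h1 : (WithLp.ofLp (inPlus A a * b)).fst = 0 := by
    change 0 * (WithLp.ofLp b).fst = 0
    rw [zero_mul]
  have h2 : (WithLp.ofLp (inPlus A a * b)).snd =
      (WithLp.ofLp b).fst • a + a * (WithLp.ofLp b).snd := by
    change (0 : ℂ) • (WithLp.ofLp b).snd + (WithLp.ofLp b).fst • a + a * (WithLp.ofLp b).snd = _
    rw [zero_smul, zero_add]
  rw [h1, h2, zero_smul, zero_add, map_add, map_smul, _root_.add_apply, _root_.smul_apply,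
    X.act_mul, map_add, map_smul]

/-- `A₊ ⊗_A X → X` -/
def rhoX : Mor (tens X (plusMod A)) X where
  map := qlift (P := plusMod A) (px X) (fun a p x => px_mul_in X p a x)
  map_act := fun a Φ => by
    exact tens_ext' (X := X) (P := plusMod A)
      (f := (qlift (P := plusMod A) (px X) (fun a p x => px_mul_in X p a x)).comp
        ((tens X (plusMod A)).act a))
      (g := (X.act a).comp (qlift (P := plusMod A) (px X) (fun a p x => px_mul_in X p a x)))
      (fun p x => by
        rw [ContinuousLinearMap.comp_apply, ContinuousLinearMap.comp_apply, tens_act_tq, qlift_tq,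
          qlift_tq]
        exact px_in_mul X p a x) Φ

theorem rhoX_tq (b : plusMod A) (x : X) :
    (rhoX X).map (tq X (plusMod A) b x) = px X b x :=
  qlift_tq (P := plusMod A) (px X) (fun a p x => px_mul_in X p a x) b x

/-- `x ↦ 1 ⊗ x` -/
def oneX : X →L[ℂ] tens X (plusMod A) := tq X (plusMod A) (show Plus A from 1)

theorem oneX_px (b : Plus A) (x : X) : oneX X (px X b x) = tq X (plusMod A) b x := by
  have h1 : tq X (plusMod A) (show (plusMod A).carrier from inPlus A (WithLp.ofLp b).snd) x =
      oneX X (X.act (WithLp.ofLp b).snd x) := by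
    have h2 := tq_bal X (plusMod A) (WithLp.ofLp b).snd (show Plus A from 1) x
    have h3 : (plusMod A).ract (WithLp.ofLp b).snd (show Plus A from 1) =
        (show Plus A from inPlus A (WithLp.ofLp b).snd) := by
      change (1 : Plus A) * inPlus A (WithLp.ofLp b).snd = _
      rw [one_mul]
    rw [h3] at h2
    exact h2
  have hb : b = (WithLp.ofLp b).fst • (1 : Plus A) + inPlus A (WithLp.ofLp b).snd := by
    apply (WithLp.linearEquiv 1 ℂ (Unitization ℂ A)).injective
    change WithLp.ofLp b =
      (WithLp.ofLp b).fst • (1 : Unitization ℂ A) + ((WithLp.ofLp b).snd : Unitization ℂ A)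
    ext
    · simp
    · simp
  rw [px_apply, map_add, map_smul, ← h1]
  conv_rhs => rw [hb]
  have h4 : tq X (plusMod A) (show (plusMod A).carrier from
      ((WithLp.ofLp b).fst • (1 : Plus A) + inPlus A (WithLp.ofLp b).snd)) =
      (WithLp.ofLp b).fst • tq X (plusMod A) (show (plusMod A).carrier from (1 : Plus A)) +
        tq X (plusMod A) (show (plusMod A).carrier from inPlus A (WithLp.ofLp b).snd) := by
    rw [← map_smul, ← map_add]; rfl
  exact (congrArg (fun f => f x) h4).symm

variable (R : BResolution (plusMod A))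

theorem IsR_comp {P Q S : BMod A} {f : P →L[ℂ] Q} {g : Q →L[ℂ] S} (hf : IsR f) (hg : IsR g) :
    IsR (g.comp f) := by
  intro a x
  rw [ContinuousLinearMap.comp_apply, hf, hg]; rfl

theorem key_split (k : ℕ) (Φ : tens X (bM R (k + 1))) :
    tmap (tt R k).1 (tt R k).2.1 ((tmor X (bD R k)).map Φ) +
      (tmor X (bD R (k + 1))).map (tmap (tt R (k + 1)).1 (tt R (k + 1)).2.1 Φ) = Φ :=
  tens_ext' (X := X) (P := bM R (k + 1))
    (f := (tmap (tt R k).1 (tt R k).2.1).comp (tmor X (bD R k)).map +
      (tmor X (bD R (k + 1))).map.comp (tmap (tt R (k + 1)).1 (tt R (k + 1)).2.1))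
    (g := ContinuousLinearMap.id ℂ _) (fun p x => by
      rw [_root_.add_apply, ContinuousLinearMap.comp_apply, ContinuousLinearMap.comp_apply,
        tmor_tq, tmap_tq, tmap_tq, tmor_tq, ContinuousLinearMap.id_apply]
      conv_rhs => rw [← tt_succ R k p]
      rw [map_add]; rfl) Φ

theorem key_dd (k : ℕ) (Φ : tens X (bM R (k + 2))) :
    (tmor X (bD R k)).map ((tmor X (bD R (k + 1))).map Φ) = 0 :=
  tens_ext' (X := X) (P := bM R (k + 2))
    (f := (tmor X (bD R k)).map.comp (tmor X (bD R (k + 1))).map)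
    (g := 0) (fun p x => by
      rw [ContinuousLinearMap.comp_apply, tmor_tq, tmor_tq, bDD, map_zero]; rfl) Φ

/-- `A₊ ⊗_A X → X` -/
def rhoR : Mor (tens X (bM R 0)) X := rhoX X

/-- `x ↦ 1 ⊗ x` -/
def oneR : X →L[ℂ] tens X (bM R 0) := oneX X

theorem key_zero (x : X) : (tmor X (bD R 0)).map (tmap (tt R 0).1 (tt R 0).2.1 (oneR X R x)) =
    oneR X R x := by
  have h1 : tmap (tt R 0).1 (tt R 0).2.1 (oneR X R x) =
    tq X (bM R 1) ((tt R 0).1 (show Plus A from 1)) x := tmap_tq _ _ _ _
  rw [h1, tmor_tq, tt_zero]; rfl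

theorem rho_one (x : X) : (rhoR X R).map (oneR X R x) = x := (rhoX_tq X _ x).trans (px_one X x)

theorem one_rho (Φ : tens X (bM R 0)) : oneR X R ((rhoR X R).map Φ) = Φ :=
  tens_ext' (X := X) (P := plusMod A) (f := (oneX X).comp (rhoX X).map)
    (g := ContinuousLinearMap.id ℂ _) (fun p x => by
      rw [ContinuousLinearMap.comp_apply, rhoX_tq, oneX_px]; rfl) Φ

/-- the resolution of `X` obtained from a bimodule resolution of `A₊` -/
def resX : Resolution X where
  P := fun k => tens X (bM R (k + 1))
  ε := { map := (rhoR X R).map.comp (tmor X (bD R 0)).map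
         map_act := fun a x => by
          rw [ContinuousLinearMap.comp_apply, (tmor X (bD R 0)).map_act, (rhoR X R).map_act]; rfl }
  d := fun k => tmor X (bD R (k + 1))
  projective := fun k => tens_projective (R.projective k)
  ε_d := fun Φ => by
    rw [ContinuousLinearMap.comp_apply, key_dd, map_zero]
  d_d := fun k Φ => key_dd X R (k + 1) Φ
  s₀ := (tmap (tt R 0).1 (tt R 0).2.1).comp (oneR X R)
  s := fun k => tmap (tt R (k + 1)).1 (tt R (k + 1)).2.1
  ε_s₀ := fun x => by
    rw [ContinuousLinearMap.comp_apply, ContinuousLinearMap.comp_apply, key_zero]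
    exact rho_one X R x
  split₀ := fun Φ => by
    have h := key_split X R 0 Φ
    rw [ContinuousLinearMap.comp_apply, ContinuousLinearMap.comp_apply, one_rho]
    exact h
  split := fun k Φ => key_split X R (k + 1) Φ

theorem tens_subsingleton {P : BMod A} (h : Subsingleton P) : Subsingleton (tens X P) := by
  refine ⟨fun Φ Ψ => ?_⟩
  have h1 : ∀ Φ : tens X P, Φ = 0 := fun Φ =>
    tens_ext' (X := X) (P := P) (f := ContinuousLinearMap.id ℂ _) (g := 0) (fun p x => by
      have : p = 0 := Subsingleton.elim _ _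
      rw [this, map_zero]; rfl) Φ
  rw [h1 Φ, h1 Ψ]

end

end Pool.Agent.H83.TX

namespace Pool.Agent.H83.HD

noncomputable section

universe u

variable {A : Type u} [NonUnitalNormedRing A] [NormedSpace ℂ A]

theorem proj_ofD {P : Dim.LMod A} (hP : Dim.Projective P) : Projective (ofD P) := by
  rintro Y f ⟨s, hs, hs'⟩
  obtain ⟨t, ht⟩ := hP (toD Y) ⟨f.bdd.toContinuousLinearMap, f.map_act⟩
    ⟨hs.toContinuousLinearMap, hs'⟩
  exact ⟨⟨fun p => t.map p, t.map.isBoundedLinearMap, t.map_act⟩, ht⟩

/-- conversion of resolutions -/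
def resOfD (X : LMod A) (R : Dim.Resolution (toD X)) : Resolution X where
  P := fun k => ofD (R.P k)
  ε := ⟨fun p => R.ε.map p, R.ε.map.isBoundedLinearMap, R.ε.map_act⟩
  d := fun k => ⟨fun p => (R.d k).map p, (R.d k).map.isBoundedLinearMap, (R.d k).map_act⟩
  projective := fun k => proj_ofD (R.projective k)
  ε_d := R.ε_d
  d_d := R.d_d
  s₀ := fun x => R.s₀ x
  s := fun k x => R.s k x
  s₀_bdd := R.s₀.isBoundedLinearMap
  s_bdd := fun k => (R.s k).isBoundedLinearMap
  ε_s₀ := R.ε_s₀
  split₀ := R.split₀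
  split := R.split

variable (A) in
/-- `dg A ≤ db A` for every Banach algebra `A` -/
theorem dg_le_db [CompleteSpace A] [IsScalarTower ℂ A A] [SMulCommClass ℂ A A] : dg A ≤ db A := by
  rw [dg]
  refine iSup_le (fun X => ?_)
  rw [db, dhB]
  refine le_iInf₂ (fun n hn => ?_)
  obtain ⟨R, hR⟩ := hn
  rw [dh]
  refine iInf₂_le n ⟨resOfD X (TX.resX (toD X) (toBRes R)), fun k hk => ?_⟩
  exact TX.tens_subsingleton (toD X) (hR k hk)

end

end Pool.Agent.H83.HD
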