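import Mathlib

/-! # Escaping sequences in non-compact locally compact groups (helper83, for MP_df984a_an) -/

namespace Pool.Agent.H83.Dim

open Filter Topology Set Pointwise

noncomputable section

/-! ### products with binary exponents -/

section prod

variable {G : Type*} [Group G] (r : ℕ → G)

/-- product of `r_t` over the binary digits `t < m` of `j` (largest index leftmost) -/
def Ap : ℕ → ℕ → G
  | 0, _ => 1
  | (m + 1), j => (if j.testBit m then r m else 1) * Ap m j

/-- full product -/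
def aa (j : ℕ) : G := Ap r j j

theorem Ap_stable {j m n : ℕ} (hj : j < 2 ^ m) (hmn : m ≤ n) : Ap r n j = Ap r m j := by
  induction n, hmn using Nat.le_induction with
  | base => rfl
  | succ n hmn ih =>
      rw [Ap, Nat.testBit_lt_two_pow (hj.trans_le (Nat.pow_le_pow_right (by norm_num) hmn)), ih]
      simp

theorem aa_eq {j n : ℕ} (hjn : j ≤ n) : aa r j = Ap r n j :=
  (Ap_stable r Nat.lt_two_pow_self hjn).symm

theorem Ap_ratio {i j m n : ℕ} (h : ∀ t, m ≤ t → i.testBit t = j.testBit t) (hmn : m ≤ n) :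
    (Ap r n i)⁻¹ * Ap r n j = (Ap r m i)⁻¹ * Ap r m j := by
  induction n, hmn using Nat.le_induction with
  | base => rfl
  | succ n hmn ih =>
      rw [Ap, Ap, h n hmn, ← ih]
      group

theorem aa_ratio {i j m : ℕ} (h : ∀ t, m ≤ t → i.testBit t = j.testBit t) :
    (aa r i)⁻¹ * aa r j = (Ap r m i)⁻¹ * Ap r m j := by
  rw [aa_eq r (show i ≤ max m (max i j) by omega), aa_eq r (show j ≤ max m (max i j) by omega)]
  exact Ap_ratio r h (by omega)

theorem Ap_mod (m j : ℕ) : Ap r m (j % 2 ^ m) = Ap r m j := by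
  have h : ∀ n ≤ m, Ap r n (j % 2 ^ m) = Ap r n j := by
    intro n hn
    induction n with
    | zero => rfl
    | succ n ih =>
        rw [Ap, Ap, ih (by omega), Nat.testBit_mod_two_pow]
        simp [show n < m by omega]
  exact h m le_rfl

theorem testBit_xor_high {i k m t : ℕ} (hk : k < 2 ^ m) (ht : m ≤ t) :
    (i ^^^ k).testBit t = i.testBit t := by
  rw [Nat.testBit_xor, Nat.testBit_lt_two_pow (hk.trans_le (Nat.pow_le_pow_right (by norm_num) ht))]
  simp

/-- (F1) -/
theorem F1 {m i i' k : ℕ} (hk : k < 2 ^ m) (h : i % 2 ^ m = i' % 2 ^ m) :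
    (aa r i)⁻¹ * aa r (i ^^^ k) = (aa r i')⁻¹ * aa r (i' ^^^ k) := by
  rw [aa_ratio r (m := m) (fun t ht => (testBit_xor_high hk ht).symm),
    aa_ratio r (m := m) (fun t ht => (testBit_xor_high hk ht).symm),
    ← Ap_mod r m i, ← Ap_mod r m (i ^^^ k), ← Ap_mod r m i', ← Ap_mod r m (i' ^^^ k),
    Nat.xor_mod_two_pow, Nat.xor_mod_two_pow, h]

end prod

/-! ### the exhaustion -/

section exh

variable {G : Type*} [Group G] [TopologicalSpace G]

/-- the set to be avoided -/
def badSet (s : Set G × Set G) : Set G := s.2 * (s.1 * s.1⁻¹) * s.2⁻¹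

open Classical in
/-- pick an element outside the bad set -/
def pick (s : Set G × Set G) : G := if h : ∃ x, x ∉ badSet s then Classical.choose h else 1

/-- one step of the construction -/
def stp (s : Set G × Set G) : Set G × Set G :=
  ((s.1 ∪ {pick s, (pick s)⁻¹}) * (s.1 ∪ {pick s, (pick s)⁻¹}), s.2 ∪ {pick s} * s.2)

/-- the sequence of states -/
def st (W : Set G) : ℕ → Set G × Set G
  | 0 => (W, {1})
  | (n + 1) => stp (st W n)

/-- the sequence `r` -/
def rr (W : Set G) (n : ℕ) : G := pick (st W n)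

variable [IsTopologicalGroup G] {W : Set G}

theorem st_inv (hW : IsCompact W) (h1 : (1 : G) ∈ W) (hs : W⁻¹ = W) (n : ℕ) :
    IsCompact (st W n).1 ∧ (1 : G) ∈ (st W n).1 ∧ (st W n).1⁻¹ = (st W n).1 ∧
      IsCompact (st W n).2 := by
  induction n with
  | zero => exact ⟨hW, h1, hs, isCompact_singleton⟩
  | succ n ih =>
      obtain ⟨a, b, c, d⟩ := ih
      have hc : IsCompact ((st W n).1 ∪ {pick (st W n), (pick (st W n))⁻¹}) :=
        a.union ((finite_singleton _).insert _).isCompact
      refine ⟨hc.mul hc, ?_, ?_, ?_⟩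
      · exact ⟨1, Or.inl b, 1, Or.inl b, mul_one 1⟩
      · change (_ * _)⁻¹ = _
        have h2 : ((st W n).1 ∪ {pick (st W n), (pick (st W n))⁻¹})⁻¹ =
            (st W n).1 ∪ {pick (st W n), (pick (st W n))⁻¹} := by
          rw [Set.union_inv, c, Set.inv_insert, Set.inv_singleton, inv_inv, Set.pair_comm]
        rw [mul_inv_rev, h2]
        rfl
      · exact d.union (isCompact_singleton.mul d)

omit [TopologicalSpace G] [IsTopologicalGroup G] in
theorem st_sub (n : ℕ) :
    (st W n).1 * (st W n).1 ⊆ (st W (n + 1)).1 :=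
  Set.mul_subset_mul subset_union_left subset_union_left

theorem st_mono (hW : IsCompact W) (h1 : (1 : G) ∈ W) (hs : W⁻¹ = W) :
    Monotone (fun n => (st W n).1) := by
  apply monotone_nat_of_le_succ
  intro n x hx
  exact st_sub n ⟨x, hx, 1, (st_inv hW h1 hs n).2.1, mul_one x⟩

theorem rr_mem (hW : IsCompact W) (h1 : (1 : G) ∈ W) (hs : W⁻¹ = W) (n : ℕ) :
    rr W n ∈ (st W (n + 1)).1 :=
  ⟨rr W n, Or.inr (Or.inl rfl), 1, Or.inl (st_inv hW h1 hs n).2.1, mul_one _⟩

theorem rr_not_mem [NoncompactSpace G] [T2Space G] (hW : IsCompact W) (h1 : (1 : G) ∈ W)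
    (hs : W⁻¹ = W) (n : ℕ) : rr W n ∉ badSet (st W n) := by
  obtain ⟨a, b, c, d⟩ := st_inv hW h1 hs n
  have hc : IsCompact (badSet (st W n)) := (d.mul (a.mul a.inv)).mul d.inv
  have h : ∃ x, x ∉ badSet (st W n) := by
    by_contra hcon
    push Not at hcon
    have : badSet (st W n) = univ := eq_univ_of_forall hcon
    rw [this] at hc
    exact noncompact_univ G hc
  rw [rr, pick, dif_pos h]
  exact Classical.choose_spec h

omit [TopologicalSpace G] [IsTopologicalGroup G] in
theorem Ap_mem (n j : ℕ) : Ap (rr W) n j ∈ (st W n).2 := by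
  induction n with
  | zero => exact mem_singleton 1
  | succ n ih =>
      rw [Ap]
      by_cases h : j.testBit n
      · rw [if_pos h]
        exact Or.inr ⟨rr W n, rfl, _, ih, rfl⟩
      · rw [if_neg h, one_mul]
        exact Or.inl ih

/-- the union of the exhaustion is a subgroup -/
def HH (hW : IsCompact W) (h1 : (1 : G) ∈ W) (hs : W⁻¹ = W) : Subgroup G where
  carrier := ⋃ n, (st W n).1
  one_mem' := mem_iUnion.2 ⟨0, h1⟩
  mul_mem' := by
    intro a b ha hb
    obtain ⟨m, hm⟩ := mem_iUnion.1 ha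
    obtain ⟨n, hn⟩ := mem_iUnion.1 hb
    refine mem_iUnion.2 ⟨max m n + 1, st_sub _ ⟨a, ?_, b, ?_, rfl⟩⟩
    · exact st_mono hW h1 hs (le_max_left m n) hm
    · exact st_mono hW h1 hs (le_max_right m n) hn
  inv_mem' := by
    intro a ha
    obtain ⟨m, hm⟩ := mem_iUnion.1 ha
    refine mem_iUnion.2 ⟨m, ?_⟩
    rw [← (st_inv hW h1 hs m).2.2.1]
    exact Set.inv_mem_inv.2 hm

theorem rr_mem_HH (hW : IsCompact W) (h1 : (1 : G) ∈ W) (hs : W⁻¹ = W) (n : ℕ) :
    rr W n ∈ HH hW h1 hs := mem_iUnion.2 ⟨n + 1, rr_mem hW h1 hs n⟩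

theorem Ap_mem_HH (hW : IsCompact W) (h1 : (1 : G) ∈ W) (hs : W⁻¹ = W) (n j : ℕ) :
    Ap (rr W) n j ∈ HH hW h1 hs := by
  induction n with
  | zero => exact one_mem _
  | succ n ih =>
      rw [Ap]
      refine mul_mem ?_ ih
      split_ifs
      · exact rr_mem_HH hW h1 hs n
      · exact one_mem _

/-- key separation property -/
theorem sep [NoncompactSpace G] [T2Space G] (hW : IsCompact W) (h1 : (1 : G) ∈ W)
    (hs : W⁻¹ = W) {r i j : ℕ} {x : G} (hi : (aa (rr W) i)⁻¹ * x ∈ (st W r).1)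
    (hj : (aa (rr W) j)⁻¹ * x ∈ (st W r).1) : ∀ t, r ≤ t → i.testBit t = j.testBit t := by
  have main : ∀ n, r ≤ n → (∀ t, n ≤ t → i.testBit t = j.testBit t) →
      ∀ t, r ≤ t → i.testBit t = j.testBit t := by
    intro n hn
    induction n, hn using Nat.le_induction with
    | base => exact fun h => h
    | succ n hn ih =>
        intro h
        apply ih
        intro t ht
        rcases ht.eq_or_lt with rfl | ht
        · -- the top differing bit
          by_contra hne
          have key : ∀ i j : ℕ, (aa (rr W) i)⁻¹ * x ∈ (st W r).1 →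
              (aa (rr W) j)⁻¹ * x ∈ (st W r).1 →
              (∀ t, n + 1 ≤ t → i.testBit t = j.testBit t) →
              i.testBit n = false → j.testBit n = true → False := by
            intro i j hi hj h hin hjn
            have h2 := aa_ratio (rr W) h
            rw [Ap, Ap, hin, hjn] at h2
            simp only [Bool.false_eq_true, if_false, one_mul, if_true] at h2
            have h3 : rr W n = Ap (rr W) n i * (((aa (rr W) i)⁻¹ * x) * ((aa (rr W) j)⁻¹ * x)⁻¹) *
                (Ap (rr W) n j)⁻¹ := by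
              have h4 : ((aa (rr W) i)⁻¹ * x) * ((aa (rr W) j)⁻¹ * x)⁻¹ =
                  (aa (rr W) i)⁻¹ * aa (rr W) j := by group
              rw [h4, h2]
              group
            apply rr_not_mem hW h1 hs n
            rw [h3]
            refine ⟨_, ⟨_, Ap_mem n i, _, ⟨_, st_mono hW h1 hs hn hi, _, ?_, rfl⟩, rfl⟩, _, ?_, rfl⟩
            · exact Set.inv_mem_inv.2 (st_mono hW h1 hs hn hj)
            · exact Set.inv_mem_inv.2 (Ap_mem n j)
          cases hib : i.testBit n <;> cases hjb : j.testBit n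
          · exact hne (by rw [hib, hjb])
          · exact key i j hi hj h hib hjb
          · exact key j i hj hi (fun t ht => (h t ht).symm) hjb hib
          · exact hne (by rw [hib, hjb])
        · exact h t ht
  intro t ht
  refine main (max r (max i j)) (le_max_left _ _) (fun t ht => ?_) t ht
  have h2 : i < 2 ^ t := (show i ≤ t by omega).trans_lt Nat.lt_two_pow_self
  have h3 : j < 2 ^ t := (show j ≤ t by omega).trans_lt Nat.lt_two_pow_self
  rw [Nat.testBit_lt_two_pow h2, Nat.testBit_lt_two_pow h3]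

end exh

/-! ### the rank function -/

theorem xor_lt_of_testBit {i j r : ℕ} (h : ∀ t, r ≤ t → i.testBit t = j.testBit t) :
    i ^^^ j < 2 ^ r := by
  apply Nat.lt_pow_two_of_testBit
  intro t ht
  rw [Nat.testBit_xor, h t ht, Bool.xor_self]

theorem exists_rank (G : Type*) [Group G] [TopologicalSpace G] [IsTopologicalGroup G]
    [LocallyCompactSpace G] [T2Space G] [NoncompactSpace G] [MeasurableSpace G] [BorelSpace G] :
    ∃ (r : ℕ → G) (rank : G → ℕ), Measurable rank ∧
      ∀ n x i j, rank ((aa r i)⁻¹ * x) ≤ n → rank ((aa r j)⁻¹ * x) ≤ n → i ^^^ j < 2 ^ n := by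
  obtain ⟨K, hK, hK1⟩ := exists_compact_mem_nhds (1 : G)
  set W : Set G := K ∪ K⁻¹ with hWdef
  have hW : IsCompact W := hK.union hK.inv
  have hs : W⁻¹ = W := by rw [hWdef, Set.union_inv, inv_inv, Set.union_comm]
  have hWn : W ∈ 𝓝 (1 : G) := Filter.mem_of_superset hK1 subset_union_left
  have h1 : (1 : G) ∈ W := mem_of_mem_nhds hWn
  set H := HH hW h1 hs with hH
  have hopen : IsOpen (H : Set G) := by
    apply Subgroup.isOpen_of_mem_nhds H (g := 1)
    exact Filter.mem_of_superset hWn (subset_iUnion (fun n => (st W n).1) 0)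
  set s : G → G := fun x => Quotient.out (Quotient.mk (QuotientGroup.rightRel H) x) with hsdef
  have hs1 : ∀ x, x * (s x)⁻¹ ∈ H := by
    intro x
    have := Quotient.mk_out (s := QuotientGroup.rightRel H) x
    exact QuotientGroup.rightRel_apply.1 this
  have hs2 : ∀ g ∈ H, ∀ x, s (g * x) = s x := by
    intro g hg x
    have : (Quotient.mk (QuotientGroup.rightRel H) (g * x)) =
        Quotient.mk (QuotientGroup.rightRel H) x := by
      apply Quotient.sound
      change (QuotientGroup.rightRel H) _ _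
      rw [QuotientGroup.rightRel_apply]
      simpa using hg
    simp only [hsdef, this]
  have hsc : Continuous s := by
    apply IsLocallyConstant.continuous
    rw [IsLocallyConstant.iff_exists_open]
    intro x
    refine ⟨(fun y => y * x⁻¹) ⁻¹' (H : Set G), hopen.preimage (by fun_prop), ?_, ?_⟩
    · simp [one_mem]
    · intro y hy
      have := hs2 (y * x⁻¹) hy x
      rwa [inv_mul_cancel_right] at this
  have hf : Continuous fun x => x * (s x)⁻¹ := continuous_id.mul hsc.inv
  have hex : ∀ x, ∃ n, x * (s x)⁻¹ ∈ (st W n).1 := fun x => mem_iUnion.1 (hs1 x)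
  classical
  refine ⟨rr W, fun x => Nat.find (hex x), ?_, ?_⟩
  · apply measurable_find
    intro k
    exact ((st_inv hW h1 hs k).1.isClosed.preimage hf).measurableSet
  · intro n x i j hi hj
    have h2 : ∀ i, Nat.find (hex ((aa (rr W) i)⁻¹ * x)) ≤ n →
        (aa (rr W) i)⁻¹ * (x * (s x)⁻¹) ∈ (st W n).1 := by
      intro i hi
      have h3 := Nat.find_spec (hex ((aa (rr W) i)⁻¹ * x))
      have h4 : (aa (rr W) i)⁻¹ * x * (s ((aa (rr W) i)⁻¹ * x))⁻¹ ∈ (st W n).1 :=
        st_mono hW h1 hs hi h3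
      have h5 : s ((aa (rr W) i)⁻¹ * x) = s x := hs2 _ (inv_mem (Ap_mem_HH hW h1 hs i i)) x
      rwa [h5, mul_assoc] at h4
    exact xor_lt_of_testBit (sep hW h1 hs (h2 i hi) (h2 j hj))

/-! ### the selector `ψ` -/

section psi

variable {G : Type*} [Group G]

theorem psi_exists (r : ℕ → G) (rank : G → ℕ) (x : G) :
    ∃ j, ∀ k, rank ((aa r j)⁻¹ * x) ≤ rank ((aa r k)⁻¹ * x) :=
  ⟨Function.argmin (fun j => rank ((aa r j)⁻¹ * x)),
    fun k => Function.argmin_le (f := fun j => rank ((aa r j)⁻¹ * x)) k⟩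

open Classical in
/-- the selector -/
def psi (r : ℕ → G) (rank : G → ℕ) (x : G) : ℕ := Nat.find (psi_exists r rank x)

theorem psi_spec (r : ℕ → G) (rank : G → ℕ) (x : G) (k : ℕ) :
    rank ((aa r (psi r rank x))⁻¹ * x) ≤ rank ((aa r k)⁻¹ * x) := by
  classical
  exact Nat.find_spec (psi_exists r rank x) k

theorem psi_le (r : ℕ → G) (rank : G → ℕ) (x : G) {j : ℕ}
    (hj : ∀ k, rank ((aa r j)⁻¹ * x) ≤ rank ((aa r k)⁻¹ * x)) : psi r rank x ≤ j := by
  classical
  exact Nat.find_min' (psi_exists r rank x) hj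

theorem psi_measurable [MeasurableSpace G] [MeasurableMul G] (r : ℕ → G) {rank : G → ℕ}
    (hr : Measurable rank) : Measurable (psi r rank) := by
  classical
  apply measurable_find
  intro j
  have : {x | ∀ k, rank ((aa r j)⁻¹ * x) ≤ rank ((aa r k)⁻¹ * x)} =
      ⋂ k, {x | rank ((aa r j)⁻¹ * x) ≤ rank ((aa r k)⁻¹ * x)} := by
    ext x; simp
  rw [this]
  refine MeasurableSet.iInter (fun k => measurableSet_le ?_ ?_)
  · exact hr.comp (measurable_const_mul _)
  · exact hr.comp (measurable_const_mul _)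

theorem xor_split {r i l : ℕ} (hl : l < 2 ^ r) :
    i ^^^ l = 2 ^ r * (i / 2 ^ r) + ((i % 2 ^ r) ^^^ l) := by
  have h1 := Nat.div_add_mod (i ^^^ l) (2 ^ r)
  rw [Nat.xor_div_two_pow, Nat.xor_mod_two_pow, Nat.div_eq_of_lt hl, Nat.xor_zero,
    Nat.mod_eq_of_lt hl] at h1
  exact h1.symm

theorem psi_key (r : ℕ → G) {rank : G → ℕ}
    (hrank : ∀ n x i j, rank ((aa r i)⁻¹ * x) ≤ n → rank ((aa r j)⁻¹ * x) ≤ n → i ^^^ j < 2 ^ n)
    {n i i' : ℕ} {y : G} (hy : rank y ≤ n) (h : i % 2 ^ n = i' % 2 ^ n) :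
    i ^^^ psi r rank (aa r i * y) = i' ^^^ psi r rank (aa r i' * y) := by
  have xx : ∀ a b : ℕ, a ^^^ (a ^^^ b) = b := fun a b => by
    rw [← Nat.xor_assoc, Nat.xor_self, Nat.zero_xor]
  -- F1 in terms of rank
  have f1 : ∀ i i' l : ℕ, i % 2 ^ n = i' % 2 ^ n → l < 2 ^ n →
      rank ((aa r (i ^^^ l))⁻¹ * (aa r i * y)) = rank ((aa r (i' ^^^ l))⁻¹ * (aa r i' * y)) := by
    intro i i' l h hl
    have h1 := congrArg (fun z => z⁻¹ * y) (F1 r (k := l) hl h)
    simp only [mul_inv_rev, inv_inv] at h1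
    rw [← mul_assoc, ← mul_assoc, h1]
  have self : ∀ i : ℕ, rank ((aa r i)⁻¹ * (aa r i * y)) = rank y := by
    intro i; rw [inv_mul_cancel_left]
  have low : ∀ i j : ℕ, rank ((aa r j)⁻¹ * (aa r i * y)) ≤ n → i ^^^ j < 2 ^ n := by
    intro i j hj
    exact hrank n (aa r i * y) i j (by rw [self]; exact hy) hj
  have half : ∀ i i' : ℕ, i % 2 ^ n = i' % 2 ^ n →
      (i % 2 ^ n) ^^^ (i' ^^^ psi r rank (aa r i' * y)) ≤
        (i % 2 ^ n) ^^^ (i ^^^ psi r rank (aa r i * y)) := by
    intro i i' h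
    set l := i ^^^ psi r rank (aa r i * y) with hl
    set l' := i' ^^^ psi r rank (aa r i' * y) with hl'
    have hs := psi_spec r rank (aa r i * y)
    have hs' := psi_spec r rank (aa r i' * y)
    have b1 : rank ((aa r (psi r rank (aa r i * y)))⁻¹ * (aa r i * y)) ≤ n :=
      (hs i).trans (by rw [self]; exact hy)
    have b1' : rank ((aa r (psi r rank (aa r i' * y)))⁻¹ * (aa r i' * y)) ≤ n :=
      (hs' i').trans (by rw [self]; exact hy)
    have hl2 : l < 2 ^ n := low i _ b1
    have hl2' : l' < 2 ^ n := low i' _ b1'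
    have e1 : psi r rank (aa r i * y) = i ^^^ l := by rw [hl, xx]
    have e1' : psi r rank (aa r i' * y) = i' ^^^ l' := by rw [hl', xx]
    -- i' ^^^ l is minimal for i'
    have h3 : psi r rank (aa r i' * y) ≤ i' ^^^ l := by
      apply psi_le
      intro k
      rw [f1 i' i l h.symm hl2, ← e1]
      by_cases hk : rank ((aa r k)⁻¹ * (aa r i' * y)) ≤ n
      · have hk2 := low i' k hk
        have h4 : k = i' ^^^ (i' ^^^ k) := (xx _ _).symm
        rw [h4, f1 i' i (i' ^^^ k) h.symm hk2]
        exact hs _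
      · exact b1.trans (not_le.1 hk).le
    rw [e1', xor_split hl2, xor_split hl2', ← h] at h3
    exact Nat.le_of_add_le_add_left h3
  have h1 := half i i' h
  have h2 := half i' i h.symm
  rw [← h] at h2
  have h3 := le_antisymm h2 h1
  have h4 := congrArg (fun z => (i % 2 ^ n) ^^^ z) h3
  simp only [xx] at h4
  exact h4

end psi

end

end Pool.Agent.H83.Dim
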