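import Pool.Agent.H83.Dim.Cut
import Pool.Agent.H83.Dim.Seq
import Pool.Agent.H83.Dim.Core

/-! # Essential parts of Banach `L¹(G)`-modules (helper83, for MP_df984a_an) -/

namespace Pool.Agent.H83.Dim

open Filter Topology Set MeasureTheory
open scoped ENNReal

noncomputable section

set_option linter.unusedSectionVars false

universe u

variable {G : Type u} [Group G] [TopologicalSpace G] [IsTopologicalGroup G]
  [LocallyCompactSpace G] [MeasurableSpace G] [BorelSpace G]
  {μ : Measure G} [μ.IsHaarMeasure] [μ.Regular]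

/-- the action, seen on `Lp` -/
def al (X : LMod (L1Alg μ)) : Lp ℂ 1 μ →L[ℂ] X →L[ℂ] X := X.act

theorem al_conv (X : LMod (L1Alg μ)) (f g : Lp ℂ 1 μ) (q : X) :
    al X (conv μ f g) q = al X f (al X g q) := X.act_mul f g q

theorem Mor.map_al {X Y : LMod (L1Alg μ)} (f : Mor X Y) (a : Lp ℂ 1 μ) (q : X) :
    f.map (al X a q) = al Y a (f.map q) := f.map_act a q

/-- multiplication map -/
def mu' (X : LMod (L1Alg μ)) : Lp X 1 μ →L[ℂ] X := mult μ (al X)

@[simp] theorem mu'_tens (X : LMod (L1Alg μ)) (a : Lp ℂ 1 μ) (q : X) :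
    mu' X (tens μ a q) = al X a q := mult_tens μ (al X) a q

theorem mu'_int (X : LMod (L1Alg μ)) (a : Lp ℂ 1 μ) (F : Lp X 1 μ) :
    mu' X ((trRep μ X).int μ a F) = al X a (mu' X F) := mult_int μ (al X) (al_conv X) a F

/-- essential part -/
def Ess (X : LMod (L1Alg μ)) : Submodule ℂ X :=
  (LinearMap.range (mu' X).toLinearMap).topologicalClosure

instance (X : LMod (L1Alg μ)) : CompleteSpace (Ess X) :=
  (Submodule.isClosed_topologicalClosure _).completeSpace_coe

/-- multiplication into the essential part -/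
def multN (X : LMod (L1Alg μ)) : Lp X 1 μ →L[ℂ] Ess X :=
  (mu' X).codRestrict (Ess X)
    (fun F => Submodule.le_topologicalClosure _ ⟨F, rfl⟩)

@[simp] theorem coe_multN (X : LMod (L1Alg μ)) (F : Lp X 1 μ) : (multN X F : X) = mu' X F := rfl

theorem denseRange_multN (X : LMod (L1Alg μ)) : DenseRange (multN X) := by
  intro v
  rw [Metric.mem_closure_iff]
  intro ε hε
  have h : (v : X) ∈ closure ((LinearMap.range (mu' X).toLinearMap : Submodule ℂ X) : Set X) := v.2
  rw [Metric.mem_closure_iff] at h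
  obtain ⟨_, ⟨F, rfl⟩, hF⟩ := h ε hε
  exact ⟨multN X F, ⟨F, rfl⟩, hF⟩

theorem multN_ext {X : LMod (L1Alg μ)} {E : Type*} [NormedAddCommGroup E] [NormedSpace ℂ E]
    {S T : Ess X →L[ℂ] E} (h : ∀ F, S (multN X F) = T (multN X F)) (v : Ess X) : S v = T v := by
  refine (denseRange_multN X).induction_on (p := fun v => S v = T v) v ?_ h
  exact isClosed_eq S.continuous T.continuous

theorem norm_multN_tr_le (X : LMod (L1Alg μ)) (g : G) (F : Lp X 1 μ) :
    ‖multN X (tr μ g F)‖ ≤ ‖al X‖ * ‖multN X F‖ := by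
  apply le_of_forall_pos_le_add
  intro ε hε
  obtain ⟨e, he, _, heF⟩ := exists_approx μ F (ε := ε / (‖mu' X‖ + 1)) (by positivity)
  have h1 : mu' X (tr μ g ((trRep μ X).int μ e F)) = al X (tr μ g e) (mu' X F) := by
    have h2 : tr μ g ((trRep μ X).int μ e F) = (trRep μ X).int μ (tr μ g e) F :=
      ((trRep μ X).int_tr μ g e F).symm
    rw [h2, mu'_int]
  have h3 : mu' X (tr μ g F) = al X (tr μ g e) (mu' X F) -
      mu' X (tr μ g ((trRep μ X).int μ e F - F)) := by
    rw [map_sub, map_sub, h1]; abel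
  change ‖mu' X (tr μ g F)‖ ≤ ‖al X‖ * ‖mu' X F‖ + ε
  rw [h3]
  refine (norm_sub_le _ _).trans (add_le_add ?_ ?_)
  · refine ((al X).le_opNorm₂ _ _).trans ?_
    rw [norm_tr]
    refine mul_le_mul_of_nonneg_right ?_ (norm_nonneg _)
    exact mul_le_of_le_one_right (ContinuousLinearMap.opNorm_nonneg _) he
  · refine ((mu' X).le_opNorm _).trans ?_
    rw [norm_tr]
    calc ‖mu' X‖ * ‖(trRep μ X).int μ e F - F‖
        ≤ (‖mu' X‖ + 1) * (ε / (‖mu' X‖ + 1)) :=
          mul_le_mul (by linarith) heF (norm_nonneg _) (by positivity)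
      _ = ε := by field_simp

/-- the group action on the essential part -/
def rho (X : LMod (L1Alg μ)) (g : G) : Ess X →L[ℂ] Ess X :=
  (((multN X).comp (tr μ g)).toLinearMap).extendOfNorm (multN X).toLinearMap

theorem rho_multN (X : LMod (L1Alg μ)) (g : G) (F : Lp X 1 μ) :
    rho X g (multN X F) = multN X (tr μ g F) :=
  LinearMap.extendOfNorm_eq (f := ((multN X).comp (tr μ g)).toLinearMap)
    (e := (multN X).toLinearMap) (denseRange_multN X) ⟨‖al X‖, norm_multN_tr_le X g⟩ F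

theorem norm_rho_le (X : LMod (L1Alg μ)) (g : G) : ‖rho X g‖ ≤ ‖al X‖ :=
  LinearMap.opNorm_extendOfNorm_le (f := ((multN X).comp (tr μ g)).toLinearMap)
    (e := (multN X).toLinearMap) (denseRange_multN X) (ContinuousLinearMap.opNorm_nonneg _)
    (norm_multN_tr_le X g)

theorem rho_rho (X : LMod (L1Alg μ)) (g h : G) (v : Ess X) :
    rho X g (rho X h v) = rho X (g * h) v := by
  refine multN_ext (S := (rho X g).comp (rho X h)) (fun F => ?_) v
  rw [ContinuousLinearMap.comp_apply, rho_multN, rho_multN, rho_multN, tr_mul]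

theorem rho_one (X : LMod (L1Alg μ)) (v : Ess X) : rho X 1 v = v := by
  refine multN_ext (T := ContinuousLinearMap.id ℂ _) (fun F => ?_) v
  rw [rho_multN, tr_one]; rfl

/-! ### functoriality -/

section mapN

variable {X Y : LMod (L1Alg μ)} (f : Mor X Y)

theorem map_mu' (F : Lp X 1 μ) : f.map (mu' X F) = mu' Y (f.map.compLpL 1 μ F) := by
  have h : f.map.comp (mu' X) = (mu' Y).comp (f.map.compLpL 1 μ) := by
    apply tens_ext
    intro a q
    have h1 : f.map.compLpL 1 μ (tens μ a q) = tens μ a (f.map q) := compLp_tens μ f.map a q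
    rw [ContinuousLinearMap.comp_apply, ContinuousLinearMap.comp_apply, h1, mu'_tens, mu'_tens,
      f.map_al]
  exact congrArg (fun T => T F) h

theorem map_mem_Ess {v : X} (hv : v ∈ Ess X) : f.map v ∈ Ess Y := by
  have hv' : v ∈ closure ((LinearMap.range (mu' X).toLinearMap : Submodule ℂ X) : Set X) := hv
  change f.map v ∈ closure ((LinearMap.range (mu' Y).toLinearMap : Submodule ℂ Y) : Set Y)
  refine map_mem_closure f.map.continuous hv' ?_
  rintro _ ⟨F, rfl⟩
  exact ⟨f.map.compLpL 1 μ F, (map_mu' f F).symm⟩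

/-- induced map on essential parts -/
def mapN : Ess X →L[ℂ] Ess Y :=
  (f.map.comp (Ess X).subtypeL).codRestrict (Ess Y) (fun v => map_mem_Ess f v.2)

@[simp] theorem coe_mapN (v : Ess X) : (mapN f v : Y) = f.map v := rfl

theorem mapN_multN (F : Lp X 1 μ) : mapN f (multN X F) = multN Y (f.map.compLpL 1 μ F) := by
  apply Subtype.ext
  exact map_mu' f F

theorem mapN_rho (g : G) (v : Ess X) : mapN f (rho X g v) = rho Y g (mapN f v) := by
  refine multN_ext (S := (mapN f).comp (rho X g)) (T := (rho Y g).comp (mapN f)) (fun F => ?_) v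
  rw [ContinuousLinearMap.comp_apply, ContinuousLinearMap.comp_apply, rho_multN, mapN_multN,
    mapN_multN, rho_multN]
  congr 1
  exact (tr_comp μ f.map g F).symm

end mapN

/-! ### approximate lifting -/

theorem al_mem_Ess (X : LMod (L1Alg μ)) (a : Lp ℂ 1 μ) (q : X) : al X a q ∈ Ess X := by
  rw [← mu'_tens]
  exact Submodule.le_topologicalClosure _ ⟨_, rfl⟩

theorem exists_approx_Ess (X : LMod (L1Alg μ)) (v : Ess X) {ε : ℝ} (hε : 0 < ε) :
    ∃ e : Lp ℂ 1 μ, ‖e‖ ≤ 1 ∧ ‖al X e v - (v : X)‖ ≤ ε := by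
  set C := ‖al X‖ with hC
  have hC0 : 0 ≤ C := ContinuousLinearMap.opNorm_nonneg _
  have hd := denseRange_multN X v
  rw [Metric.mem_closure_iff] at hd
  obtain ⟨_, ⟨F, rfl⟩, hF⟩ := hd (ε / (2 * (C + 1))) (by positivity)
  obtain ⟨e, he, _, heF⟩ := exists_approx μ F (ε := ε / (2 * (‖mu' X‖ + 1))) (by positivity)
  refine ⟨e, he, ?_⟩
  have hF' : ‖(v : X) - mu' X F‖ < ε / (2 * (C + 1)) := by
    rw [dist_eq_norm] at hF
    exact hF
  have h1 : al X e v - (v : X) = al X e ((v : X) - mu' X F) +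
      (mu' X ((trRep μ X).int μ e F - F)) - ((v : X) - mu' X F) := by
    rw [map_sub, map_sub, mu'_int]; abel
  have h2 : ‖al X e ((v : X) - mu' X F)‖ ≤ C * (ε / (2 * (C + 1))) := by
    refine ((al X).le_opNorm₂ _ _).trans ?_
    exact mul_le_mul (mul_le_of_le_one_right hC0 he) hF'.le (norm_nonneg _) hC0
  have h3 : ‖mu' X ((trRep μ X).int μ e F - F)‖ ≤ ε / 2 := by
    refine ((mu' X).le_opNorm _).trans ?_
    calc ‖mu' X‖ * ‖(trRep μ X).int μ e F - F‖
        ≤ (‖mu' X‖ + 1) * (ε / (2 * (‖mu' X‖ + 1))) :=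
          mul_le_mul (by linarith) heF (norm_nonneg _) (by positivity)
      _ = ε / 2 := by field_simp
  have h4 : C * (ε / (2 * (C + 1))) + ε / (2 * (C + 1)) = ε / 2 := by field_simp
  rw [h1]
  calc ‖al X e ((v : X) - mu' X F) + (mu' X ((trRep μ X).int μ e F - F)) - ((v : X) - mu' X F)‖
      ≤ ‖al X e ((v : X) - mu' X F)‖ + ‖mu' X ((trRep μ X).int μ e F - F)‖ +
        ‖(v : X) - mu' X F‖ := (norm_sub_le _ _).trans (add_le_add (norm_add_le _ _) le_rfl)
    _ ≤ C * (ε / (2 * (C + 1))) + ε / 2 + ε / (2 * (C + 1)) := by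
        gcongr
    _ = ε := by linarith

theorem exact_lift {E F : Type*} [NormedAddCommGroup E] [NormedSpace ℂ E] [CompleteSpace E]
    [NormedAddCommGroup F] [NormedSpace ℂ F] (D : E →L[ℂ] F) (Z : Submodule ℂ F)
    (hD : ∀ x, D x ∈ Z) {C : ℝ} (hC : 0 ≤ C)
    (h : ∀ v ∈ Z, ∃ w, ‖w‖ ≤ C * ‖v‖ ∧ ‖v - D w‖ ≤ (1 / 2) * ‖v‖) :
    ∀ v ∈ Z, ∃ w, D w = v ∧ ‖w‖ ≤ (2 * C) * ‖v‖ := by
  choose! L hL1 hL2 using h
  intro v hv
  set r : ℕ → F := fun n => Nat.rec v (fun _ x => x - D (L x)) n with hr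
  have hr0 : r 0 = v := rfl
  have hrs : ∀ n, r (n + 1) = r n - D (L (r n)) := fun n => rfl
  have hrZ : ∀ n, r n ∈ Z := by
    intro n
    induction n with
    | zero => exact hv
    | succ n ih => rw [hrs]; exact Z.sub_mem ih (hD _)
  have hrn : ∀ n, ‖r n‖ ≤ (1 / 2) ^ n * ‖v‖ := by
    intro n
    induction n with
    | zero => rw [hr0, pow_zero, one_mul]
    | succ n ih =>
        rw [hrs]
        refine (hL2 _ (hrZ n)).trans ?_
        rw [pow_succ]
        nlinarith
  have hb : ∀ n, ‖L (r n)‖ ≤ C * ‖v‖ * (1 / 2) ^ n := by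
    intro n
    refine (hL1 _ (hrZ n)).trans ?_
    have := mul_le_mul_of_nonneg_left (hrn n) hC
    linarith
  have hgs : HasSum (fun n : ℕ => C * ‖v‖ * (1 / 2 : ℝ) ^ n) (C * ‖v‖ * 2) :=
    hasSum_geometric_two.mul_left _
  have hs : Summable (fun n => L (r n)) := Summable.of_norm_bounded hgs.summable hb
  refine ⟨∑' n, L (r n), ?_, ?_⟩
  · have h1 : HasSum (fun n => D (L (r n))) (D (∑' n, L (r n))) := hs.hasSum.mapL D
    have h2 : Tendsto (fun n => ∑ i ∈ Finset.range n, D (L (r i))) atTop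
        (𝓝 (D (∑' n, L (r n)))) := h1.tendsto_sum_nat
    have h3 : ∀ n, ∑ i ∈ Finset.range n, D (L (r i)) = v - r n := by
      intro n
      induction n with
      | zero => simp [hr0]
      | succ n ih => rw [Finset.sum_range_succ, ih, hrs]; abel
    have h4 : Tendsto r atTop (𝓝 0) := by
      have h5 : Tendsto (fun n : ℕ => (1 / 2 : ℝ) ^ n * ‖v‖) atTop (𝓝 0) := by
        have := (tendsto_pow_atTop_nhds_zero_of_lt_one (r := (1 / 2 : ℝ)) (by norm_num)
          (by norm_num)).mul_const ‖v‖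
        rwa [zero_mul] at this
      exact squeeze_zero_norm hrn h5
    have h6 : Tendsto (fun n => ∑ i ∈ Finset.range n, D (L (r i))) atTop (𝓝 v) := by
      simp only [h3]
      have := (tendsto_const_nhds (x := v)).sub h4
      rwa [sub_zero] at this
    exact tendsto_nhds_unique h2 h6
  · refine (tsum_of_norm_bounded hgs hb).trans (le_of_eq (by ring))

end

end Pool.Agent.H83.Dim
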