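import Pool.Agent.H83.Dim.Tr

/-! # The Banach algebra `L¹(G)` (helper83, MP_df984a_an)

`L1Alg μ` is the Banach space `L¹(G, μ)` (`μ` a left Haar measure on the locally compact group
`G`) with the convolution product
`f * g = ∫ f(t) (L_t g) dμ(t)`, `(L_t g)(x) = g(t⁻¹ x)` (Bochner integral in `L¹(G)`), which is
the usual `(f * g)(x) = ∫ f(t) g(t⁻¹ x) dμ(t)`; for second countable `G` the latter formula
is proved as `conv_ae` in `Pool/Agent/H83/Dim/Check.lean`. -/

namespace Pool.Agent.H83.Dim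

open Filter Topology Set MeasureTheory
open scoped ENNReal

noncomputable section

set_option linter.unusedSectionVars false

universe u

variable {G : Type u} [Group G] [TopologicalSpace G] [IsTopologicalGroup G]
  [LocallyCompactSpace G] [MeasurableSpace G] [BorelSpace G]
  (μ : Measure G) [μ.IsHaarMeasure] [μ.Regular]

theorem memLp_lt (g : G) (f : Lp ℂ 1 μ) : MemLp (fun x => f (g⁻¹ * x)) 1 μ :=
  (Lp.memLp f).comp_measurePreserving (measurePreserving_mul_left μ g⁻¹)

/-- The left translate `(L_g f)(x) = f(g⁻¹ x)` of `f ∈ L¹(G)`. -/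
def lt (g : G) (f : Lp ℂ 1 μ) : Lp ℂ 1 μ := (memLp_lt μ g f).toLp (fun x => f (g⁻¹ * x))

theorem lt_eq_tr (g : G) (f : Lp ℂ 1 μ) : lt μ g f = tr μ g f := by
  apply Lp.ext
  filter_upwards [(memLp_lt μ g f).coeFn_toLp, coeFn_tr μ g f] with x h1 h2
  rw [lt, h1, h2]

/-- The convolution product on `L¹(G)`: `f * g = ∫ f(t) (L_t g) dμ(t)` where
`(L_t g)(x) = g(t⁻¹ x)` (Bochner integral in `L¹(G)`), i.e.
`(f * g)(x) = ∫ f(t) g(t⁻¹ x) dμ(t)`. -/
def conv (f g : Lp ℂ 1 μ) : Lp ℂ 1 μ := ∫ t, f t • lt μ t g ∂μ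

theorem conv_def (f g : Lp ℂ 1 μ) : conv μ f g = ∫ t, f t • tr μ t g ∂μ := by
  simp only [conv, lt_eq_tr]

theorem conv_eq (f g : Lp ℂ 1 μ) : conv μ f g = (trRep μ ℂ).int μ f g := conv_def μ f g

theorem int_conv {V : Type*} [NormedAddCommGroup V] [NormedSpace ℂ V] (R : Rep G V)
    (f g : Lp ℂ 1 μ) (v : V) : R.int μ (conv μ f g) v = R.int μ f (R.int μ g v) := by
  by_cases hV : CompleteSpace V
  · have hi : Integrable (fun t => f t • tr μ t g) μ := (trRep μ ℂ).integrable μ f g
    have h1 : ((R.int μ).flip v) (conv μ f g) = ∫ t, ((R.int μ).flip v) (f t • tr μ t g) ∂μ := by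
      rw [conv_def]
      exact (((R.int μ).flip v).integral_comp_comm hi).symm
    rw [ContinuousLinearMap.flip_apply] at h1
    rw [h1, R.int_apply μ f]
    congr 1
    funext t
    rw [map_smul, ContinuousLinearMap.flip_apply, R.int_tr μ]
  · simp only [Rep.int_apply, integral, hV, dif_neg, not_false_iff]

theorem conv_add (f g h : Lp ℂ 1 μ) : conv μ f (g + h) = conv μ f g + conv μ f h := by
  simp only [conv_eq, map_add]

theorem add_conv (f g h : Lp ℂ 1 μ) : conv μ (f + g) h = conv μ f h + conv μ g h := by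
  simp only [conv_eq, map_add]; rfl

theorem zero_conv (f : Lp ℂ 1 μ) : conv μ 0 f = 0 := by
  rw [conv_eq, map_zero]; rfl

theorem conv_zero (f : Lp ℂ 1 μ) : conv μ f 0 = 0 := by
  rw [conv_eq, map_zero]

theorem conv_assoc (f g h : Lp ℂ 1 μ) : conv μ (conv μ f g) h = conv μ f (conv μ g h) := by
  rw [conv_eq μ (conv μ f g), int_conv μ (trRep μ ℂ) f g h, conv_eq μ f, conv_eq μ g]

theorem norm_conv_le (f g : Lp ℂ 1 μ) : ‖conv μ f g‖ ≤ ‖f‖ * ‖g‖ := by
  rw [conv_eq]
  have := (trRep μ ℂ).norm_int_le μ f g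
  refine this.trans (le_of_eq ?_)
  change 1 * ‖f‖ * ‖g‖ = _
  rw [one_mul]

theorem smul_conv (c : ℂ) (f g : Lp ℂ 1 μ) : conv μ (c • f) g = c • conv μ f g := by
  rw [conv_eq, conv_eq, map_smul]; rfl

theorem conv_smul (c : ℂ) (f g : Lp ℂ 1 μ) : conv μ f (c • g) = c • conv μ f g := by
  rw [conv_eq, conv_eq, map_smul]

/-- The Banach algebra `L¹(G)` with respect to the left Haar measure `μ`. -/
def L1Alg {G : Type u} [MeasurableSpace G] (μ : Measure G) : Type u := Lp ℂ 1 μ

/-- The Banach space structure of `L¹(G)`: the `L¹` norm. -/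
instance instNACG {G : Type u} [MeasurableSpace G] (μ : Measure G) :
    NormedAddCommGroup (L1Alg μ) :=
  (inferInstance : NormedAddCommGroup (Lp ℂ 1 μ))

instance : NonUnitalNormedRing (L1Alg μ) :=
  { instNACG μ with
    mul := conv μ
    left_distrib := conv_add μ
    right_distrib := add_conv μ
    zero_mul := zero_conv μ
    mul_zero := conv_zero μ
    mul_assoc := conv_assoc μ
    norm_mul_le := norm_conv_le μ }

instance : NormedSpace ℂ (L1Alg μ) := (inferInstance : NormedSpace ℂ (Lp ℂ 1 μ))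

instance : CompleteSpace (L1Alg μ) := (inferInstance : CompleteSpace (Lp ℂ 1 μ))

instance : IsScalarTower ℂ (L1Alg μ) (L1Alg μ) where
  smul_assoc := smul_conv μ

instance : SMulCommClass ℂ (L1Alg μ) (L1Alg μ) where
  smul_comm := fun c f g => (conv_smul μ c f g).symm

end

end Pool.Agent.H83.Dim
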