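import Pool.Agent.H83.Dim.Ell1

/-! # Averages over `(ℕ, xor)` (helper83, for MP_df984a_an) -/

namespace Pool.Agent.H83.Dim

open Filter Topology Set

noncomputable section

section Av

variable {E F : Type*} [NormedAddCommGroup E] [NormedSpace ℂ E]
  [NormedAddCommGroup F] [NormedSpace ℂ F]

/-- Average over `{i < 2^m}`. -/
def Av (m : ℕ) (f : ℕ → E) : E := ((2 : ℂ) ^ m)⁻¹ • ∑ i ∈ Finset.range (2 ^ m), f i

theorem Av_clm (T : E →L[ℂ] F) (m : ℕ) (f : ℕ → E) : T (Av m f) = Av m (fun i => T (f i)) := by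
  simp [Av]

theorem Av_add (m : ℕ) (f g : ℕ → E) : Av m (fun i => f i + g i) = Av m f + Av m g := by
  simp [Av, Finset.sum_add_distrib]

theorem Av_const (m : ℕ) (v : E) : Av m (fun _ => v) = v := by
  simp only [Av, Finset.sum_const, Finset.card_range]
  rw [← Nat.cast_smul_eq_nsmul ℂ, smul_smul]
  push_cast
  rw [inv_mul_cancel₀ (pow_ne_zero _ two_ne_zero), one_smul]

theorem norm_Av_le {f : ℕ → E} {C : ℝ} (h : ∀ i, ‖f i‖ ≤ C) (m : ℕ) : ‖Av m f‖ ≤ C := by
  rw [Av, norm_smul, norm_inv, norm_pow, Complex.norm_ofNat, inv_mul_le_iff₀ (by positivity)]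
  calc ‖∑ i ∈ Finset.range (2 ^ m), f i‖ ≤ ∑ i ∈ Finset.range (2 ^ m), ‖f i‖ := norm_sum_le _ _
    _ ≤ ∑ i ∈ Finset.range (2 ^ m), C := Finset.sum_le_sum (fun i _ => h i)
    _ = 2 ^ m * C := by simp

theorem Av_xor {m k : ℕ} (hk : k < 2 ^ m) (f : ℕ → E) : Av m (fun i => f (k ^^^ i)) = Av m f := by
  simp only [Av]
  congr 1
  refine Finset.sum_nbij' (fun i => k ^^^ i) (fun i => k ^^^ i) ?_ ?_ ?_ ?_ ?_
  · intro i hi
    simp only [Finset.mem_range] at hi ⊢
    exact Nat.xor_lt_two_pow hk hi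
  · intro i hi
    simp only [Finset.mem_range] at hi ⊢
    exact Nat.xor_lt_two_pow hk hi
  · intro i _
    rw [← Nat.xor_assoc, Nat.xor_self, Nat.zero_xor]
  · intro i _
    rw [← Nat.xor_assoc, Nat.xor_self, Nat.zero_xor]
  · intro i _
    rfl

end Av

section lim

variable {ι κ : Type*} [DecidableEq ι] [DecidableEq κ]

theorem exists_ulim {u : ℕ → ℂ} {C : ℝ} (h : ∀ n, ‖u n‖ ≤ C) :
    ∃ x, Tendsto u (hyperfilter ℕ) (𝓝 x) := by
  have hc : IsCompact (Metric.closedBall (0 : ℂ) C) := isCompact_closedBall 0 C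
  obtain ⟨x, _, hx⟩ := hc.ultrafilter_le_nhds ((hyperfilter ℕ).map u) (by
    rw [le_principal_iff]
    refine Filter.mem_map.2 (Filter.mem_of_superset univ_mem (fun n _ => ?_))
    simpa using h n)
  exact ⟨x, hx⟩

open Classical in
/-- coordinatewise ultrafilter limit of the averages -/
def avg (f : ℕ → Ell ι ℂ) : Ell ι ℂ :=
  if h : ∃ w : Ell ι ℂ, ∀ γ, Tendsto (fun m => (Av m f : Ell ι ℂ) γ) (hyperfilter ℕ) (𝓝 (w γ))
  then Classical.choose h else 0

omit [DecidableEq ι] in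
theorem avg_exists {f : ℕ → Ell ι ℂ} {C : ℝ} (hf : ∀ i, ‖f i‖ ≤ C) :
    ∃ w : Ell ι ℂ, (∀ γ, Tendsto (fun m => (Av m f : Ell ι ℂ) γ) (hyperfilter ℕ) (𝓝 (w γ))) ∧
      ‖w‖ ≤ C := by
  have h1 : ∀ γ, ∃ x, Tendsto (fun m => (Av m f : Ell ι ℂ) γ) (hyperfilter ℕ) (𝓝 x) := by
    intro γ
    apply exists_ulim (C := C)
    intro m
    exact (lp.norm_apply_le_norm (by norm_num) _ _).trans (norm_Av_le hf m)
  choose w hw using h1
  have h2 : Tendsto (id fun m => (Av m f : Ell ι ℂ) : ℕ → ∀ _ : ι, ℂ) (hyperfilter ℕ) (𝓝 w) := by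
    rw [tendsto_pi_nhds]
    exact hw
  have h3 : Memℓp w 1 := by
    refine lp.memℓp_of_tendsto (F := fun m => (Av m f : Ell ι ℂ)) ?_ h2
    rw [isBounded_iff_forall_norm_le]
    exact ⟨C, by rintro _ ⟨m, rfl⟩; exact norm_Av_le hf m⟩
  refine ⟨⟨w, h3⟩, hw, ?_⟩
  exact lp.norm_le_of_tendsto (F := fun m => (Av m f : Ell ι ℂ)) (f := ⟨w, h3⟩)
    (Eventually.of_forall (fun m => norm_Av_le hf m)) h2

omit [DecidableEq ι] in
theorem avg_unique {f : ℕ → Ell ι ℂ} {w : Ell ι ℂ}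
    (hw : ∀ γ, Tendsto (fun m => (Av m f : Ell ι ℂ) γ) (hyperfilter ℕ) (𝓝 (w γ))) :
    avg f = w := by
  have h : ∃ w : Ell ι ℂ, ∀ γ, Tendsto (fun m => (Av m f : Ell ι ℂ) γ) (hyperfilter ℕ)
    (𝓝 (w γ)) := ⟨w, hw⟩
  rw [avg, dif_pos h]
  apply Ell.ext
  intro γ
  exact tendsto_nhds_unique (Classical.choose_spec h γ) (hw γ)

omit [DecidableEq ι] in
theorem avg_spec {f : ℕ → Ell ι ℂ} {C : ℝ} (hf : ∀ i, ‖f i‖ ≤ C) (γ : ι) :
    Tendsto (fun m => (Av m f : Ell ι ℂ) γ) (hyperfilter ℕ) (𝓝 (avg f γ)) := by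
  obtain ⟨w, hw, _⟩ := avg_exists hf
  rw [avg_unique hw]
  exact hw γ

omit [DecidableEq ι] in
theorem norm_avg_le {f : ℕ → Ell ι ℂ} {C : ℝ} (hf : ∀ i, ‖f i‖ ≤ C) : ‖avg f‖ ≤ C := by
  obtain ⟨w, hw, h⟩ := avg_exists hf
  rw [avg_unique hw]
  exact h

omit [DecidableEq ι] in
theorem avg_const (v : Ell ι ℂ) : avg (fun _ => v) = v := by
  apply avg_unique
  intro γ
  simp only [Av_const]
  exact tendsto_const_nhds

omit [DecidableEq ι] in
theorem avg_add {f g : ℕ → Ell ι ℂ} {C D : ℝ} (hf : ∀ i, ‖f i‖ ≤ C) (hg : ∀ i, ‖g i‖ ≤ D) :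
    avg (fun i => f i + g i) = avg f + avg g := by
  apply avg_unique
  intro γ
  simp only [Av_add, Ell.add_apply]
  exact (avg_spec hf γ).add (avg_spec hg γ)

omit [DecidableEq ι] in
theorem avg_smul {f : ℕ → Ell ι ℂ} {C : ℝ} (hf : ∀ i, ‖f i‖ ≤ C) (c : ℂ) :
    avg (fun i => c • f i) = c • avg f := by
  apply avg_unique
  intro γ
  have h : ∀ m, Av m (fun i => c • f i) = c • Av m f := by
    intro m
    have := (Av_clm (c • ContinuousLinearMap.id ℂ (Ell ι ℂ)) m f)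
    simpa using this.symm
  simp only [h, Ell.smul_apply]
  exact (avg_spec hf γ).const_smul c

omit [DecidableEq ι] in
theorem avg_xor {f : ℕ → Ell ι ℂ} {C : ℝ} (hf : ∀ i, ‖f i‖ ≤ C) (k : ℕ) :
    avg (fun i => f (k ^^^ i)) = avg f := by
  apply avg_unique
  intro γ
  refine (avg_spec hf γ).congr' ?_
  have h1 : ∀ᶠ m in (hyperfilter ℕ : Filter ℕ), k ≤ m := by
    have : ∀ᶠ m in (cofinite : Filter ℕ), k ≤ m := by
      rw [Nat.cofinite_eq_atTop]
      exact eventually_ge_atTop k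
    exact hyperfilter_le_cofinite this
  filter_upwards [h1] with m hm
  rw [Av_xor]
  exact hm.trans_lt Nat.lt_two_pow_self

omit [DecidableEq ι] [DecidableEq κ] in
theorem avg_coord {T : Ell ι ℂ →L[ℂ] Ell κ ℂ} (σ : κ → ι) (hT : ∀ w γ, T w γ = w (σ γ))
    {f : ℕ → Ell ι ℂ} {C : ℝ} (hf : ∀ i, ‖f i‖ ≤ C) :
    avg (fun i => T (f i)) = T (avg f) := by
  apply avg_unique
  intro γ
  simp only [← Av_clm, hT]
  exact avg_spec hf (σ γ)

theorem convexHull_Av {E : Type*} [NormedAddCommGroup E] [NormedSpace ℂ E] (f : ℕ → E) (m : ℕ) :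
    Av m f ∈ convexHull ℝ (range f) := by
  have h : Av m f = ∑ i ∈ Finset.range (2 ^ m), (((2 : ℝ) ^ m)⁻¹) • f i := by
    rw [← Finset.smul_sum, Av]
    have : ((2 : ℂ) ^ m)⁻¹ = (((2 : ℝ) ^ m)⁻¹ : ℝ) := by push_cast; rfl
    rw [this, Complex.coe_smul]
  rw [h]
  apply (convex_convexHull ℝ (range f)).sum_mem
  · intro i _; positivity
  · simp
  · intro i _; exact subset_convexHull ℝ _ ⟨i, rfl⟩

omit [DecidableEq ι] in
theorem Av_tendsto_avg {f : ℕ → Ell ι ℂ} (hf : FR f) :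
    Tendsto (fun m => Av m f) (hyperfilter ℕ) (𝓝 (avg f)) := by
  have h1 : TotallyBounded (closure (convexHull ℝ (range f))) :=
    (totallyBounded_convexHull.2 hf.totallyBounded).closure
  have hc : IsCompact (closure (convexHull ℝ (range f))) :=
    isCompact_iff_totallyBounded_isComplete.2 ⟨h1, isClosed_closure.isComplete⟩
  obtain ⟨x, _, hx⟩ := hc.ultrafilter_le_nhds ((hyperfilter ℕ).map (fun m => Av m f)) (by
    rw [le_principal_iff]
    exact Filter.mem_map.2 (Filter.mem_of_superset univ_mem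
      (fun m _ => subset_closure (convexHull_Av f m))))
  have hx' : Tendsto (fun m => Av m f) (hyperfilter ℕ) (𝓝 x) := hx
  have h2 : avg f = x := by
    apply avg_unique
    intro γ
    exact ((lp.evalCLM ℂ (fun _ : ι => ℂ) 1 γ).continuous.tendsto x).comp hx'
  rwa [h2]

omit [DecidableEq ι] [DecidableEq κ] in
theorem avg_clm {f : ℕ → Ell ι ℂ} (hf : FR f) (T : Ell ι ℂ →L[ℂ] Ell κ ℂ) :
    avg (fun i => T (f i)) = T (avg f) := by
  apply avg_unique
  intro γ
  simp only [← Av_clm]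
  have h1 := (T.continuous.tendsto _).comp (Av_tendsto_avg hf)
  exact ((lp.evalCLM ℂ (fun _ : κ => ℂ) 1 γ).continuous.tendsto _).comp h1

variable {E : Type*} [NormedAddCommGroup E] [NormedSpace ℂ E]

open Classical in
/-- average of a bounded family of operators -/
def avgOp (S : ℕ → E →L[ℂ] Ell ι ℂ) : E →L[ℂ] Ell ι ℂ :=
  if h : Bdd S then
    LinearMap.mkContinuous
      { toFun := fun v => avg (fun i => S i v)
        map_add' := fun v w => by
          have hC := Classical.choose_spec h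
          set C := Classical.choose h
          simp only [map_add]
          exact avg_add (fun i => (S i).le_of_opNorm_le (hC i) v)
            (fun i => (S i).le_of_opNorm_le (hC i) w)
        map_smul' := fun c v => by
          have hC := Classical.choose_spec h
          set C := Classical.choose h
          simp only [map_smul, RingHom.id_apply]
          exact avg_smul (fun i => (S i).le_of_opNorm_le (hC i) v) c } (Classical.choose h)
      (fun v => by
        have hC := Classical.choose_spec h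
        set C := Classical.choose h
        exact norm_avg_le (fun i => (S i).le_of_opNorm_le (hC i) v))
  else 0

omit [DecidableEq ι] in
theorem avgOp_apply {S : ℕ → E →L[ℂ] Ell ι ℂ} (h : Bdd S) (v : E) :
    avgOp S v = avg (fun i => S i v) := by
  rw [avgOp, dif_pos h]; rfl

end lim

end

end Pool.Agent.H83.Dim
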