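import Pool.Agent.H83.Dim.Defs

/-! # Definitions for the statement of MP_df984a_an (helper83)

Everything is over `ℂ`. A Banach algebra is a complete (non-unital) normed ring `A` with
`[NormedSpace ℂ A] [IsScalarTower ℂ A A] [SMulCommClass ℂ A A]`. Modules are Banach spaces with a
bounded bilinear associative action and morphisms are bounded linear module maps. The Banach
algebra `L¹(G)` is `L1Alg μ` from `Pool/Agent/H83/Dim/Defs.lean`. -/

namespace Pool.Agent.H83.HD

open MeasureTheory Pool.Agent.H83.Dim
open scoped ENNReal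

noncomputable section

universe u

section general

variable (A : Type u) [NonUnitalNormedRing A] [NormedSpace ℂ A]

/-- A left Banach `A`-module. -/
structure LMod where
  /-- the underlying Banach space -/
  carrier : Type u
  [grp : NormedAddCommGroup carrier]
  [spc : NormedSpace ℂ carrier]
  [cpl : CompleteSpace carrier]
  /-- the action `act a x = a · x` -/
  act : A → carrier → carrier
  bil : IsBoundedBilinearMap ℂ (fun p : A × carrier => act p.1 p.2)
  act_mul : ∀ a b x, act (a * b) x = act a (act b x)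

attribute [instance] LMod.grp LMod.spc LMod.cpl

variable {A}

/-- A morphism of left Banach `A`-modules: a bounded linear module map. -/
structure Mor (X Y : LMod A) where
  map : X.carrier → Y.carrier
  bdd : IsBoundedLinearMap ℂ map
  map_act : ∀ a x, map (X.act a x) = Y.act a (map x)

/-- `P` is projective: every module morphism `f : Y → P` with a bounded linear right inverse has a
right inverse which is a module morphism. -/
def Projective (P : LMod A) : Prop :=
  ∀ (Y : LMod A) (f : Mor Y P),
    (∃ s : P.carrier → Y.carrier, IsBoundedLinearMap ℂ s ∧ ∀ p, f.map (s p) = p) →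
    ∃ s : Mor P Y, ∀ p, f.map (s.map p) = p

/-- A projective resolution `0 ← X ← P₀ ← P₁ ← ⋯` of `X`: a complex of modules with every `P_k`
projective which is admissible, i.e. splits as a complex of Banach spaces: it has a bounded linear
contracting homotopy `s₀ : X → P₀`, `s k : P_k → P_{k+1}`. -/
structure Resolution (X : LMod A) where
  P : ℕ → LMod A
  ε : Mor (P 0) X
  d : ∀ k, Mor (P (k + 1)) (P k)
  projective : ∀ k, Projective (P k)
  ε_d : ∀ p, ε.map ((d 0).map p) = 0
  d_d : ∀ k p, (d k).map ((d (k + 1)).map p) = 0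
  s₀ : X.carrier → (P 0).carrier
  s : ∀ k, (P k).carrier → (P (k + 1)).carrier
  s₀_bdd : IsBoundedLinearMap ℂ s₀
  s_bdd : ∀ k, IsBoundedLinearMap ℂ (s k)
  ε_s₀ : ∀ x, ε.map (s₀ x) = x
  split₀ : ∀ p, s₀ (ε.map p) + (d 0).map (s 0 p) = p
  split : ∀ k p, s k ((d k).map p) + (d (k + 1)).map (s (k + 1) p) = p

/-- The homological dimension `dh_A X`: the least `n` for which `X` has a projective resolution
with `P_k = 0` for all `k > n`, and `∞` if there is no such `n`. -/
def dh (X : LMod A) : ℕ∞ :=
  ⨅ (n : ℕ) (_ : ∃ R : Resolution X, ∀ k, n < k → Subsingleton (R.P k).carrier), (n : ℕ∞)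

variable (A) in
/-- The left global dimension `dg A`. -/
def dg : ℕ∞ := ⨆ X : LMod A, dh X

/-- `X` is irreducible: the action is non-zero and `0` and `X` are the only linear subspaces
invariant under `A`. -/
def Irreducible (X : LMod A) : Prop :=
  (∃ a x, X.act a x ≠ 0) ∧
    ∀ S : Submodule ℂ X.carrier, (∀ a, ∀ x ∈ S, X.act a x ∈ S) → S = ⊥ ∨ S = ⊤

variable (A) in
/-- The left small dimension `ds A`. -/
def ds : ℕ∞ := ⨆ (X : LMod A) (_ : Irreducible X), dh X

variable (A) in
/-- A Banach `A`-bimodule, with left action `lact a x = a · x` and right action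
`ract a x = x · a`. -/
structure BMod where
  /-- the underlying Banach space -/
  carrier : Type u
  [grp : NormedAddCommGroup carrier]
  [spc : NormedSpace ℂ carrier]
  [cpl : CompleteSpace carrier]
  lact : A → carrier → carrier
  ract : A → carrier → carrier
  lbil : IsBoundedBilinearMap ℂ (fun p : A × carrier => lact p.1 p.2)
  rbil : IsBoundedBilinearMap ℂ (fun p : A × carrier => ract p.1 p.2)
  lact_mul : ∀ a b x, lact (a * b) x = lact a (lact b x)
  ract_mul : ∀ a b x, ract (a * b) x = ract b (ract a x)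
  comm : ∀ a b x, lact a (ract b x) = ract b (lact a x)

attribute [instance] BMod.grp BMod.spc BMod.cpl

/-- A morphism of Banach `A`-bimodules. -/
structure BMor (X Y : BMod A) where
  map : X.carrier → Y.carrier
  bdd : IsBoundedLinearMap ℂ map
  map_lact : ∀ a x, map (X.lact a x) = Y.lact a (map x)
  map_ract : ∀ a x, map (X.ract a x) = Y.ract a (map x)

/-- `P` is a projective bimodule. -/
def BProjective (P : BMod A) : Prop :=
  ∀ (Y : BMod A) (f : BMor Y P),
    (∃ s : P.carrier → Y.carrier, IsBoundedLinearMap ℂ s ∧ ∀ p, f.map (s p) = p) →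
    ∃ s : BMor P Y, ∀ p, f.map (s.map p) = p

/-- An (admissible) projective resolution of the bimodule `X`. -/
structure BResolution (X : BMod A) where
  P : ℕ → BMod A
  ε : BMor (P 0) X
  d : ∀ k, BMor (P (k + 1)) (P k)
  projective : ∀ k, BProjective (P k)
  ε_d : ∀ p, ε.map ((d 0).map p) = 0
  d_d : ∀ k p, (d k).map ((d (k + 1)).map p) = 0
  s₀ : X.carrier → (P 0).carrier
  s : ∀ k, (P k).carrier → (P (k + 1)).carrier
  s₀_bdd : IsBoundedLinearMap ℂ s₀
  s_bdd : ∀ k, IsBoundedLinearMap ℂ (s k)
  ε_s₀ : ∀ x, ε.map (s₀ x) = x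
  split₀ : ∀ p, s₀ (ε.map p) + (d 0).map (s 0 p) = p
  split : ∀ k p, s k ((d k).map p) + (d (k + 1)).map (s (k + 1) p) = p

/-- The homological dimension `dh_{A-A} X` of a bimodule. -/
def dhB (X : BMod A) : ℕ∞ :=
  ⨅ (n : ℕ) (_ : ∃ R : BResolution X, ∀ k, n < k → Subsingleton (R.P k).carrier), (n : ℕ∞)

variable (A) [IsScalarTower ℂ A A] [SMulCommClass ℂ A A]

/-- the inclusion of `A` in its unitization `A₊ = ℂ ⊕ A`, normed by `‖λ + a‖ = |λ| + ‖a‖` -/
def inPlus (a : A) : WithLp 1 (Unitization ℂ A) := WithLp.toLp 1 (a : Unitization ℂ A)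

theorem lbil_plus : IsBoundedBilinearMap ℂ
    (fun p : A × WithLp 1 (Unitization ℂ A) => inPlus A p.1 * p.2) :=
  ((ContinuousLinearMap.mul ℂ (Plus A)).comp (Dim.inPlus A)).isBoundedBilinearMap

theorem rbil_plus : IsBoundedBilinearMap ℂ
    (fun p : A × WithLp 1 (Unitization ℂ A) => p.2 * inPlus A p.1) :=
  ((ContinuousLinearMap.mul ℂ (Plus A)).flip.comp (Dim.inPlus A)).isBoundedBilinearMap

theorem inPlus_mul (a b : A) : inPlus A (a * b) = inPlus A a * inPlus A b :=
  congrArg (WithLp.toLp 1) (Unitization.inr_mul ℂ a b)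

theorem lact_mul_plus (a b : A) (x : WithLp 1 (Unitization ℂ A)) :
    inPlus A (a * b) * x = inPlus A a * (inPlus A b * x) := by
  rw [inPlus_mul, mul_assoc]

theorem ract_mul_plus (a b : A) (x : WithLp 1 (Unitization ℂ A)) :
    x * inPlus A (a * b) = x * inPlus A a * inPlus A b := by
  rw [inPlus_mul, mul_assoc]

theorem comm_plus (a b : A) (x : WithLp 1 (Unitization ℂ A)) :
    inPlus A a * (x * inPlus A b) = inPlus A a * x * inPlus A b :=
  (mul_assoc (inPlus A a) x (inPlus A b)).symm

/-- `A₊` as an `A`-bimodule. -/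
def plusMod [CompleteSpace A] : BMod A where
  carrier := WithLp 1 (Unitization ℂ A)
  lact := fun a x => inPlus A a * x
  ract := fun a x => x * inPlus A a
  lbil := lbil_plus A
  rbil := rbil_plus A
  lact_mul := lact_mul_plus A
  ract_mul := ract_mul_plus A
  comm := comm_plus A

/-- The bidimension `db A = dh_{A-A} A₊`. -/
def db [CompleteSpace A] : ℕ∞ := dhB (plusMod A)

end general

section group

variable {G : Type u} [Group G] [TopologicalSpace G] [IsTopologicalGroup G]
  [LocallyCompactSpace G] [MeasurableSpace G] [BorelSpace G]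
  (μ : Measure G) [μ.IsHaarMeasure] [μ.Regular]

/-- the action of `L¹(G)` on `ℂ`: `f · z = (∫ f dμ) z` -/
def augAct (f : L1Alg μ) (z : ULift.{u} ℂ) : ULift.{u} ℂ :=
  (∫ t, (show Lp ℂ 1 μ from f) t ∂μ) • z

theorem augAct_bil : IsBoundedBilinearMap ℂ
    (fun p : L1Alg μ × ULift.{u} ℂ => augAct μ p.1 p.2) :=
  (Dim.augMod μ).act.isBoundedBilinearMap

theorem augAct_mul (f g : L1Alg μ) (z : ULift.{u} ℂ) :
    augAct μ (f * g) z = augAct μ f (augAct μ g z) := (Dim.augMod μ).act_mul f g z

/-- The augmentation module `ℂ`. -/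
def augMod : LMod (L1Alg μ) where
  carrier := ULift.{u} ℂ
  act := augAct μ
  bil := augAct_bil μ
  act_mul := augAct_mul μ

end group

end

end Pool.Agent.H83.HD
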