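import Pool.Agent.H83.Dim.Defs

/-! # Elementary tensors and the multiplication map (helper83, for MP_df984a_an) -/

namespace Pool.Agent.H83.Dim

open Filter Topology Set MeasureTheory
open scoped ENNReal

noncomputable section

set_option linter.unusedSectionVars false

variable {G : Type*} [Group G] [TopologicalSpace G] [IsTopologicalGroup G]
  [LocallyCompactSpace G] [MeasurableSpace G] [BorelSpace G]
  (μ : Measure G) [μ.IsHaarMeasure] [μ.Regular]
  {Q X : Type*} [NormedAddCommGroup Q] [NormedSpace ℂ Q]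
  [NormedAddCommGroup X] [NormedSpace ℂ X]

/-- the elementary tensor `a ⊗ q : x ↦ a(x) q` -/
def tens (a : Lp ℂ 1 μ) (q : Q) : Lp Q 1 μ :=
  (ContinuousLinearMap.toSpanSingleton ℂ q).compLp a

theorem coeFn_tens (a : Lp ℂ 1 μ) (q : Q) : tens μ a q =ᵐ[μ] fun x => a x • q := by
  filter_upwards [(ContinuousLinearMap.toSpanSingleton ℂ q).coeFn_compLp a] with x hx
  rw [tens, hx, ContinuousLinearMap.toSpanSingleton_apply]

theorem norm_tens_le (a : Lp ℂ 1 μ) (q : Q) : ‖tens μ a q‖ ≤ ‖a‖ * ‖q‖ := by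
  refine (ContinuousLinearMap.norm_compLp_le _ a).trans (le_of_eq ?_)
  rw [ContinuousLinearMap.norm_toSpanSingleton, mul_comm]

/-- tensors as a bilinear map -/
def tensL : Lp ℂ 1 μ →L[ℂ] Q →L[ℂ] Lp Q 1 μ :=
  LinearMap.mkContinuous₂
    (LinearMap.mk₂ ℂ (fun (a : Lp ℂ 1 μ) (q : Q) => tens μ a q)
      (by
        intro f g v
        apply Lp.ext
        filter_upwards [Lp.coeFn_add f g, coeFn_tens μ (f + g) v, coeFn_tens μ f v,
          coeFn_tens μ g v, Lp.coeFn_add (tens μ f v) (tens μ g v)] with x h1 h2 h3 h4 h5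
        rw [h2, h5, Pi.add_apply, h3, h4, h1, Pi.add_apply, add_smul])
      (by
        intro c f v
        apply Lp.ext
        filter_upwards [Lp.coeFn_smul c f, coeFn_tens μ (c • f) v, coeFn_tens μ f v,
          Lp.coeFn_smul c (tens μ f v)] with x h1 h2 h3 h4
        rw [h2, h4, Pi.smul_apply, h3, h1, Pi.smul_apply, smul_assoc])
      (by
        intro f v w
        apply Lp.ext
        filter_upwards [coeFn_tens μ f (v + w), coeFn_tens μ f v, coeFn_tens μ f w,
          Lp.coeFn_add (tens μ f v) (tens μ f w)] with x h2 h3 h4 h5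
        rw [h2, h5, Pi.add_apply, h3, h4, smul_add])
      (by
        intro c f v
        apply Lp.ext
        filter_upwards [coeFn_tens μ f (c • v), coeFn_tens μ f v,
          Lp.coeFn_smul c (tens μ f v)] with x h2 h3 h4
        rw [h2, h4, Pi.smul_apply, h3, smul_comm]))
    1
    (by
      intro f v
      rw [LinearMap.mk₂_apply, one_mul]
      exact norm_tens_le μ f v)

@[simp] theorem tensL_apply (a : Lp ℂ 1 μ) (q : Q) : tensL μ a q = tens μ a q := rfl

theorem tr_tens (g : G) (a : Lp ℂ 1 μ) (q : Q) : tr μ g (tens μ a q) = tens μ (tr μ g a) q :=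
  tr_comp μ _ g a

theorem compLp_tens (L : Q →L[ℂ] X) (a : Lp ℂ 1 μ) (q : Q) :
    L.compLp (tens μ a q) = tens μ a (L q) := by
  apply Lp.ext
  filter_upwards [L.coeFn_compLp (tens μ a q), coeFn_tens μ a q, coeFn_tens μ a (L q)]
    with x h1 h2 h3
  rw [h1, h2, h3, map_smul]

theorem indicator_tens {s : Set G} (hs : MeasurableSet s) (hμs : μ s ≠ ∞) (q : Q) :
    indicatorConstLp 1 hs hμs q = tens μ (indicatorConstLp 1 hs hμs (1 : ℂ)) q := by
  apply Lp.ext
  filter_upwards [indicatorConstLp_coeFn (p := 1) (hs := hs) (hμs := hμs) (c := q),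
    coeFn_tens μ (indicatorConstLp 1 hs hμs (1 : ℂ)) q,
    indicatorConstLp_coeFn (p := 1) (hs := hs) (hμs := hμs) (c := (1 : ℂ))] with x h1 h2 h3
  rw [h1, h2, h3]
  by_cases hx : x ∈ s
  · simp [hx]
  · simp [hx]

/-- continuous linear maps on `L¹(G; Q)` are determined by elementary tensors -/
theorem tens_ext {S T : Lp Q 1 μ →L[ℂ] X} (h : ∀ a q, S (tens μ a q) = T (tens μ a q)) :
    S = T := by
  ext F
  induction F using Lp.induction (hp_ne_top := ENNReal.one_ne_top) with
  | indicatorConst c hs hμs =>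
      rw [Lp.simpleFunc.coe_indicatorConst, indicator_tens]
      exact h _ _
  | add hf hg _ h1 h2 => rw [map_add, map_add, h1, h2]
  | isClosed => exact isClosed_eq S.continuous T.continuous

theorem tens_ext' {S T : Lp Q 1 μ →L[ℂ] X} (h : ∀ a q, S (tens μ a q) = T (tens μ a q))
    (F : Lp Q 1 μ) : S F = T F := by rw [tens_ext μ h]

theorem int_tens (a b : Lp ℂ 1 μ) (q : Q) [CompleteSpace Q] :
    (trRep μ Q).int μ a (tens μ b q) = tens μ (conv μ a b) q := by
  have hi : Integrable (fun t => a t • tr μ t b) μ := (trRep μ ℂ).integrable μ a b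
  have h1 : ((tensL μ : Lp ℂ 1 μ →L[ℂ] Q →L[ℂ] Lp Q 1 μ).flip q) (conv μ a b) =
      ∫ t, ((tensL μ : Lp ℂ 1 μ →L[ℂ] Q →L[ℂ] Lp Q 1 μ).flip q) (a t • tr μ t b) ∂μ := by
    rw [conv_def, ContinuousLinearMap.integral_comp_comm _ hi]
  rw [ContinuousLinearMap.flip_apply, tensL_apply] at h1
  rw [h1, Rep.int_apply]
  congr 1
  funext t
  rw [map_smul, ContinuousLinearMap.flip_apply, tensL_apply, ← tr_tens]
  rfl

/-! ### the multiplication map -/

variable [CompleteSpace Q] (α : Lp ℂ 1 μ →L[ℂ] Q →L[ℂ] Q)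

open Classical in
/-- vector measure underlying the multiplication map -/
def mT (s : Set G) : Q →L[ℝ] Q :=
  if h : MeasurableSet s ∧ μ s ≠ ∞ then
    (α (indicatorConstLp 1 h.1 h.2 (1 : ℂ))).restrictScalars ℝ
  else 0

theorem mT_eq {s : Set G} (hs : MeasurableSet s) (hμs : μ s ≠ ∞) (q : Q) :
    mT μ α s q = α (indicatorConstLp 1 hs hμs (1 : ℂ)) q := by
  rw [mT, dif_pos ⟨hs, hμs⟩]; rfl

theorem mT_dom : DominatedFinMeasAdditive μ (mT μ α) ‖α‖ := by
  constructor
  · intro s t hs ht hμs hμt hst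
    ext q
    have hμst : μ (s ∪ t) ≠ ∞ := ((measure_union_le s t).trans_lt
      (ENNReal.add_lt_top.2 ⟨hμs.lt_top, hμt.lt_top⟩)).ne
    rw [_root_.add_apply, mT_eq μ α (hs.union ht) hμst, mT_eq μ α hs hμs, mT_eq μ α ht hμt,
      ← _root_.add_apply, ← map_add, indicatorConstLp_disjoint_union hs ht hμs hμt hst]
  · intro s hs hμs
    refine ContinuousLinearMap.opNorm_le_bound _
      (mul_nonneg (ContinuousLinearMap.opNorm_nonneg α) measureReal_nonneg) (fun q => ?_)
    rw [mT_eq μ α hs hμs.ne]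
    refine (α.le_opNorm₂ _ _).trans (le_of_eq ?_)
    rw [norm_indicatorConstLp one_ne_zero ENNReal.one_ne_top]
    simp

theorem mT_smul (c : ℂ) (s : Set G) (q : Q) : mT μ α s (c • q) = c • mT μ α s q := by
  by_cases h : MeasurableSet s ∧ μ s ≠ ∞
  · rw [mT_eq μ α h.1 h.2, mT_eq μ α h.1 h.2, map_smul]
  · rw [mT, dif_neg h]; simp

/-- the multiplication map `L¹(G; Q) → Q`, `a ⊗ q ↦ a q` -/
def mult : Lp Q 1 μ →L[ℂ] Q := L1.setToL1' ℂ (mT_dom μ α) (mT_smul μ α)

theorem mult_indicator {s : Set G} (hs : MeasurableSet s) (hμs : μ s ≠ ∞) (q : Q) :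
    mult μ α (indicatorConstLp 1 hs hμs q) = α (indicatorConstLp 1 hs hμs (1 : ℂ)) q := by
  rw [mult, ← L1.setToL1_eq_setToL1', L1.setToL1_indicatorConstLp, mT_eq μ α hs hμs]

@[simp] theorem mult_tens (a : Lp ℂ 1 μ) (q : Q) : mult μ α (tens μ a q) = α a q := by
  have h : (mult μ α).comp ((tensL μ : Lp ℂ 1 μ →L[ℂ] Q →L[ℂ] Lp Q 1 μ).flip q) = α.flip q := by
    ext a
    induction a using Lp.induction (hp_ne_top := ENNReal.one_ne_top) with
    | indicatorConst c hs hμs =>
        rw [Lp.simpleFunc.coe_indicatorConst, ContinuousLinearMap.comp_apply,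
          ContinuousLinearMap.flip_apply, tensL_apply]
        have h1 : indicatorConstLp 1 hs hμs.ne c =
            c • indicatorConstLp 1 hs hμs.ne (1 : ℂ) := by
          rw [indicator_tens]
          apply Lp.ext
          filter_upwards [coeFn_tens μ (indicatorConstLp 1 hs hμs.ne (1 : ℂ)) c,
            Lp.coeFn_smul c (indicatorConstLp 1 hs hμs.ne (1 : ℂ) : Lp ℂ 1 μ)] with x h1 h2
          rw [h1, h2, Pi.smul_apply, smul_eq_mul, smul_eq_mul, mul_comm]
        rw [h1, ← tensL_apply, map_smul, map_smul, _root_.smul_apply, map_smul,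
          tensL_apply, ← indicator_tens, mult_indicator]
        rfl
    | add hf hg _ h1 h2 => rw [map_add, map_add, h1, h2]
    | isClosed =>
        exact isClosed_eq (ContinuousLinearMap.continuous _) (ContinuousLinearMap.continuous _)
  exact congrArg (fun T => T a) h

variable (hα : ∀ f g q, α (conv μ f g) q = α f (α g q))

include hα in
theorem mult_int (a : Lp ℂ 1 μ) (F : Lp Q 1 μ) :
    mult μ α ((trRep μ Q).int μ a F) = α a (mult μ α F) := by
  have h : (mult μ α).comp ((trRep μ Q).int μ a) = (α a).comp (mult μ α) := by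
    apply tens_ext
    intro b q
    rw [ContinuousLinearMap.comp_apply, ContinuousLinearMap.comp_apply, int_tens, mult_tens,
      mult_tens, hα]
  exact congrArg (fun T => T F) h

/-! ### approximate identity -/

theorem exists_approx (F : Lp Q 1 μ) {ε : ℝ} (hε : 0 < ε) :
    ∃ e : Lp ℂ 1 μ, ‖e‖ ≤ 1 ∧ (∫ t, e t ∂μ) = 1 ∧ ‖(trRep μ Q).int μ e F - F‖ ≤ ε := by
  have hc := continuous_tr μ F
  have h1 : ∀ᶠ t in 𝓝 (1 : G), ‖tr μ t F - F‖ < ε := by
    have h2 : Tendsto (fun t => ‖tr μ t F - F‖) (𝓝 1) (𝓝 ‖tr μ (1 : G) F - F‖) :=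
      ((hc.sub continuous_const).norm).tendsto 1
    rw [tr_one, sub_self, norm_zero] at h2
    exact h2.eventually (gt_mem_nhds hε)
  obtain ⟨K, hKc, hK⟩ := exists_compact_mem_nhds (1 : G)
  obtain ⟨U, hUsub, hUo, hU1⟩ := mem_nhds_iff.1 (Filter.inter_mem h1 hK)
  have hUm : MeasurableSet U := hUo.measurableSet
  have hUf : μ U ≠ ∞ :=
    ((measure_mono (hUsub.trans inter_subset_right)).trans_lt hKc.measure_lt_top).ne
  have hU0 : μ U ≠ 0 := (hUo.measure_pos μ ⟨1, hU1⟩).ne'
  have hr : 0 < μ.real U := ENNReal.toReal_pos hU0 hUf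
  set c : ℂ := Complex.ofReal ((μ.real U)⁻¹) with hcdef
  have hcn : ‖c‖ = (μ.real U)⁻¹ := by
    rw [hcdef, Complex.norm_real, Real.norm_of_nonneg (by positivity)]
  set e : Lp ℂ 1 μ := indicatorConstLp 1 hUm hUf c with he
  have hen : ‖e‖ ≤ 1 := by
    rw [he, norm_indicatorConstLp one_ne_zero ENNReal.one_ne_top, hcn]
    simp only [ENNReal.toReal_one, div_one, Real.rpow_one]
    rw [inv_mul_cancel₀ hr.ne']
  have hei : (∫ t, e t ∂μ) = 1 := by
    rw [he, integral_indicatorConstLp, hcdef]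
    rw [Complex.real_smul, ← Complex.ofReal_mul, mul_inv_cancel₀ hr.ne', Complex.ofReal_one]
  refine ⟨e, hen, hei, ?_⟩
  rw [Rep.int_apply]
  have hi1 : Integrable (fun t => e t • (trRep μ Q).π t F) μ := (trRep μ Q).integrable μ e F
  have hi2 : Integrable (fun t => e t • F) μ := (L1.integrable_coeFn e).smul_const F
  have h3 : F = ∫ t, e t • F ∂μ := by
    rw [integral_smul_const, hei, one_smul]
  conv_lhs => rw [h3]
  have h4 : ∫ t, e t • (trRep μ Q).π t (∫ t, e t • F ∂μ) ∂μ - ∫ t, e t • (∫ t, e t • F ∂μ) ∂μ =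
      ∫ t, (e t • (trRep μ Q).π t F - e t • F) ∂μ := by
    rw [← h3, integral_sub hi1 hi2]
  have h5 : ‖∫ t, (e t • (trRep μ Q).π t F - e t • F) ∂μ‖ ≤ ∫ t, ‖e t‖ * ε ∂μ := by
    refine norm_integral_le_of_norm_le ((L1.integrable_coeFn e).norm.mul_const ε) ?_
    filter_upwards [indicatorConstLp_coeFn (p := 1) (hs := hUm) (hμs := hUf) (c := c)] with t ht
    rw [← smul_sub, norm_smul]
    by_cases htU : t ∈ U
    · refine mul_le_mul_of_nonneg_left ?_ (norm_nonneg _)
      exact (hUsub htU).1.le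
    · have : e t = 0 := by rw [he, ht, indicator_of_notMem htU]
      rw [this, norm_zero, zero_mul, zero_mul]
  have h6 : ∫ t, ‖e t‖ * ε ∂μ ≤ ε := by
    rw [integral_mul_const, ← L1.norm_eq_integral_norm]
    exact mul_le_of_le_one_left hε.le hen
  have h7 := h5.trans h6
  rw [integral_sub hi1 hi2] at h7
  rw [← h3]
  rw [← h3] at h7
  exact h7

end

end Pool.Agent.H83.Dim
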