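import Pool.Agent.H83.Dim.Bidim

/-! # `dg A ≤ db A` (helper83, for MP_216d05_an)

The functor `P ↦ P ⊗_A X` on Banach bimodules, realised as the closed span of the evaluations in
the dual of the space of bounded balanced bilinear forms. -/

namespace Pool.Agent.H83.TX

open Pool.Agent.H83.Dim

open Filter Topology Set

noncomputable section

set_option linter.unusedSectionVars false

universe u

variable {A : Type u} [NonUnitalNormedRing A] [NormedSpace ℂ A]

section tensor

variable (X : LMod A) (P : BMod A)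

/-- bounded bilinear forms -/
def BF : Type u := P →L[ℂ] X →L[ℂ] ℂ

instance : NormedAddCommGroup (BF X P) := inferInstanceAs (NormedAddCommGroup (P →L[ℂ] X →L[ℂ] ℂ))
instance : NormedSpace ℂ (BF X P) := inferInstanceAs (NormedSpace ℂ (P →L[ℂ] X →L[ℂ] ℂ))

variable {X P} in
/-- view as a bilinear map -/
def bf (β : BF X P) : P →L[ℂ] X →L[ℂ] ℂ := β

/-- bounded balanced bilinear forms -/
def Bal : Submodule ℂ (BF X P) where
  carrier := {β | ∀ a p x, bf β (P.ract a p) x = bf β p (X.act a x)}
  add_mem' := by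
    intro β γ hβ hγ a p x
    have h1 : bf β (P.ract a p) x = bf β p (X.act a x) := hβ a p x
    have h2 : bf γ (P.ract a p) x = bf γ p (X.act a x) := hγ a p x
    change bf β (P.ract a p) x + bf γ (P.ract a p) x = bf β p (X.act a x) + bf γ p (X.act a x)
    rw [h1, h2]
  zero_mem' := fun a p x => rfl
  smul_mem' := by
    intro c β hβ a p x
    have h1 : bf β (P.ract a p) x = bf β p (X.act a x) := hβ a p x
    change c • bf β (P.ract a p) x = c • bf β p (X.act a x)
    rw [h1]

/-- the dual of the space of balanced forms -/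
def BalD : Type u := Bal X P →L[ℂ] ℂ

instance : NormedAddCommGroup (BalD X P) := inferInstanceAs (NormedAddCommGroup (Bal X P →L[ℂ] ℂ))
instance : NormedSpace ℂ (BalD X P) := inferInstanceAs (NormedSpace ℂ (Bal X P →L[ℂ] ℂ))
instance : CompleteSpace (BalD X P) := inferInstanceAs (CompleteSpace (Bal X P →L[ℂ] ℂ))

variable {X P} in
/-- evaluate an element of the dual -/
def apB (Φ : BalD X P) : Bal X P →L[ℂ] ℂ := Φ

/-- the pairing at `p`, `x` -/
def ev0 (p : P) (x : X) : Bal X P →L[ℂ] ℂ :=
  LinearMap.mkContinuous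
    { toFun := fun β : Bal X P => bf (β : BF X P) p x
      map_add' := fun _ _ => rfl
      map_smul' := fun _ _ => rfl } (‖p‖ * ‖x‖) (fun β => by
      change ‖bf (β : BF X P) p x‖ ≤ _
      refine ((bf (β : BF X P)).le_opNorm₂ p x).trans (le_of_eq ?_)
      change ‖β‖ * _ * _ = _
      ring)

theorem ev0_apply (p : P) (x : X) (β : Bal X P) : ev0 X P p x β = bf (β : BF X P) p x := rfl

/-- the evaluation `β ↦ β p x` -/
def evB : P →L[ℂ] X →L[ℂ] BalD X P :=
  LinearMap.mkContinuous₂
    (LinearMap.mk₂ ℂ (fun (p : P) (x : X) => (show BalD X P from ev0 X P p x))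
      (fun p q x => ContinuousLinearMap.ext (fun β => by
        change bf (β : BF X P) (p + q) x = bf (β : BF X P) p x + bf (β : BF X P) q x
        rw [map_add]; rfl))
      (fun c p x => ContinuousLinearMap.ext (fun β => by
        change bf (β : BF X P) (c • p) x = c • bf (β : BF X P) p x
        rw [map_smul]; rfl))
      (fun p x y => ContinuousLinearMap.ext (fun β => by
        change bf (β : BF X P) p (x + y) = bf (β : BF X P) p x + bf (β : BF X P) p y
        rw [map_add]))
      (fun c p x => ContinuousLinearMap.ext (fun β => by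
        change bf (β : BF X P) p (c • x) = c • bf (β : BF X P) p x
        rw [map_smul]))) 1
    (fun p x => by
      rw [LinearMap.mk₂_apply, one_mul]
      exact LinearMap.mkContinuous_norm_le _ (by positivity) _)

theorem apB_evB (p : P) (x : X) (β : Bal X P) :
    apB (evB X P p x) β = bf (β : BF X P) p x := rfl

theorem evB_bal (a : A) (p : P) (x : X) : evB X P (P.ract a p) x = evB X P p (X.act a x) :=
  ContinuousLinearMap.ext (fun β => β.2 a p x)

/-- the underlying space of `P ⊗_A X` -/
def tS : Submodule ℂ (BalD X P) :=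
  (Submodule.span ℂ {Φ | ∃ p x, Φ = evB X P p x}).topologicalClosure

theorem isClosed_tS : IsClosed (tS X P : Set (BalD X P)) := Submodule.isClosed_topologicalClosure _

instance : CompleteSpace (tS X P) := (isClosed_tS X P).completeSpace_coe

theorem evB_mem (p : P) (x : X) : evB X P p x ∈ tS X P :=
  Submodule.le_topologicalClosure _ (Submodule.subset_span ⟨p, x, rfl⟩)

/-- the tensor `p ⊗ x` -/
def tm : P →L[ℂ] X →L[ℂ] tS X P :=
  LinearMap.mkContinuous₂
    (LinearMap.mk₂ ℂ (fun (p : P) (x : X) => (⟨evB X P p x, evB_mem X P p x⟩ : tS X P))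
      (fun p q x => Subtype.ext (by
        change evB X P (p + q) x = evB X P p x + evB X P q x
        rw [map_add]; rfl))
      (fun c p x => Subtype.ext (by
        change evB X P (c • p) x = c • evB X P p x
        rw [map_smul]; rfl))
      (fun p x y => Subtype.ext (map_add (evB X P p) _ _))
      (fun c p x => Subtype.ext (map_smul (evB X P p) c _))) ‖evB X P‖
    (fun p x => (evB X P).le_opNorm₂ p x)

theorem coe_tm (p : P) (x : X) : (tm X P p x : BalD X P) = evB X P p x := rfl

theorem tm_bal (a : A) (p : P) (x : X) : tm X P (P.ract a p) x = tm X P p (X.act a x) :=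
  Subtype.ext (evB_bal X P a p x)

variable {X P}

/-- maps out of the tensor product are determined on elementary tensors -/
theorem tS_ext {W : Type*} [NormedAddCommGroup W] [NormedSpace ℂ W] {f g : tS X P →L[ℂ] W}
    (h : ∀ p x, f (tm X P p x) = g (tm X P p x)) : f = g := by
  set S : Submodule ℂ (tS X P) := LinearMap.ker ((f - g : tS X P →L[ℂ] W) : tS X P →ₗ[ℂ] W) with hS
  have hSc : IsClosed (S : Set (tS X P)) := ContinuousLinearMap.isClosed_ker (f - g)
  set N : Submodule ℂ (BalD X P) := S.map (tS X P).subtype with hN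
  have hNc : IsClosed (N : Set (BalD X P)) := by
    have h1 := (isClosed_tS X P).isClosedEmbedding_subtypeVal.isClosedMap _ hSc
    have h2 : (N : Set (BalD X P)) = Subtype.val '' (S : Set (tS X P)) := by
      rw [hN, Submodule.map_coe]; rfl
    rw [h2]; exact h1
  have hle : tS X P ≤ N := by
    refine Submodule.topologicalClosure_minimal _ ?_ hNc
    rw [Submodule.span_le]
    rintro _ ⟨p, x, rfl⟩
    refine ⟨tm X P p x, ?_, rfl⟩
    change (f - g) (tm X P p x) = 0
    rw [_root_.sub_apply, h, sub_self]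
  ext Φ
  obtain ⟨Ψ, hΨ, h2⟩ := hle Φ.2
  have h3 : Ψ = Φ := Subtype.ext h2
  subst h3
  have h4 : (f - g) Ψ = 0 := hΨ
  rwa [_root_.sub_apply, sub_eq_zero] at h4

/-- the double dual -/
def DD (W : Type u) [NormedAddCommGroup W] [NormedSpace ℂ W] : Type u := (W →L[ℂ] ℂ) →L[ℂ] ℂ

section DD

variable (W : Type u) [NormedAddCommGroup W] [NormedSpace ℂ W]

instance : NormedAddCommGroup (DD W) := inferInstanceAs (NormedAddCommGroup ((W →L[ℂ] ℂ) →L[ℂ] ℂ))
instance : NormedSpace ℂ (DD W) := inferInstanceAs (NormedSpace ℂ ((W →L[ℂ] ℂ) →L[ℂ] ℂ))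

variable {W} in
/-- view as a functional -/
def dv (Φ : DD W) : (W →L[ℂ] ℂ) →L[ℂ] ℂ := Φ

/-- the isometric embedding in the double dual -/
def JW : W →ₗᵢ[ℂ] DD W := NormedSpace.inclusionInDoubleDualLi ℂ

theorem JW_apply (y : W) (w : W →L[ℂ] ℂ) : dv (JW W y) w = w y := rfl

end DD

section lift

variable {W : Type u} [NormedAddCommGroup W] [NormedSpace ℂ W] [CompleteSpace W]

/-- functionals composed with a balanced map -/
def KB (B : P →L[ℂ] X →L[ℂ] W) (hB : ∀ a p x, B (P.ract a p) x = B p (X.act a x)) :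
    (W →L[ℂ] ℂ) →L[ℂ] Bal X P :=
  ((((ContinuousLinearMap.compL ℂ P (X →L[ℂ] W) (X →L[ℂ] ℂ)).flip B).comp
    (ContinuousLinearMap.compL ℂ X W ℂ) : (W →L[ℂ] ℂ) →L[ℂ] BF X P)).codRestrict (Bal X P)
    (fun w a p x => by
      change w (B (P.ract a p) x) = w (B p (X.act a x))
      rw [hB])

theorem KB_apply (B : P →L[ℂ] X →L[ℂ] W) (hB : ∀ a p x, B (P.ract a p) x = B p (X.act a x))
    (w : W →L[ℂ] ℂ) (p : P) (x : X) :
    bf ((KB B hB w : Bal X P) : BF X P) p x = w (B p x) := rfl

/-- the map into the double dual -/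
def ThB (B : P →L[ℂ] X →L[ℂ] W) (hB : ∀ a p x, B (P.ract a p) x = B p (X.act a x)) :
    BalD X P →L[ℂ] DD W :=
  (ContinuousLinearMap.compL ℂ (W →L[ℂ] ℂ) (Bal X P) ℂ).flip (KB B hB)

theorem ThB_apply (B : P →L[ℂ] X →L[ℂ] W) (hB : ∀ a p x, B (P.ract a p) x = B p (X.act a x))
    (Φ : BalD X P) (w : W →L[ℂ] ℂ) : dv (ThB B hB Φ) w = apB Φ (KB B hB w) := rfl

theorem ThB_evB (B : P →L[ℂ] X →L[ℂ] W) (hB : ∀ a p x, B (P.ract a p) x = B p (X.act a x))
    (p : P) (x : X) : ThB B hB (evB X P p x) = JW W (B p x) :=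
  ContinuousLinearMap.ext (fun w => rfl)

theorem ThB_mem (B : P →L[ℂ] X →L[ℂ] W) (hB : ∀ a p x, B (P.ract a p) x = B p (X.act a x))
    (Φ : tS X P) : ThB B hB (Φ : BalD X P) ∈ LinearMap.range (JW W).toLinearMap := by
  have hcl : IsClosed ((LinearMap.range (JW W).toLinearMap : Submodule ℂ (DD W)) :
      Set (DD W)) := by
    have h1 := (JW W).isometry.isUniformInducing.isComplete_range.isClosed
    exact h1
  have hle : tS X P ≤ (LinearMap.range (JW W).toLinearMap).comap
      (ThB B hB : BalD X P →ₗ[ℂ] DD W) := by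
    refine Submodule.topologicalClosure_minimal _ ?_ (hcl.preimage (ThB B hB).continuous)
    rw [Submodule.span_le]
    rintro _ ⟨p, x, rfl⟩
    exact ⟨B p x, (ThB_evB B hB p x).symm⟩
  exact hle Φ.2

/-- maps out of the tensor product -/
def tlift (B : P →L[ℂ] X →L[ℂ] W) (hB : ∀ a p x, B (P.ract a p) x = B p (X.act a x)) :
    tS X P →L[ℂ] W :=
  ((JW W).equivRange.symm : _ ≃L[ℂ] W).toContinuousLinearMap.comp
    (((ThB B hB).comp (tS X P).subtypeL).codRestrict _ (ThB_mem B hB))

theorem tlift_tm (B : P →L[ℂ] X →L[ℂ] W) (hB : ∀ a p x, B (P.ract a p) x = B p (X.act a x))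
    (p : P) (x : X) : tlift B hB (tm X P p x) = B p x := by
  apply (JW W).injective
  have h1 : (JW W) (tlift B hB (tm X P p x)) = ThB B hB (tm X P p x : BalD X P) := by
    have h2 := (JW W).equivRange.apply_symm_apply
      ((((ThB B hB).comp (tS X P).subtypeL).codRestrict _ (ThB_mem B hB)) (tm X P p x))
    exact congrArg Subtype.val h2
  rw [h1]
  exact ThB_evB B hB p x

end lift

variable (X P)

/-- the action as a balanced map -/
def actB : P →L[ℂ] X →L[ℂ] (A →L[ℂ] tS X P) :=
  ((ContinuousLinearMap.flipₗᵢ ℂ A X (tS X P)).toContinuousLinearEquiv.toContinuousLinearMap).comp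
    ((ContinuousLinearMap.compL ℂ A P (X →L[ℂ] tS X P) (tm X P)).comp P.lact.flip)

theorem actB_apply (p : P) (x : X) (a : A) : actB X P p x a = tm X P (P.lact a p) x := rfl

theorem actB_bal (a : A) (p : P) (x : X) : actB X P (P.ract a p) x = actB X P p (X.act a x) := by
  ext b
  rw [actB_apply, actB_apply, P.comm, tm_bal]

/-- the action as a map -/
def actT : tS X P →L[ℂ] (A →L[ℂ] tS X P) :=
  tlift (W := A →L[ℂ] tS X P) (actB X P) (actB_bal X P)

theorem actT_tm (p : P) (x : X) (a : A) : actT X P (tm X P p x) a = tm X P (P.lact a p) x := by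
  rw [actT, tlift_tm, actB_apply]

/-- the left module `P ⊗_A X` -/
def tens : LMod A where
  carrier := tS X P
  act := (actT X P).flip
  act_mul := by
    intro a b Φ
    have h : (actT X P).flip (a * b) = ((actT X P).flip a).comp ((actT X P).flip b) := by
      apply tS_ext
      intro p x
      rw [ContinuousLinearMap.comp_apply, ContinuousLinearMap.flip_apply,
        ContinuousLinearMap.flip_apply, ContinuousLinearMap.flip_apply, actT_tm, actT_tm, actT_tm,
        P.lact_mul]
    rw [h]; rfl

/-- `p ⊗ x` as an element of the module -/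
def tq : P →L[ℂ] X →L[ℂ] tens X P := tm X P

theorem tens_act_tq (a : A) (p : P) (x : X) :
    (tens X P).act a (tq X P p x) = tq X P (P.lact a p) x := actT_tm X P p x a

theorem tq_bal (a : A) (p : P) (x : X) : tq X P (P.ract a p) x = tq X P p (X.act a x) :=
  tm_bal X P a p x

variable {X P}

theorem tens_ext {W : Type*} [NormedAddCommGroup W] [NormedSpace ℂ W] {f g : tens X P →L[ℂ] W}
    (h : ∀ p x, f (tq X P p x) = g (tq X P p x)) : f = g := tS_ext h

theorem tens_ext' {W : Type*} [NormedAddCommGroup W] [NormedSpace ℂ W] {f g : tens X P →L[ℂ] W}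
    (h : ∀ p x, f (tq X P p x) = g (tq X P p x)) (Φ : tens X P) : f Φ = g Φ := by
  rw [tens_ext h]

variable {W : Type u} [NormedAddCommGroup W] [NormedSpace ℂ W] [CompleteSpace W]

/-- maps out of `P ⊗_A X` -/
def qlift (B : P →L[ℂ] X →L[ℂ] W) (hB : ∀ a p x, B (P.ract a p) x = B p (X.act a x)) :
    tens X P →L[ℂ] W := tlift B hB

theorem qlift_tq (B : P →L[ℂ] X →L[ℂ] W) (hB : ∀ a p x, B (P.ract a p) x = B p (X.act a x))
    (p : P) (x : X) : qlift B hB (tq X P p x) = B p x := tlift_tm B hB p x

/-- functoriality in right-linear maps -/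
def tmap {Q : BMod A} (f : P →L[ℂ] Q) (hf : IsR f) : tens X P →L[ℂ] tens X Q :=
  qlift ((tq X Q).comp f) (fun a p x => by
    rw [ContinuousLinearMap.comp_apply, ContinuousLinearMap.comp_apply, hf, tq_bal])

theorem tmap_tq {Q : BMod A} (f : P →L[ℂ] Q) (hf : IsR f) (p : P) (x : X) :
    tmap f hf (tq X P p x) = tq X Q (f p) x := qlift_tq _ _ p x

/-- functoriality for bimodule maps -/
def tmor (X : LMod A) {P Q : BMod A} (f : BMor P Q) : Mor (tens X P) (tens X Q) where
  map := tmap f.map f.map_ract
  map_act := fun a Φ => by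
    have h := tens_ext' (X := X) (P := P)
      (f := (tmap f.map f.map_ract).comp ((tens X P).act a))
      (g := ((tens X Q).act a).comp (tmap f.map f.map_ract)) (fun p x => by
        rw [ContinuousLinearMap.comp_apply, ContinuousLinearMap.comp_apply, tens_act_tq, tmap_tq,
          tmap_tq, tens_act_tq, f.map_lact]) Φ
    exact h

theorem tmor_tq {Q : BMod A} (f : BMor P Q) (p : P) (x : X) :
    (tmor X f).map (tq X P p x) = tq X Q (f.map p) x := tmap_tq f.map f.map_ract p x

/-- the bimodule `B(X, Y)` -/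
def homB (X Y : LMod A) : BMod A where
  carrier := X →L[ℂ] Y
  lact := (ContinuousLinearMap.compL ℂ X Y Y).comp Y.act
  ract := (ContinuousLinearMap.compL ℂ X X Y).flip.comp X.act
  lact_mul := fun a b T => ContinuousLinearMap.ext (fun x => Y.act_mul a b _)
  ract_mul := fun a b T => ContinuousLinearMap.ext (fun x => by
    change (show X →L[ℂ] Y from T) (X.act (a * b) x) =
      (show X →L[ℂ] Y from T) (X.act a (X.act b x))
    rw [X.act_mul])
  comm := fun a b T => rfl

theorem tens_projective (hP : BProjective P) : Projective (tens X P) := by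
  rintro Y f ⟨s, hs⟩
  set g : BMor P (homB X (tens X P)) :=
    { map := tq X P
      map_lact := fun a p => ContinuousLinearMap.ext (fun x => (tens_act_tq X P a p x).symm)
      map_ract := fun a p => ContinuousLinearMap.ext (fun x => tq_bal X P a p x) } with hg
  set f' : BMor (homB X Y) (homB X (tens X P)) :=
    { map := ContinuousLinearMap.compL ℂ X Y (tens X P) f.map
      map_lact := fun a T => ContinuousLinearMap.ext (fun x => f.map_act a _)
      map_ract := fun a T => rfl } with hf'
  obtain ⟨k, hk⟩ := lift_bimod f' g hP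
    ((ContinuousLinearMap.compL ℂ X (tens X P) Y s).comp (tq X P)) (fun p =>
      ContinuousLinearMap.ext (fun x => hs _))
  have hk' : ∀ p x, f.map ((show X →L[ℂ] Y from k.map p) x) = tq X P p x := fun p x =>
    congrArg (fun T : X →L[ℂ] tens X P => T x) (hk p)
  have hkl : ∀ a p x, (show X →L[ℂ] Y from k.map (P.lact a p)) x =
      Y.act a ((show X →L[ℂ] Y from k.map p) x) := fun a p x =>
    congrArg (fun T : X →L[ℂ] Y => T x) (k.map_lact a p)
  have hkr : ∀ a p x, (show X →L[ℂ] Y from k.map (P.ract a p)) x =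
      (show X →L[ℂ] Y from k.map p) (X.act a x) := fun a p x =>
    congrArg (fun T : X →L[ℂ] Y => T x) (k.map_ract a p)
  set K : P →L[ℂ] X →L[ℂ] Y := k.map with hK
  refine ⟨⟨qlift K hkr, fun a Φ => ?_⟩, fun Φ => ?_⟩
  · exact tens_ext' (f := (qlift K hkr).comp ((tens X P).act a))
      (g := (Y.act a).comp (qlift K hkr)) (fun p x => by
        rw [ContinuousLinearMap.comp_apply, ContinuousLinearMap.comp_apply, tens_act_tq, qlift_tq,
          qlift_tq]
        exact hkl a p x) Φ
  · exact tens_ext' (f := f.map.comp (qlift K hkr))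
      (g := ContinuousLinearMap.id ℂ _) (fun p x => by
        rw [ContinuousLinearMap.comp_apply, qlift_tq]
        exact hk' p x) Φ

end tensor

end

end Pool.Agent.H83.TX
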