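import Mathlib

/-! # Translations and integrated representations on `L¹(G)` (helper83, for MP_df984a_an) -/

namespace Pool.Agent.H83.Dim

open Filter Topology Set MeasureTheory
open scoped ENNReal

noncomputable section

set_option linter.unusedSectionVars false

variable {G : Type*} [Group G] [TopologicalSpace G] [IsTopologicalGroup G]
  [LocallyCompactSpace G] [MeasurableSpace G] [BorelSpace G]
  (μ : Measure G) [μ.IsHaarMeasure] [μ.Regular]
  {E F V : Type*} [NormedAddCommGroup E] [NormedSpace ℂ E] [NormedAddCommGroup F] [NormedSpace ℂ F]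
  [NormedAddCommGroup V] [NormedSpace ℂ V]

/-- left translation `(tr g F)(x) = F(g⁻¹ x)` on `L¹(G; E)` -/
def tr (g : G) : Lp E 1 μ →L[ℂ] Lp E 1 μ :=
  (Lp.compMeasurePreservingₗᵢ ℂ (fun x => g⁻¹ * x)
    (measurePreserving_mul_left μ g⁻¹)).toContinuousLinearMap

theorem tr_def (g : G) (f : Lp E 1 μ) :
    tr μ g f = Lp.compMeasurePreserving (fun x => g⁻¹ * x) (measurePreserving_mul_left μ g⁻¹) f :=
  rfl

theorem coeFn_tr (g : G) (f : Lp E 1 μ) : tr μ g f =ᵐ[μ] fun x => f (g⁻¹ * x) :=
  Lp.coeFn_compMeasurePreserving f (measurePreserving_mul_left μ g⁻¹)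

@[simp] theorem norm_tr (g : G) (f : Lp E 1 μ) : ‖tr μ g f‖ = ‖f‖ :=
  Lp.norm_compMeasurePreserving f _

theorem norm_tr_le (g : G) : ‖(tr μ g : Lp E 1 μ →L[ℂ] Lp E 1 μ)‖ ≤ 1 :=
  ContinuousLinearMap.opNorm_le_bound _ zero_le_one (fun f => by simp)

theorem tr_mul (g h : G) (f : Lp E 1 μ) : tr μ g (tr μ h f) = tr μ (g * h) f := by
  simp only [tr_def]
  rw [← Lp.compMeasurePreserving_comp_apply]
  congr 2
  funext x
  simp [mul_assoc]

@[simp] theorem tr_one (f : Lp E 1 μ) : tr μ (1 : G) f = f := by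
  rw [tr_def]
  have h : (fun x : G => (1 : G)⁻¹ * x) = id := by funext x; simp
  simp only [h]
  exact Lp.compMeasurePreserving_id_apply f

theorem tr_inv_tr (g : G) (f : Lp E 1 μ) : tr μ g⁻¹ (tr μ g f) = f := by
  rw [tr_mul, inv_mul_cancel, tr_one]

theorem tr_tr_inv (g : G) (f : Lp E 1 μ) : tr μ g (tr μ g⁻¹ f) = f := by
  rw [tr_mul, mul_inv_cancel, tr_one]

theorem tr_comp (L : E →L[ℂ] F) (g : G) (f : Lp E 1 μ) :
    tr μ g (L.compLp f) = L.compLp (tr μ g f) := by
  apply Lp.ext
  have h1 := coeFn_tr μ g (L.compLp f)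
  have h2 := (measurePreserving_mul_left μ g⁻¹).quasiMeasurePreserving.ae
    (L.coeFn_compLp (μ := μ) f)
  have h3 := L.coeFn_compLp (μ := μ) (tr μ g f)
  have h4 := coeFn_tr μ g f
  filter_upwards [h1, h2, h3, h4] with x h1 h2 h3 h4
  rw [h1, h2, h3, h4]

/-! ### continuity -/

section cont

theorem continuous_tr (f : Lp E 1 μ) : Continuous (fun g : G => tr μ g f) := by
  set c : G → C(G, G) := fun g => ⟨fun x => g⁻¹ * x, by fun_prop⟩ with hc
  have hcc : Continuous c := by
    have : Continuous (fun p : G × G => p.1⁻¹ * p.2) := by fun_prop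
    exact (ContinuousMap.curry ⟨_, this⟩).continuous
  exact Continuous.compMeasurePreservingLp (f := fun _ : G => f) continuous_const hcc
    (fun g => measurePreserving_mul_left μ g⁻¹) ENNReal.one_ne_top

/-- measurability of `t ↦ f(t) c(t)` for `f` integrable and `c` continuous -/
theorem aesm_smul {f : G → ℂ} (hf : Integrable f μ) {c : G → V} (hc : Continuous c) :
    AEStronglyMeasurable (fun t => f t • c t) μ := by
  obtain ⟨f', hf's, hff'⟩ := hf.aestronglyMeasurable
  have hf' : Integrable f' μ := hf.congr hff'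
  set A : ℕ → Set G := fun n => {x | ((n : ℝ) + 1)⁻¹ ≤ ‖f' x‖} with hA
  have hAm : ∀ n, MeasurableSet (A n) := fun n =>
    measurableSet_le measurable_const hf's.norm.measurable
  have hAf : ∀ n, μ (A n) ≠ ∞ := fun n =>
    (hf'.measure_norm_ge_lt_top (by positivity)).ne
  have hK : ∀ n m : ℕ, ∃ K, K ⊆ A n ∧ IsCompact K ∧ IsClosed K ∧
      μ (A n \ K) < ((m : ℝ≥0∞) + 1)⁻¹ := fun n m =>
    (hAm n).exists_isCompact_isClosed_sdiff_lt (hAf n) (by simp)
  choose K hKA hKc hKcl hKμ using hK
  set S : Set G := ⋃ p : ℕ × ℕ, K p.1 p.2 with hS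
  have hSm : MeasurableSet S := MeasurableSet.iUnion (fun p => (hKcl p.1 p.2).measurableSet)
  have hnull : μ ({x | f' x ≠ 0} \ S) = 0 := by
    have hsub : {x | f' x ≠ 0} \ S ⊆ ⋃ n, (A n \ ⋃ m, K n m) := by
      rintro x ⟨hx, hxS⟩
      have hx' : 0 < ‖f' x‖ := norm_pos_iff.2 hx
      obtain ⟨n, hn⟩ := exists_nat_gt (‖f' x‖⁻¹)
      refine mem_iUnion.2 ⟨n, ?_, ?_⟩
      · change ((n : ℝ) + 1)⁻¹ ≤ ‖f' x‖
        rw [inv_le_comm₀ (by positivity) hx']
        linarith
      · intro hxK
        obtain ⟨m, hm⟩ := mem_iUnion.1 hxK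
        exact hxS (mem_iUnion.2 ⟨(n, m), hm⟩)
    refine measure_mono_null hsub (measure_iUnion_null (fun n => ?_))
    have hle : ∀ m : ℕ, μ (A n \ ⋃ m, K n m) ≤ ((m : ℝ≥0∞) + 1)⁻¹ := fun m =>
      (measure_mono (sdiff_subset_sdiff_right (subset_iUnion (K n) m))).trans (hKμ n m).le
    have h0 : Tendsto (fun n : ℕ => ((n : ℝ≥0∞) + 1)⁻¹) atTop (𝓝 0) := by
      have := ENNReal.tendsto_inv_nat_nhds_zero.comp (tendsto_add_atTop_nat 1)
      refine this.congr (fun n => ?_)
      simp
    exact le_antisymm (ge_of_tendsto' h0 hle) zero_le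
  have h1 : AEStronglyMeasurable (fun t => f' t • c t) (μ.restrict S) := by
    rw [hS, aestronglyMeasurable_iUnion_iff]
    intro p
    exact hf's.aestronglyMeasurable.smul
      (hc.continuousOn.aestronglyMeasurable_of_isCompact (hKc _ _) (hKcl _ _).measurableSet)
  have h2 := (aestronglyMeasurable_indicator_iff hSm).2 h1
  refine h2.congr ?_
  have h3 : ∀ᵐ x ∂μ, x ∉ ({x | f' x ≠ 0} \ S) := measure_eq_zero_iff_ae_notMem.1 hnull
  filter_upwards [h3, hff'] with x hx hfx
  by_cases hxS : x ∈ S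
  · rw [indicator_of_mem hxS, hfx]
  · rw [indicator_of_notMem hxS]
    have : f' x = 0 := by
      by_contra hne
      exact hx ⟨hne, hxS⟩
    rw [hfx, this, zero_smul]

theorem integrable_smul {f : G → ℂ} (hf : Integrable f μ) {c : G → V} (hc : Continuous c) {C : ℝ}
    (hC : ∀ t, ‖c t‖ ≤ C) : Integrable (fun t => f t • c t) μ := by
  refine Integrable.mono' (hf.norm.mul_const C) (aesm_smul μ hf hc) ?_
  refine Eventually.of_forall (fun t => ?_)
  rw [norm_smul]
  exact mul_le_mul_of_nonneg_left (hC t) (norm_nonneg _)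

end cont

/-! ### integrated representations -/

/-- A strongly continuous, uniformly bounded representation of `G` on `V`. -/
structure Rep (G : Type*) [Group G] [TopologicalSpace G] (V : Type*) [NormedAddCommGroup V]
    [NormedSpace ℂ V] where
  π : G → V →L[ℂ] V
  C : ℝ
  bound : ∀ t, ‖π t‖ ≤ C
  cont : ∀ v, Continuous fun t => π t v
  mul : ∀ s t v, π s (π t v) = π (s * t) v

namespace Rep

variable (R : Rep G V)

theorem bound' (t : G) (v : V) : ‖R.π t v‖ ≤ R.C * ‖v‖ := (R.π t).le_of_opNorm_le (R.bound t) v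

theorem C_nonneg : 0 ≤ R.C := (norm_nonneg _).trans (R.bound 1)

theorem integrable (f : Lp ℂ 1 μ) (v : V) : Integrable (fun t => f t • R.π t v) μ :=
  integrable_smul μ (L1.integrable_coeFn f) (R.cont v) (fun t => R.bound' t v)

/-- the integrated form `f ↦ ∫ f(t) π(t) dt` -/
def int : Lp ℂ 1 μ →L[ℂ] V →L[ℂ] V :=
  LinearMap.mkContinuous₂
    (LinearMap.mk₂ ℂ (fun (f : Lp ℂ 1 μ) (v : V) => ∫ t, f t • R.π t v ∂μ)
      (by
        intro f g v
        rw [← integral_add (R.integrable μ f v) (R.integrable μ g v)]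
        apply integral_congr_ae
        filter_upwards [Lp.coeFn_add f g] with t ht
        rw [ht, Pi.add_apply, add_smul])
      (by
        intro c f v
        rw [← integral_smul]
        apply integral_congr_ae
        filter_upwards [Lp.coeFn_smul c f] with t ht
        rw [ht, Pi.smul_apply, smul_assoc])
      (by
        intro f v w
        rw [← integral_add (R.integrable μ f v) (R.integrable μ f w)]
        congr 1
        funext t
        rw [map_add, smul_add])
      (by
        intro c f v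
        rw [← integral_smul]
        congr 1
        funext t
        rw [map_smul, smul_comm]))
    R.C
    (by
      intro f v
      rw [LinearMap.mk₂_apply]
      refine (norm_integral_le_integral_norm _).trans ?_
      rw [mul_right_comm, mul_comm, L1.norm_eq_integral_norm, ← integral_mul_const]
      refine integral_mono (R.integrable μ f v).norm
        ((L1.integrable_coeFn f).norm.mul_const _) (fun t => ?_)
      beta_reduce
      rw [norm_smul]
      exact mul_le_mul_of_nonneg_left (R.bound' t v) (norm_nonneg _))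

theorem int_apply (f : Lp ℂ 1 μ) (v : V) : R.int μ f v = ∫ t, f t • R.π t v ∂μ := rfl

theorem norm_int_le (f : Lp ℂ 1 μ) (v : V) : ‖R.int μ f v‖ ≤ R.C * ‖f‖ * ‖v‖ := by
  have h : ‖R.int μ‖ ≤ R.C := LinearMap.mkContinuous₂_norm_le _ R.C_nonneg _
  exact (R.int μ).le_of_opNorm₂_le_of_le h le_rfl le_rfl

theorem int_tr (g : G) (f : Lp ℂ 1 μ) (v : V) :
    R.int μ (tr μ g f) v = R.π g (R.int μ f v) := by
  by_cases hV : CompleteSpace V
  · rw [int_apply, int_apply, ← (R.π g).integral_comp_comm (R.integrable μ f v)]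
    have h1 : ∫ t, (tr μ g f) t • R.π t v ∂μ = ∫ t, f (g⁻¹ * t) • R.π (g * (g⁻¹ * t)) v ∂μ := by
      apply integral_congr_ae
      filter_upwards [coeFn_tr μ g f] with t ht
      rw [ht, mul_inv_cancel_left]
    rw [h1, integral_mul_left_eq_self (fun t => f t • R.π (g * t) v) g⁻¹]
    congr 1
    funext t
    rw [map_smul, R.mul]
  · simp only [int_apply, integral, hV, dif_neg, not_false_iff, map_zero]

end Rep

/-- left translation as a representation -/
def trRep (E : Type*) [NormedAddCommGroup E] [NormedSpace ℂ E] : Rep G (Lp E 1 μ) where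
  π := fun g => tr μ g
  C := 1
  bound := norm_tr_le μ
  cont := continuous_tr μ
  mul := tr_mul μ

end

end Pool.Agent.H83.Dim
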